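import Mathlib

/-! The estimates for large parameters. -/

namespace Pool.Agent.MP_3e18ff_co.H58

lemma ana_two {d b : ℝ} (hd : 1000 ≤ d) (hb : 0 ≤ b) (hbd : b + 1 ≤ d)
    (h : (d + 1) * (b + 1) * b * ((d + 1) * d) * ((d + 1) * b) ^ 2
      ≤ 12 * (d + 2) * ((d + 2 + b) * ((d + 3 + b) * (d + 1) + 1)) ^ 2) :
    (b + 1) ^ 3 ≤ 17 * (d + 1) ^ 2 := by
  by_contra hcon
  push Not at hcon
  have hb100 : 100 ≤ b := by
    by_contra h1
    have h2 : (b + 1) ^ 3 ≤ 101 ^ 3 := pow_le_pow_left₀ (by linarith) (by linarith) 3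
    nlinarith
  have e1 : (d + 2 + b) * ((d + 3 + b) * (d + 1) + 1) ≤ 5 * (d + 1) ^ 3 := by
    have a1 : d + 2 + b ≤ 2 * (d + 1) := by linarith
    have a2 : (d + 3 + b) * (d + 1) + 1 ≤ 5 / 2 * (d + 1) ^ 2 := by nlinarith
    calc _ ≤ (2 * (d + 1)) * (5 / 2 * (d + 1) ^ 2) :=
          mul_le_mul a1 a2 (by positivity) (by positivity)
      _ = _ := by ring
  have e2 : ((d + 2 + b) * ((d + 3 + b) * (d + 1) + 1)) ^ 2 ≤ (5 * (d + 1) ^ 3) ^ 2 :=
    pow_le_pow_left₀ (by positivity) e1 2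
  have e3 : 12 * (d + 2) * ((d + 2 + b) * ((d + 3 + b) * (d + 1) + 1)) ^ 2
      ≤ 24 * d * (5 * (d + 1) ^ 3) ^ 2 :=
    mul_le_mul (by linarith) e2 (by positivity) (by positivity)
  have e4 : (b + 1) ^ 3 ≤ 8 * b ^ 3 := by
    calc (b + 1) ^ 3 ≤ (2 * b) ^ 3 := pow_le_pow_left₀ (by linarith) (by linarith) 3
      _ = _ := by ring
  have e5 : d * (d + 1) ^ 4 * ((b + 1) * b ^ 3) ≤ d * (d + 1) ^ 4 * (600 * (d + 1) ^ 2) := by
    calc _ = (d + 1) * (b + 1) * b * ((d + 1) * d) * ((d + 1) * b) ^ 2 := by ring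
      _ ≤ _ := h.trans e3
      _ = _ := by ring
  have e6 := le_of_mul_le_mul_left e5 (by positivity)
  have e7 : (b + 1) * (2 * (d + 1) ^ 2) ≤ (b + 1) * b ^ 3 :=
    mul_le_mul_of_nonneg_left (by nlinarith [sq_nonneg (d + 1)]) (by linarith)
  have hb300 : b + 1 ≤ 300 := by
    have : (b + 1) * (2 * (d + 1) ^ 2) ≤ 300 * (2 * (d + 1) ^ 2) := by linarith
    exact le_of_mul_le_mul_right this (by positivity)
  have hb255 : 255 ≤ b := by
    by_contra h1
    have h2 : (b + 1) ^ 3 ≤ 256 ^ 3 := pow_le_pow_left₀ (by linarith) (by linarith) 3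
    nlinarith
  have e8 : (b + 1) ^ 3 ≤ 2 * b ^ 3 := by
    calc (b + 1) ^ 3 ≤ (5 / 4 * b) ^ 3 := pow_le_pow_left₀ (by linarith) (by linarith) 3
      _ ≤ _ := by nlinarith [pow_pos (show 0 < b by linarith) 3]
  have e9 : (b + 1) * (8 * (d + 1) ^ 2) ≤ (b + 1) * b ^ 3 :=
    mul_le_mul_of_nonneg_left (by nlinarith [sq_nonneg (d + 1)]) (by linarith)
  have : (b + 1) * (8 * (d + 1) ^ 2) ≤ 75 * (8 * (d + 1) ^ 2) := by linarith
  have := le_of_mul_le_mul_right this (by positivity)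
  linarith

lemma phi_bound {x y z ε : ℝ} (hx0 : 0 ≤ x) (hx2 : x ≤ 2) (hxy : x ≤ y) (hz0 : 0 ≤ z)
    (hz : z ≤ x + ε) (hε : 0 ≤ ε) :
    15 / 4 * (2 - x) - 12 * ε ≤ 12 - 12 * z + 5 * z * y - z * y * x := by
  have h1 : z * x * (5 - x) ≤ z * y * (5 - x) :=
    mul_le_mul_of_nonneg_right (mul_le_mul_of_nonneg_left hxy hz0) (by linarith)
  have h2 : 0 ≤ x ^ 2 - 5 * x + 12 := by nlinarith
  have h3 : z * (x ^ 2 - 5 * x + 12) ≤ (x + ε) * (x ^ 2 - 5 * x + 12) :=
    mul_le_mul_of_nonneg_right hz h2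
  have h4 : ε * (x ^ 2 - 5 * x + 12) ≤ ε * 12 := mul_le_mul_of_nonneg_left (by nlinarith) hε
  have h5 : (2 - x) * (15 / 4) ≤ (2 - x) * (x ^ 2 - 3 * x + 6) :=
    mul_le_mul_of_nonneg_left (by nlinarith [sq_nonneg (x - 3 / 2)]) (by linarith)
  nlinarith

lemma ana_big {D A u q w r l₂ l₃ : ℝ} (hD : 1001 ≤ D) (hA : 2 * u - 3 ≤ A) (hu : 3 ≤ u)
    (huD : 2 * u ≤ D + 2) (hq : q = D + 2 - u) (hw : w = 2 * (D - 1 + u) - 1) (hr : r = D + 1 + A)
    (hr' : 2 * r ≤ 7 * D) (h2 : l₂ * (D + 1) = (r * D + 1) * r)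
    (h3 : l₃ * (D + 2) = (r * D + 2) * l₂)
    (h : (12 * l₃ - 12 * w * l₂ + 5 * w * (w - 1) * r - w * (w - 1) * (w - 2)) * q
      * ((A - 2) * D) ^ 2 ≤ 12 * l₂ * (D + q) * (r * D + 2) ^ 2) :
    A ^ 3 ≤ 17 * D ^ 2 := by
  by_contra hcon
  push Not at hcon
  have hA0 : 3 ≤ A := by linarith
  have hA257 : 257 ≤ A := by
    by_contra h1
    have h2 : A ^ 3 ≤ 257 ^ 3 := pow_le_pow_left₀ (by linarith) (by linarith) 3
    nlinarith
  have hr0 : 0 < r := by linarith
  have hD0 : 0 < D := by linarith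
  have hN1 : 0 < r * D + 1 := by positivity
  have hN2 : 0 < r * D + 2 := by positivity
  have hl₂ : l₂ = (r * D + 1) * r / (D + 1) := by field_simp; linarith
  have hl₃ : l₃ = (r * D + 2) * l₂ / (D + 2) := by field_simp; linarith
  have hl₂0 : 0 < l₂ := by rw [hl₂]; positivity
  have hl₃0 : 0 < l₃ := by rw [hl₃]; positivity
  have hw0 : 2 ≤ w := by linarith
  set x := (w - 2) / r with hx
  set y := (w - 1) * (D + 1) / (r * D + 1) with hy
  set z := w * (D + 2) / (r * D + 2) with hz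
  have hpsi : 12 * l₃ - 12 * w * l₂ + 5 * w * (w - 1) * r - w * (w - 1) * (w - 2)
      = l₃ * (12 - 12 * z + 5 * z * y - z * y * x) := by
    rw [hx, hy, hz, hl₃, hl₂]
    field_simp
  have hx0 : 0 ≤ x := div_nonneg (by linarith) hr0.le
  have hx2 : A / r ≤ 2 - x := by
    rw [hx, le_sub_iff_add_le, ← add_div, div_le_iff₀ hr0]
    linarith
  have hAr : 0 < A / r := by positivity
  have hxy : x ≤ y := by
    rw [hx, hy, div_le_div_iff₀ hr0 hN1]
    have : 0 ≤ (w - 2) * (r - 1) := mul_nonneg (by linarith) (by linarith)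
    nlinarith [mul_pos hr0 hD0]
  have hz0 : 0 ≤ z := by positivity
  have hzx : z ≤ x + 601 / 100 / D := by
    have e1 : z ≤ w * (D + 2) / (r * D) := by
      rw [hz]
      exact div_le_div_of_nonneg_left (by positivity) (by positivity) (by linarith)
    refine e1.trans ?_
    rw [hx, div_add_div _ _ hr0.ne' hD0.ne', div_le_div_iff_of_pos_right (by positivity)]
    nlinarith
  have hφ := phi_bound hx0 (by linarith) hxy hz0 hzx (by positivity)
  set φ := 12 - 12 * z + 5 * z * y - z * y * x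
  have hφ' : 15 / 4 * (A / r) - 7212 / 100 / D ≤ φ := by
    have : 12 * (601 / 100 / D) = 7212 / 100 / D := by ring
    linarith
  rw [hpsi] at h
  have hq0 : D / 2 ≤ q := by linarith
  have hmain : φ * q * ((A - 2) * D) ^ 2 ≤ 12 * (D + 2) * (D + q) * (r * D + 2) := by
    have e1 : l₃ * (φ * q * ((A - 2) * D) ^ 2) ≤ l₃ * (12 * (D + 2) * (D + q) * (r * D + 2)) := by
      calc _ = l₃ * φ * q * ((A - 2) * D) ^ 2 := by ring
        _ ≤ _ := h
        _ = 12 * (D + q) * (r * D + 2) * ((r * D + 2) * l₂) := by ring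
        _ = _ := by rw [← h3]; ring
    exact le_of_mul_le_mul_left e1 hl₃0
  have hq00 : 0 < q := by linarith
  by_cases hc : A ≤ 2 / 5 * D
  · have e1 : r ≤ 1401 / 1000 * D := by linarith
    have e2 : 4 / 5 * D ≤ q := by linarith
    have e3 : A / (1401 / 1000 * D) ≤ A / r :=
      div_le_div_of_nonneg_left (by linarith) hr0 e1
    have e4 : 239 / 100 * A / D ≤ φ := by
      refine le_trans ?_ hφ'
      have : 239 / 100 * A / D ≤ 15 / 4 * (A / (1401 / 1000 * D)) - 7212 / 100 / D := by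
        rw [show 15 / 4 * (A / (1401 / 1000 * D)) - 7212 / 100 / D
          = (3750 / 1401 * A - 7212 / 100) / D by field_simp; ring]
        exact div_le_div_of_nonneg_right (by linarith) hD0.le
      linarith
    have e5 : D + q ≤ 9 / 4 * q := by linarith
    have e6 : r * D + 2 ≤ 1402 / 1000 * D ^ 2 := by nlinarith
    have e7 : D + 2 ≤ 1002 / 1000 * D := by linarith
    have e8 : 12 * (D + 2) * (D + q) * (r * D + 2)
        ≤ 12 * (1002 / 1000 * D) * (9 / 4 * q) * (1402 / 1000 * D ^ 2) := by gcongr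
    have e9 : 239 / 100 * A / D * q * ((255 / 257 * A) * D) ^ 2 ≤ φ * q * ((A - 2) * D) ^ 2 := by
      have : 255 / 257 * A ≤ A - 2 := by linarith
      have hφ0 : 0 ≤ φ := le_trans (by positivity) e4
      gcongr
    have e10 : q * D * (239 / 100 * (255 / 257) ^ 2 * A ^ 3)
        ≤ q * D * (12 * (1002 / 1000) * (9 / 4) * (1402 / 1000) * D ^ 2) := by
      calc _ = 239 / 100 * A / D * q * ((255 / 257 * A) * D) ^ 2 := by field_simp
        _ ≤ _ := e9.trans (hmain.trans e8)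
        _ = _ := by ring
    have e11 := le_of_mul_le_mul_left e10 (by positivity)
    nlinarith [sq_nonneg D]
  · push Not at hc
    have e3 : 2855 / 10000 ≤ A / r := by
      rw [le_div_iff₀ hr0]
      linarith
    have e4 : 99 / 100 ≤ φ := by
      have : 7212 / 100 / D ≤ 8 / 100 := by
        rw [div_le_iff₀ hD0]
        linarith
      linarith
    have e5 : D + q ≤ 3 * q := by linarith
    have e6 : r * D + 2 ≤ 3501 / 1000 * D ^ 2 := by nlinarith
    have e7 : D + 2 ≤ 1002 / 1000 * D := by linarith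
    have e8 : 12 * (D + 2) * (D + q) * (r * D + 2)
        ≤ 12 * (1002 / 1000 * D) * (3 * q) * (3501 / 1000 * D ^ 2) := by gcongr
    have e9 : 99 / 100 * q * ((398 / 1000 * D) * D) ^ 2 ≤ φ * q * ((A - 2) * D) ^ 2 := by
      have : 398 / 1000 * D ≤ A - 2 := by linarith
      gcongr
    have e10 : q * D ^ 3 * (99 / 100 * (398 / 1000) ^ 2 * D)
        ≤ q * D ^ 3 * (12 * (1002 / 1000) * 3 * (3501 / 1000)) := by
      calc _ = 99 / 100 * q * ((398 / 1000 * D) * D) ^ 2 := by ring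
        _ ≤ _ := e9.trans (hmain.trans e8)
        _ = _ := by ring
    have e11 := le_of_mul_le_mul_left e10 (by positivity)
    linarith

end Pool.Agent.MP_3e18ff_co.H58
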