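import Mathlib

/-! Basic counting in Steiner systems. -/

namespace Pool.Agent.MP_3e18ff_co.H58

open Finset

variable {X : Type} [Fintype X] [DecidableEq X]

/-- A Steiner system, in a form convenient for proofs. -/
structure St (t k : ℕ) (𝓑 : Finset (Finset X)) : Prop where
  card : ∀ B ∈ 𝓑, B.card = k
  ex : ∀ T : Finset X, T.card = t → ∃ B ∈ 𝓑, T ⊆ B
  uniq : ∀ B ∈ 𝓑, ∀ B' ∈ 𝓑, t ≤ (B ∩ B').card → B = B'

/-- The symmetric difference property. -/
def Sdp (s : ℕ) (𝓑 : Finset (Finset X)) : Prop :=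
  ∀ B ∈ 𝓑, ∀ B' ∈ 𝓑, (B ∩ B').card = s → symmDiff B B' ∈ 𝓑

/-- Blocks through a set. -/
def thr (𝓑 : Finset (Finset X)) (S : Finset X) : Finset (Finset X) := 𝓑.filter (fun B => S ⊆ B)

omit [Fintype X] in
@[simp] lemma mem_thr {𝓑 : Finset (Finset X)} {S B : Finset X} :
    B ∈ thr 𝓑 S ↔ B ∈ 𝓑 ∧ S ⊆ B := by simp [thr]

/-- Number of blocks through an `i`-set. -/
def lam (n t k i : ℕ) : ℕ := (n - i).choose (t - i) / (k - i).choose (t - i)

omit [Fintype X] in
lemma St.eq_of_subset {t k : ℕ} {𝓑 : Finset (Finset X)} (h : St t k 𝓑) {B B' T : Finset X}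
    (hB : B ∈ 𝓑) (hB' : B' ∈ 𝓑) (hT : t ≤ T.card) (h1 : T ⊆ B) (h2 : T ⊆ B') : B = B' :=
  h.uniq B hB B' hB' (hT.trans (card_le_card (subset_inter h1 h2)))

omit [Fintype X] in
lemma St.inter_lt {t k : ℕ} {𝓑 : Finset (Finset X)} (h : St t k 𝓑) {B B' : Finset X}
    (hB : B ∈ 𝓑) (hB' : B' ∈ 𝓑) (hne : B ≠ B') : (B ∩ B').card < t := by
  by_contra hc
  exact hne (h.uniq B hB B' hB' (not_lt.mp hc))

lemma St.card_thr_mul {t k : ℕ} {𝓑 : Finset (Finset X)} (h : St t k 𝓑) (S : Finset X)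
    (hS : S.card ≤ t) :
    (thr 𝓑 S).card * (k - S.card).choose (t - S.card)
      = (Fintype.card X - S.card).choose (t - S.card) := by
  have key := Finset.sum_card_bipartiteAbove_eq_sum_card_bipartiteBelow
    (s := thr 𝓑 S) (t := ((univ : Finset X).powersetCard t).filter (fun T => S ⊆ T))
    (r := fun B T => T ⊆ B)
  have h1 : ∀ B ∈ thr 𝓑 S, (bipartiteAbove (fun B T => T ⊆ B)
      (((univ : Finset X).powersetCard t).filter (fun T => S ⊆ T)) B).card
        = (k - S.card).choose (t - S.card) := by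
    intro B hB
    rw [mem_thr] at hB
    rw [← h.card B hB.1, ← card_filter_powersetCard_subset S B t hB.2 hS]
    congr 1
    ext T
    simp only [mem_bipartiteAbove, mem_filter, mem_powersetCard, subset_univ, true_and]
    tauto
  have h2 : ∀ T ∈ ((univ : Finset X).powersetCard t).filter (fun T => S ⊆ T),
      (bipartiteBelow (fun B T => T ⊆ B) (thr 𝓑 S) T).card = 1 := by
    intro T hT
    simp only [mem_filter, mem_powersetCard, subset_univ, true_and] at hT
    obtain ⟨B, hB, hTB⟩ := h.ex T hT.1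
    rw [card_eq_one]
    refine ⟨B, ?_⟩
    ext B'
    simp only [mem_bipartiteBelow, mem_thr, mem_singleton]
    constructor
    · rintro ⟨⟨hB', _⟩, hTB'⟩
      exact h.eq_of_subset hB' hB hT.1.ge hTB' hTB
    · rintro rfl
      exact ⟨⟨hB, hT.2.trans hTB⟩, hTB⟩
  rw [sum_congr rfl h1, sum_congr rfl h2] at key
  simp only [sum_const, smul_eq_mul, mul_one] at key
  rw [key, card_filter_powersetCard_subset S univ t (subset_univ _) hS, card_univ]

lemma St.card_thr {t k : ℕ} {𝓑 : Finset (Finset X)} (h : St t k 𝓑) (htk : t ≤ k) (S : Finset X)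
    (hS : S.card ≤ t) : (thr 𝓑 S).card = lam (Fintype.card X) t k S.card := by
  have h1 := h.card_thr_mul S hS
  have hpos : 0 < (k - S.card).choose (t - S.card) := Nat.choose_pos (by omega)
  unfold lam
  rw [← h1, Nat.mul_div_cancel _ hpos]

lemma lam_top (n t k : ℕ) : lam n t k t = 1 := by simp [lam]

omit [Fintype X] in
/-- Swapping a sum over blocks with a sum over subsets. -/
lemma sum_thr_swap {M : Type*} [Semiring M] (𝓑 : Finset (Finset X)) (S : Finset X)
    (𝓙 : Finset (Finset X)) (φ : Finset X → M) :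
    ∑ B ∈ thr 𝓑 S, ∑ I ∈ 𝓙.filter (fun I => I ⊆ B), φ I
      = ∑ I ∈ 𝓙, ((thr 𝓑 (S ∪ I)).card : M) * φ I := by
  simp_rw [sum_filter]
  rw [sum_comm]
  refine sum_congr rfl fun I _ => ?_
  rw [← sum_filter, sum_const, nsmul_eq_mul]
  congr 3
  ext B
  simp only [mem_filter, mem_thr, union_subset_iff]
  tauto

/-- The factorial moments of the intersection with a set. -/
lemma St.moment {t k : ℕ} {𝓑 : Finset (Finset X)} (h : St t k 𝓑) (htk : t ≤ k) (S W : Finset X)
    (hd : Disjoint S W) (j : ℕ) (hj : S.card + j ≤ t) :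
    ∑ B ∈ thr 𝓑 S, (B ∩ W).card.choose j
      = W.card.choose j * lam (Fintype.card X) t k (S.card + j) := by
  have h1 : ∀ B ∈ thr 𝓑 S, (B ∩ W).card.choose j
      = ∑ I ∈ (W.powersetCard j).filter (fun I => I ⊆ B), 1 := by
    intro B _
    rw [← card_powersetCard, sum_const, smul_eq_mul, mul_one]
    congr 1
    ext I
    simp only [mem_powersetCard, mem_filter, subset_inter_iff]
    tauto
  rw [sum_congr rfl h1, sum_thr_swap]
  have h2 : ∀ I ∈ W.powersetCard j, ((thr 𝓑 (S ∪ I)).card : ℕ) * 1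
      = lam (Fintype.card X) t k (S.card + j) := by
    intro I hI
    rw [mem_powersetCard] at hI
    have : (S ∪ I).card = S.card + j := by
      rw [card_union_of_disjoint (disjoint_of_subset_right hI.1 hd), hI.2]
    rw [mul_one, h.card_thr htk _ (by omega), this]
  simp only [Nat.cast_id]
  rw [sum_congr rfl h2, sum_const, card_powersetCard, smul_eq_mul]

lemma St.moment_one {t k : ℕ} {𝓑 : Finset (Finset X)} (h : St t k 𝓑) (htk : t ≤ k) (S W : Finset X)
    (hd : Disjoint S W) (hj : S.card + 1 ≤ t) :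
    ∑ B ∈ thr 𝓑 S, (B ∩ W).card = W.card * lam (Fintype.card X) t k (S.card + 1) := by
  simpa using h.moment htk S W hd 1 hj

/-- The recurrence for the numbers `lam`. -/
lemma St.lam_rec {t k : ℕ} {𝓑 : Finset (Finset X)} (h : St t k 𝓑) (htk : t ≤ k)
    (hn : t ≤ Fintype.card X) (i : ℕ) (hi : i < t) :
    lam (Fintype.card X) t k i * (k - i)
      = (Fintype.card X - i) * lam (Fintype.card X) t k (i + 1) := by
  obtain ⟨S, -, hS⟩ := exists_subset_card_eq (s := (univ : Finset X)) (n := i)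
    (by rw [card_univ]; omega)
  have h1 := h.moment_one htk S Sᶜ disjoint_compl_right (by omega)
  have h2 : ∀ B ∈ thr 𝓑 S, (B ∩ Sᶜ).card = k - i := by
    intro B hB
    rw [mem_thr] at hB
    rw [← sdiff_eq_inter_compl, card_sdiff_of_subset hB.2, h.card B hB.1, hS]
  rw [sum_congr rfl h2, sum_const, smul_eq_mul, h.card_thr htk S (by omega), card_compl, hS] at h1
  exact h1

/-- The second moment of a weighted sum over blocks. -/
lemma St.quad {t k : ℕ} {𝓑 : Finset (Finset X)} (h : St t k 𝓑) (htk : t ≤ k) (S : Finset X)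
    (hS : S.card + 2 ≤ t) (ψ : X → ℝ) :
    ∑ B ∈ thr 𝓑 S, (∑ x ∈ B \ S, ψ x) ^ 2
      = ((lam (Fintype.card X) t k (S.card + 1) : ℝ) - lam (Fintype.card X) t k (S.card + 2))
          * ∑ x ∈ Sᶜ, ψ x ^ 2
        + (lam (Fintype.card X) t k (S.card + 2) : ℝ) * (∑ x ∈ Sᶜ, ψ x) ^ 2 := by
  have h1 : ∀ B ∈ thr 𝓑 S, (∑ x ∈ B \ S, ψ x) ^ 2
      = ∑ x ∈ Sᶜ, ∑ y ∈ Sᶜ, if x ∈ B ∧ y ∈ B then ψ x * ψ y else 0 := by
    intro B _
    have : ∑ x ∈ B \ S, ψ x = ∑ x ∈ Sᶜ, if x ∈ B then ψ x else 0 := by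
      rw [← sum_filter]
      congr 1
      ext x
      simp [and_comm]
    rw [this, sq, sum_mul_sum]
    refine sum_congr rfl fun x _ => sum_congr rfl fun y _ => ?_
    by_cases hx : x ∈ B <;> by_cases hy : y ∈ B <;> simp [hx, hy]
  rw [sum_congr rfl h1, sum_comm]
  have h2 : ∀ x ∈ Sᶜ, ∑ B ∈ thr 𝓑 S, ∑ y ∈ Sᶜ, (if x ∈ B ∧ y ∈ B then ψ x * ψ y else 0)
      = ((lam (Fintype.card X) t k (S.card + 1) : ℝ) - lam (Fintype.card X) t k (S.card + 2))
          * ψ x ^ 2 + (lam (Fintype.card X) t k (S.card + 2) : ℝ) * (ψ x * ∑ y ∈ Sᶜ, ψ y) := by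
    intro x hx
    rw [sum_comm]
    have h3 : ∀ y ∈ Sᶜ, ∑ B ∈ thr 𝓑 S, (if x ∈ B ∧ y ∈ B then ψ x * ψ y else 0)
        = (if y = x then ((lam (Fintype.card X) t k (S.card + 1) : ℝ)
            - lam (Fintype.card X) t k (S.card + 2)) * ψ x ^ 2 else 0)
          + (lam (Fintype.card X) t k (S.card + 2) : ℝ) * (ψ x * ψ y) := by
      intro y hy
      rw [← sum_filter, sum_const, nsmul_eq_mul]
      have hxS : x ∉ S := by simpa using hx
      have hyS : y ∉ S := by simpa using hy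
      by_cases hxy : y = x
      · subst hxy
        have : (thr 𝓑 S).filter (fun B => y ∈ B ∧ y ∈ B) = thr 𝓑 (insert y S) := by
          ext B; simp only [mem_filter, mem_thr, insert_subset_iff]; tauto
        rw [this, h.card_thr htk _ (by rw [card_insert_of_notMem hyS]; omega),
          card_insert_of_notMem hyS]
        simp only [if_true]
        ring
      · have : (thr 𝓑 S).filter (fun B => x ∈ B ∧ y ∈ B) = thr 𝓑 (insert y (insert x S)) := by
          ext B; simp only [mem_filter, mem_thr, insert_subset_iff]; tauto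
        have hc : (insert y (insert x S)).card = S.card + 2 := by
          rw [card_insert_of_notMem (by simp [hxy, hyS]), card_insert_of_notMem hxS]
        rw [this, h.card_thr htk _ (by omega), hc]
        simp [hxy]
    rw [sum_congr rfl h3, sum_add_distrib, sum_ite_eq' Sᶜ x, if_pos hx, ← mul_sum, ← mul_sum]
  rw [sum_congr rfl h2, sum_add_distrib, ← mul_sum, ← mul_sum, ← sum_mul, sq (∑ x ∈ Sᶜ, ψ x)]

end Pool.Agent.MP_3e18ff_co.H58
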