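import Pool.Agent.MP_3e18ff_co.H58.Moment

/-! The numerical inequalities for `u ≥ 3`. -/

namespace Pool.Agent.MP_3e18ff_co.H58

open Finset

variable {X : Type} [Fintype X] [DecidableEq X]

omit [Fintype X] in
lemma blocking_W {s u : ℕ} {𝓑 : Finset (Finset X)} (h : St (s + u) (2 * s) 𝓑) (hs : Sdp s 𝓑)
    {B₁ B₂ C F : Finset X} (hB₁ : B₁ ∈ 𝓑) (hB₂ : B₂ ∈ 𝓑) (hC₁ : C ⊆ B₁) (hC₂ : C ⊆ B₂)
    (hCc : C.card = s) {z : X} (hz₁ : z ∈ B₁) (hz₂ : z ∈ B₂) (hzC : z ∉ C)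
    (hF : F ∈ 𝓑) (hAF : B₁ \ C ⊆ F) (hU : u ≤ (F ∩ (B₂ \ B₁)).card) (V : Finset X) :
    ∀ H ∈ thr 𝓑 (C ∪ V), ¬ Disjoint H ((B₁ ∪ B₂ ∪ F) \ C) := by
  intro H hH hd
  rw [mem_thr] at hH
  have key : ∀ x ∈ H, x ∈ B₁ ∪ B₂ ∪ F → x ∈ C := by
    intro x hx hx'
    by_contra hc
    exact disjoint_left.mp hd hx (mem_sdiff.mpr ⟨hx', hc⟩)
  obtain ⟨x, hx, hxF, hx₁, -⟩ := path_two h hs hB₁ hB₂ hC₁ hC₂ hCc hz₁ hz₂ hzC hF hAF hU hH.1
    (subset_union_left.trans hH.2) (fun x hx hx' => key x hx (by simp [hx']))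
    (fun x hx hx' => key x hx (by simp [hx']))
  exact hx₁ (hC₁ (key x hx (by simp [hxF])))

lemma exists_avoid (Z : Finset X) (j : ℕ) (hj : Z.card + j ≤ Fintype.card X) :
    ∃ V : Finset X, V.card = j ∧ Disjoint V Z := by
  obtain ⟨V, hV, hVc⟩ := exists_subset_card_eq (s := Zᶜ) (n := j) (by rw [card_compl]; omega)
  exact ⟨V, hVc, disjoint_left.mpr fun x hx => mem_compl.mp (hV hx)⟩

/-- The basic configuration. -/
lemma exists_config {d u : ℕ} {𝓑 : Finset (Finset X)} (h : St (d + 2 * u) (2 * (d + u)) 𝓑)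
    (hu : 2 ≤ u) (hn : 2 * (d + u) < Fintype.card X) :
    ∃ B₁ ∈ 𝓑, ∃ B₂ ∈ 𝓑, ∃ C : Finset X, ∃ z : X, (B₁ ∩ B₂).card + 1 = d + 2 * u ∧
      C ⊆ B₁ ∧ C ⊆ B₂ ∧ C.card = d + u ∧ z ∈ B₁ ∧ z ∈ B₂ ∧ z ∉ C := by
  have hk : 2 * (d + u) = d + 2 * u + d := by ring
  obtain ⟨B₁, hB₁, B₂, hB₂, hM⟩ := h.exists_pair hk hn (by omega)
  obtain ⟨C, hC, hCc⟩ := exists_subset_card_eq (s := B₁ ∩ B₂) (n := d + u) (by omega)
  obtain ⟨z, hz⟩ : ((B₁ ∩ B₂) \ C).Nonempty := by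
    rw [← card_pos, card_sdiff_of_subset hC]; omega
  simp only [mem_sdiff, mem_inter] at hz
  exact ⟨B₁, hB₁, B₂, hB₂, C, z, hM, hC.trans inter_subset_left, hC.trans inter_subset_right, hCc,
    hz.1.1, hz.1.2, hz.2⟩

lemma block_bounds {d u : ℕ} {𝓑 : Finset (Finset X)} (h : St (d + 2 * u) (2 * (d + u)) 𝓑)
    (hs : Sdp (d + u) 𝓑) (hd : 1 ≤ d) (hu : 2 ≤ u) (hud : u ≤ d + 1)
    (hn : 2 * (d + u) < Fintype.card X) :
    Lm X (d + 2 * u) (2 * (d + u)) 1 ≤ 3 * d + u ∧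
    (3 ≤ u → ∀ w : ℕ, 3 * d + u ≤ w → w + (d + 2 * u - 3) ≤ Fintype.card X →
      psi (Lm X (d + 2 * u) (2 * (d + u)) 1) (Lm X (d + 2 * u) (2 * (d + u)) 2)
        (Lm X (d + 2 * u) (2 * (d + u)) 3) w ≤ 0) := by
  have hk : 2 * (d + u) = d + 2 * u + d := by ring
  have h' : St (d + u + u) (2 * (d + u)) 𝓑 := by rwa [show d + u + u = d + 2 * u by ring]
  have htits := h.tits hk hn (by omega)
  obtain ⟨B₁, hB₁, B₂, hB₂, C, z, hM, hC₁, hC₂, hCc, hz₁, hz₂, hzC⟩ := exists_config h hu hn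
  have hc₁ := h.card _ hB₁
  have hc₂ := h.card _ hB₂
  have hP : (B₂ \ B₁).card = d + 1 := by rw [card_sdiff]; omega
  obtain ⟨U, hU, hUc⟩ := exists_subset_card_eq (s := B₂ \ B₁) (n := u) (by omega)
  obtain ⟨F, hF, hF'⟩ := h.ex ((B₁ \ C) ∪ U) (by
    rw [card_union_of_disjoint, card_sdiff_of_subset hC₁]
    · omega
    · exact disjoint_of_subset_left sdiff_subset (disjoint_of_subset_right hU disjoint_sdiff))
  have hAF : B₁ \ C ⊆ F := subset_union_left.trans hF'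
  have hUF : u ≤ (F ∩ (B₂ \ B₁)).card :=
    hUc ▸ card_le_card (subset_inter (subset_union_right.trans hF') hU)
  have hFC := path_one h' hs hB₁ hB₂ hC₁ hC₂ hCc hz₁ hz₂ hzC hF hAF hUF
  have hout := card_out (B₂ := B₂) hc₁ (h.card _ hF) hC₁ hCc hAF hFC
  have hZ : (B₁ ∪ B₂ ∪ F).card ≤ 4 * d + 2 * u := by
    have e1 : B₁ ∪ B₂ ∪ F = B₁ ∪ (B₂ \ B₁) ∪ (F \ (B₁ ∪ B₂)) := by
      ext x; simp only [mem_union, mem_sdiff]; tauto
    rw [e1]
    have h1 := card_union_le (B₁ ∪ (B₂ \ B₁)) (F \ (B₁ ∪ B₂))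
    have h2 := card_union_le B₁ (B₂ \ B₁)
    omega
  have hCZ : C ⊆ B₁ ∪ B₂ ∪ F := hC₁.trans (subset_union_left.trans subset_union_left)
  have hW : ((B₁ ∪ B₂ ∪ F) \ C).card ≤ 3 * d + u := by rw [card_sdiff_of_subset hCZ]; omega
  have hroom : 4 * d + 3 * u ≤ Fintype.card X := by nlinarith
  have hdisj : ∀ V : Finset X, Disjoint V (B₁ ∪ B₂ ∪ F) →
      Disjoint (C ∪ V) ((B₁ ∪ B₂ ∪ F) \ C) := fun V hV =>
    disjoint_union_left.mpr ⟨disjoint_sdiff, disjoint_of_subset_right sdiff_subset hV⟩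
  have hCV : ∀ V : Finset X, Disjoint V (B₁ ∪ B₂ ∪ F) → (C ∪ V).card = d + u + V.card := by
    intro V hV
    rw [card_union_of_disjoint (disjoint_of_subset_left hCZ hV.symm), hCc]
  constructor
  · obtain ⟨V, hVc, hV⟩ := exists_avoid (B₁ ∪ B₂ ∪ F) (u - 1) (by omega)
    refine le_trans (h.blocking (by omega) (C ∪ V) _ (by rw [hCV V hV]; omega) (hdisj V hV) ?_) hW
    exact blocking_W h' hs hB₁ hB₂ hC₁ hC₂ hCc hz₁ hz₂ hzC hF hAF hUF V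
  · intro hu3 w hw hwn
    obtain ⟨V, hVc, hV⟩ := exists_avoid (B₁ ∪ B₂ ∪ F) (u - 3) (by omega)
    have h1 := h.cubic (by omega) (C ∪ V) _ (by rw [hCV V hV]; omega) (hdisj V hV) w (by omega)
      (by rw [hCV V hV]; omega)
    rw [filter_eq_empty_iff.mpr
      (blocking_W h' hs hB₁ hB₂ hC₁ hC₂ hCc hz₁ hz₂ hzC hF hAF hUF V)] at h1
    simpa using h1

lemma big_ineq {d u : ℕ} {𝓑 : Finset (Finset X)} (h : St (d + 2 * u) (2 * (d + u)) 𝓑)
    (hs : Sdp (d + u) 𝓑) (hd : 1 ≤ d) (hu : 3 ≤ u) (hud : u ≤ d + 1)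
    (hn : 2 * (d + u) < Fintype.card X) {a q : ℕ} (hq : q + u = d + 3)
    (ha : Lm X (d + 2 * u) (2 * (d + u)) 1 = d + 4 + a) :
    (psi (Lm X (d + 2 * u) (2 * (d + u)) 1) (Lm X (d + 2 * u) (2 * (d + u)) 2)
        (Lm X (d + 2 * u) (2 * (d + u)) 3) (2 * (d + u) - 1 : ℕ) : ℝ) * q * (a * (d + 1)) ^ 2
      ≤ 12 * Lm X (d + 2 * u) (2 * (d + u)) 2 * (d + 1 + q)
        * ((d + 4 + a) * (d + 1) + 2) ^ 2 := by
  have hk : 2 * (d + u) = d + 2 * u + d := by ring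
  have h' : St (d + u + u) (2 * (d + u)) 𝓑 := by rwa [show d + u + u = d + 2 * u by ring]
  have htits := h.tits hk hn (by omega)
  have hN := h.Lm_one hk hn (by omega)
  have hroom : 3 * d + 4 * u ≤ Fintype.card X := by nlinarith
  have hroom2 : 3 * d + 2 * u + 1 + q * (d - 1) + (u - 3) ≤ Fintype.card X := by
    obtain ⟨e, rfl⟩ : ∃ e, d = e + 1 := ⟨d - 1, by omega⟩
    obtain ⟨v, rfl⟩ : ∃ v, u = v + 3 := ⟨u - 3, by omega⟩
    simp only [Nat.add_sub_cancel]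
    have h3 : q ≤ e + 1 := by omega
    have h4 : q * e ≤ (e + 1) * e := Nat.mul_le_mul_right _ h3
    nlinarith
  obtain ⟨B₁, hB₁, B₂, hB₂, C, z, hM, hC₁, hC₂, hCc, hz₁, hz₂, hzC⟩ := exists_config h (by omega) hn
  have hc₁ := h.card _ hB₁
  have hc₂ := h.card _ hB₂
  have hP : (B₂ \ B₁).card = d + 1 := by rw [card_sdiff]; omega
  have hA : (B₁ \ C).card = d + u := by rw [card_sdiff_of_subset hC₁]; omega
  have hB12 : (B₁ ∪ B₂).card = 3 * d + 2 * u + 1 := by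
    have := card_union_add_card_inter B₁ B₂
    omega
  have hRHS : (0 : ℝ) ≤ 12 * Lm X (d + 2 * u) (2 * (d + u)) 2 * (d + 1 + q)
        * ((d + 4 + a) * (d + 1) + 2) ^ 2 := by positivity
  by_cases hcol : ∃ F ∈ 𝓑, B₁ \ C ⊆ F ∧ B₂ \ B₁ ⊆ F
  · obtain ⟨F, hF, hAF, hPF⟩ := hcol
    have hUF : u ≤ (F ∩ (B₂ \ B₁)).card := by rw [inter_eq_right.mpr hPF]; omega
    have hFC := path_one h' hs hB₁ hB₂ hC₁ hC₂ hCc hz₁ hz₂ hzC hF hAF hUF
    have hFc := h.card _ hF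
    have e1 : (B₁ ∪ B₂ ∪ F) \ C = F \ C := by
      ext x
      simp only [mem_union, mem_sdiff]
      constructor
      · rintro ⟨(h1 | h1) | h1, h2⟩
        · exact ⟨hAF (mem_sdiff.mpr ⟨h1, h2⟩), h2⟩
        · by_cases h3 : x ∈ B₁
          · exact ⟨hAF (mem_sdiff.mpr ⟨h3, h2⟩), h2⟩
          · exact ⟨hPF (mem_sdiff.mpr ⟨h1, h3⟩), h2⟩
        · exact ⟨h1, h2⟩
      · tauto
    have hW : (F \ C).card ≤ 2 * (d + u) - 1 := by
      rw [card_sdiff, inter_comm]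
      have := card_pos.mpr hFC
      omega
    obtain ⟨V, hVc, hV⟩ := exists_avoid (C ∪ F) (u - 3) (by
      have := card_union_le C F
      omega)
    have hCV : (C ∪ V).card = d + u + (u - 3) := by
      rw [card_union_of_disjoint (disjoint_of_subset_left subset_union_left hV.symm), hCc, hVc]
    have h1 := h.cubic (by omega) (C ∪ V) (F \ C) (by omega)
      (disjoint_union_left.mpr ⟨disjoint_sdiff,
        disjoint_of_subset_right (sdiff_subset.trans subset_union_right) hV⟩) _ hW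
      (by omega)
    have h2 := blocking_W h' hs hB₁ hB₂ hC₁ hC₂ hCc hz₁ hz₂ hzC hF hAF hUF V
    rw [e1] at h2
    rw [filter_eq_empty_iff.mpr h2] at h1
    simp only [card_empty, CharP.cast_eq_zero, mul_zero] at h1
    have h3 : (psi (Lm X (d + 2 * u) (2 * (d + u)) 1) (Lm X (d + 2 * u) (2 * (d + u)) 2)
        (Lm X (d + 2 * u) (2 * (d + u)) 3) (2 * (d + u) - 1 : ℕ) : ℝ) ≤ 0 := by exact_mod_cast h1
    refine le_trans ?_ hRHS
    exact mul_nonpos_of_nonpos_of_nonneg (mul_nonpos_of_nonpos_of_nonneg h3 (by positivity))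
      (by positivity)
  push Not at hcol
  obtain ⟨U₁, hU₁, hU₁c⟩ := exists_subset_card_eq (s := B₂ \ B₁) (n := u - 2) (by omega)
  have hAP : Disjoint (B₁ \ C) (B₂ \ B₁) := disjoint_of_subset_left sdiff_subset disjoint_sdiff
  have hS₁ : ((B₁ \ C) ∪ U₁).card + 2 = d + 2 * u := by
    rw [card_union_of_disjoint (disjoint_of_subset_right hU₁ hAP)]; omega
  have hE : ((B₂ \ B₁) \ U₁).card = q := by rw [card_sdiff_of_subset hU₁]; omega
  have hdbe := h.de_bruijn_erdos ((B₁ \ C) ∪ U₁) ((B₂ \ B₁) \ U₁) hS₁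
    (disjoint_union_left.mpr ⟨disjoint_of_subset_right sdiff_subset hAP, disjoint_sdiff⟩)
    (by omega) (by
      intro F hF hEF
      rw [mem_thr] at hF
      refine hcol F hF.1 (subset_union_left.trans hF.2) ?_
      intro x hx
      by_cases hxU : x ∈ U₁
      · exact hF.2 (mem_union_right _ hxU)
      · exact hEF (mem_sdiff.mpr ⟨hx, hxU⟩))
  rw [hE] at hdbe
  obtain ⟨𝓕, h𝓕, h𝓕c⟩ := exists_subset_card_eq hdbe
  have hFacts : ∀ F ∈ 𝓕, F ∈ 𝓑 ∧ (B₁ \ C) ∪ U₁ ⊆ F ∧ u ≤ (F ∩ (B₂ \ B₁)).card := by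
    intro F hF
    have h1 := h𝓕 hF
    simp only [mem_filter, mem_thr] at h1
    refine ⟨h1.1.1, h1.1.2, ?_⟩
    have h2 : U₁ ∪ F ∩ ((B₂ \ B₁) \ U₁) ⊆ F ∩ (B₂ \ B₁) :=
      union_subset (subset_inter (subset_union_right.trans h1.1.2) hU₁)
        (inter_subset_inter_left sdiff_subset)
    have h3 := card_le_card h2
    rw [card_union_of_disjoint (disjoint_of_subset_right inter_subset_right disjoint_sdiff)] at h3
    omega
  have hout : ∀ F ∈ 𝓕, (F \ (B₁ ∪ B₂)).card ≤ d - 1 := by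
    intro F hF
    obtain ⟨h1, h2, h3⟩ := hFacts F hF
    have hAF : B₁ \ C ⊆ F := subset_union_left.trans h2
    have hFC := path_one h' hs hB₁ hB₂ hC₁ hC₂ hCc hz₁ hz₂ hzC h1 hAF h3
    have := card_out (B₂ := B₂) hc₁ (h.card _ h1) hC₁ hCc hAF hFC
    omega
  obtain ⟨V, hVc, hV⟩ := exists_avoid ((B₁ ∪ B₂) ∪ 𝓕.biUnion (fun F => F \ (B₁ ∪ B₂))) (u - 3) (by
    have h1 := card_union_le (B₁ ∪ B₂) (𝓕.biUnion (fun F => F \ (B₁ ∪ B₂)))
    have h2 : (𝓕.biUnion (fun F => F \ (B₁ ∪ B₂))).card ≤ q * (d - 1) := by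
      refine card_biUnion_le.trans ?_
      rw [← h𝓕c, ← smul_eq_mul, ← sum_const]
      exact sum_le_sum hout
    omega)
  have hV12 : Disjoint V (B₁ ∪ B₂) := disjoint_of_subset_right subset_union_left hV
  have hVF : ∀ F ∈ 𝓕, ∀ x ∈ V, x ∉ F := by
    intro F hF x hx hxF
    apply disjoint_left.mp hV hx
    rw [mem_union, mem_biUnion]
    by_cases h1 : x ∈ B₁ ∪ B₂
    · exact Or.inl h1
    · exact Or.inr ⟨F, hF, mem_sdiff.mpr ⟨hxF, h1⟩⟩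
  have hV1 : ∀ x ∈ V, x ∉ B₁ := fun x hx h1 => disjoint_left.mp hV12 hx (mem_union_left _ h1)
  have hCV : (C ∪ V).card + 3 = d + 2 * u := by
    rw [card_union_of_disjoint (disjoint_right.mpr fun x hx h1 => hV1 x hx (hC₁ h1))]; omega
  have hAV : ((B₁ \ C) ∪ V).card + 3 = d + 2 * u := by
    rw [card_union_of_disjoint (disjoint_right.mpr fun x hx h1 => hV1 x hx (mem_sdiff.mp h1).1)]
    omega
  have hcub := h.cubic (by omega) (C ∪ V) ((B₁ ∪ B₂) \ C) hCV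
    (disjoint_union_left.mpr ⟨disjoint_sdiff, disjoint_of_subset_right sdiff_subset hV12⟩)
    (2 * (d + u) - 1) (by rw [card_sdiff_of_subset (hC₁.trans subset_union_left)]; omega)
    (by omega)
  set 𝓖 := (thr 𝓑 (C ∪ V)).filter (fun H => Disjoint H ((B₁ ∪ B₂) \ C)) with h𝓖
  have hG : ∀ H ∈ 𝓖, H ∈ 𝓑 ∧ C ⊆ H ∧ V ⊆ H ∧ (∀ x ∈ H, x ∈ B₁ → x ∈ C) ∧
      (∀ x ∈ H, x ∈ B₂ → x ∈ C) := by
    intro H hH
    simp only [h𝓖, mem_filter, mem_thr] at hH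
    refine ⟨hH.1.1, subset_union_left.trans hH.1.2, subset_union_right.trans hH.1.2, ?_, ?_⟩
    · intro x hx h1
      by_contra hc
      exact disjoint_left.mp hH.2 hx (mem_sdiff.mpr ⟨mem_union_left _ h1, hc⟩)
    · intro x hx h1
      by_contra hc
      exact disjoint_left.mp hH.2 hx (mem_sdiff.mpr ⟨mem_union_right _ h1, hc⟩)
  set 𝓖' := 𝓖.image (fun H => symmDiff H B₁) with h𝓖'
  have hG'c : 𝓖'.card = 𝓖.card :=
    card_image_of_injective _ (symmDiff_left_injective B₁)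
  set S' := (B₁ \ C) ∪ V with hS'
  have hsub : 𝓖' ⊆ thr 𝓑 S' := by
    intro G hG'
    obtain ⟨H, hH, rfl⟩ := mem_image.mp hG'
    obtain ⟨g1, g2, g3, g4, g5⟩ := hG H hH
    have e1 : H ∩ B₁ = C := by
      ext x
      simp only [mem_inter]
      exact ⟨fun hx => g4 x hx.1 hx.2, fun hx => ⟨g2 hx, hC₁ hx⟩⟩
    rw [mem_thr]
    refine ⟨hs H g1 B₁ hB₁ (by rw [e1, hCc]), union_subset ?_ ?_⟩
    · intro x hx
      rw [mem_sdiff] at hx
      exact mem_symmDiff.mpr (Or.inr ⟨hx.1, fun h1 => hx.2 (g4 x h1 hx.1)⟩)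
    · intro x hx
      exact mem_symmDiff.mpr (Or.inl ⟨g3 hx, hV1 x hx⟩)
  let ℓ : Finset X → Finset X := fun F => F \ ((B₁ \ C) ∪ U₁)
  let f : X → ℝ := fun x => ∑ F ∈ 𝓕, (if x ∈ ℓ F then (1 : ℝ) else 0)
  have hℓc : ∀ F ∈ 𝓕, (ℓ F).card = d + 2 := by
    intro F hF
    obtain ⟨h1, h2, h3⟩ := hFacts F hF
    simp only [ℓ]
    rw [card_sdiff_of_subset h2, h.card _ h1]; omega
  have hℓS : ∀ F ∈ 𝓕, ℓ F ⊆ S'ᶜ := by
    intro F hF x hx
    simp only [ℓ, mem_sdiff, mem_union] at hx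
    simp only [hS', mem_compl, mem_union, mem_sdiff]
    rintro (h1 | h1)
    · exact hx.2 (Or.inl h1)
    · exact hVF F hF x h1 hx.1
  have hsum : ∑ x ∈ S'ᶜ, f x = q * (d + 2) := by
    rw [sum_deg, sum_congr rfl (g := fun _ => ((d + 2 : ℕ) : ℝ)) (fun F hF => by
      rw [inter_eq_right.mpr (hℓS F hF), hℓc F hF]), sum_const, h𝓕c, nsmul_eq_mul]
    push_cast; ring
  have hsq : ∑ x ∈ S'ᶜ, f x ^ 2 ≤ q * (d + 1 + q) := by
    rw [sum_deg_sq]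
    have h1 : ∀ F ∈ 𝓕, ∑ F' ∈ 𝓕, ((S'ᶜ ∩ (ℓ F ∩ ℓ F')).card : ℝ) ≤ d + 1 + q := by
      intro F hF
      have h2 : ∀ F' ∈ 𝓕, ((S'ᶜ ∩ (ℓ F ∩ ℓ F')).card : ℝ)
          ≤ 1 + if F' = F then ((d : ℝ) + 1) else 0 := by
        intro F' hF'
        have h3 : (S'ᶜ ∩ (ℓ F ∩ ℓ F')).card ≤ (ℓ F ∩ ℓ F').card := card_le_card inter_subset_right
        by_cases hFF : F' = F
        · rw [if_pos hFF]
          rw [hFF, inter_self, hℓc F hF] at h3
          rw [hFF, inter_self]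
          have : ((S'ᶜ ∩ ℓ F).card : ℝ) ≤ ((d + 2 : ℕ) : ℝ) := by exact_mod_cast h3
          push_cast at this
          linarith
        · rw [if_neg hFF, add_zero]
          obtain ⟨a1, a2, -⟩ := hFacts F hF
          obtain ⟨b1, b2, -⟩ := hFacts F' hF'
          have h4 := h.inter_lt a1 b1 (Ne.symm hFF)
          have h5 : ((B₁ \ C) ∪ U₁) ∪ (ℓ F ∩ ℓ F') ⊆ F ∩ F' :=
            union_subset (subset_inter a2 b2) (inter_subset_inter sdiff_subset sdiff_subset)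
          have h6 := card_le_card h5
          have h7 : Disjoint ((B₁ \ C) ∪ U₁) (ℓ F ∩ ℓ F') :=
            disjoint_of_subset_right inter_subset_left disjoint_sdiff
          rw [card_union_of_disjoint h7] at h6
          have : (S'ᶜ ∩ (ℓ F ∩ ℓ F')).card ≤ 1 := by omega
          exact_mod_cast this
      refine (sum_le_sum h2).trans (le_of_eq ?_)
      rw [sum_add_distrib, sum_ite_eq' 𝓕 F, if_pos hF, sum_const, h𝓕c]
      simp only [nsmul_eq_mul, mul_one]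
      ring
    refine (sum_le_sum h1).trans (le_of_eq ?_)
    rw [sum_const, h𝓕c, nsmul_eq_mul]
  have hc : ∀ G ∈ 𝓖', (q : ℝ) ≤ ∑ x ∈ G \ S', f x := by
    intro G hG'
    obtain ⟨H, hH, rfl⟩ := mem_image.mp hG'
    obtain ⟨g1, g2, g3, g4, g5⟩ := hG H hH
    rw [sum_deg, ← h𝓕c, card_eq_sum_ones, Nat.cast_sum]
    refine sum_le_sum fun F hF => ?_
    obtain ⟨a1, a2, a3⟩ := hFacts F hF
    obtain ⟨x, hx, hxF, hx₁, hx₂⟩ := path_two h' hs hB₁ hB₂ hC₁ hC₂ hCc hz₁ hz₂ hzC a1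
      (subset_union_left.trans a2) a3 g1 g2 g4 g5
    have hxℓ : x ∈ ℓ F := by
      simp only [ℓ, mem_sdiff, mem_union]
      refine ⟨hxF, ?_⟩
      rintro (h1 | h1)
      · exact hx₁ h1.1
      · exact hx₂ (mem_sdiff.mp (hU₁ h1)).1
    have : 0 < ((symmDiff H B₁ \ S') ∩ ℓ F).card := card_pos.mpr ⟨x, mem_inter.mpr
      ⟨mem_sdiff.mpr ⟨mem_symmDiff.mpr (Or.inl ⟨hx, hx₁⟩), mem_compl.mp (hℓS F hF hxℓ)⟩, hxℓ⟩⟩
    exact_mod_cast this
  set M : ℝ := (d + 4 + a) * (d + 1) + 2 with hM'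
  have hMpos : 0 < M := by positivity
  have hnS : ((Fintype.card X - S'.card : ℕ) : ℝ) = M := by
    have : Fintype.card X - S'.card = (d + 4 + a) * (d + 1) + 2 := by rw [← ha]; omega
    rw [this]; push_cast; ring
  have hkS : ((2 * (d + u) - S'.card : ℕ) : ℝ) = d + 3 := by
    have : 2 * (d + u) - S'.card = d + 3 := by omega
    rw [this]; push_cast; ring
  have hθ := sum_centered S' (by omega) f
  rw [hsum, hnS] at hθ
  have hval : (q : ℝ) - ((2 * (d + u) - S'.card : ℕ) : ℝ) * (q * (d + 2) / M)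
      = q * (a * (d + 1)) / M := by
    rw [hkS]
    field_simp
    rw [hM']
    ring
  have hsm := h.second_moment (by omega) S' (by omega) 𝓖' hsub f _ q hθ hc (by
    rw [hval]; positivity)
  rw [hval, hG'c] at hsm
  have e1 : lam (Fintype.card X) (d + 2 * u) (2 * (d + u)) (S'.card + 1)
      = Lm X (d + 2 * u) (2 * (d + u)) 2 := by
    rw [Lm]; congr 1; omega
  rw [e1] at hsm
  have hvar : ∑ x ∈ S'ᶜ, (f x - q * (d + 2) / M) ^ 2 ≤ (q : ℝ) * (d + 1 + q) := by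
    refine le_trans ?_ hsq
    set θ : ℝ := q * (d + 2) / M
    have h1 : ∑ x ∈ S'ᶜ, f x ^ 2 = ∑ x ∈ S'ᶜ, (f x - θ) ^ 2 + 2 * θ * ∑ x ∈ S'ᶜ, (f x - θ)
        + ∑ x ∈ S'ᶜ, θ ^ 2 := by
      rw [mul_sum, ← sum_add_distrib, ← sum_add_distrib]
      exact sum_congr rfl fun x _ => by ring
    rw [h1, hθ]
    have : 0 ≤ ∑ x ∈ S'ᶜ, θ ^ 2 := sum_nonneg fun _ _ => sq_nonneg _
    linarith
  have hvar0 : 0 ≤ ∑ x ∈ S'ᶜ, (f x - q * (d + 2) / M) ^ 2 := sum_nonneg fun _ _ => sq_nonneg _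
  set l₂ : ℝ := (Lm X (d + 2 * u) (2 * (d + u)) 2 : ℝ)
  have hl₂ : 0 ≤ l₂ := Nat.cast_nonneg _
  have h1 : (𝓖.card : ℝ) * (q * (a * (d + 1)) / M) ^ 2 ≤ l₂ * (q * (d + 1 + q)) := by
    refine hsm.trans ?_
    have h2 : (0 : ℝ) ≤ lam (Fintype.card X) (d + 2 * u) (2 * (d + u)) (S'.card + 2) :=
      Nat.cast_nonneg _
    exact (mul_le_mul_of_nonneg_right (sub_le_self _ h2) hvar0).trans
      (mul_le_mul_of_nonneg_left hvar hl₂)
  have hq0 : (0 : ℝ) < q := by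
    have : 0 < q := by omega
    exact_mod_cast this
  have h2 : (𝓖.card : ℝ) * q * (a * (d + 1)) ^ 2 ≤ l₂ * (d + 1 + q) * M ^ 2 := by
    rw [div_pow, ← mul_div_assoc, div_le_iff₀ (by positivity)] at h1
    have : q * ((𝓖.card : ℝ) * q * (a * (d + 1)) ^ 2) ≤ q * (l₂ * (d + 1 + q) * M ^ 2) := by
      calc q * ((𝓖.card : ℝ) * q * (a * (d + 1)) ^ 2)
          = (𝓖.card : ℝ) * (q * (a * (d + 1))) ^ 2 := by ring
        _ ≤ _ := h1
        _ = _ := by ring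
    exact le_of_mul_le_mul_left this hq0
  have h3 : (psi (Lm X (d + 2 * u) (2 * (d + u)) 1) (Lm X (d + 2 * u) (2 * (d + u)) 2)
        (Lm X (d + 2 * u) (2 * (d + u)) 3) (2 * (d + u) - 1 : ℕ) : ℝ) ≤ 12 * (𝓖.card : ℝ) := by
    exact_mod_cast hcub
  have h4 : (0 : ℝ) ≤ q * (a * (d + 1)) ^ 2 := by positivity
  calc _ = (psi (Lm X (d + 2 * u) (2 * (d + u)) 1) (Lm X (d + 2 * u) (2 * (d + u)) 2)
        (Lm X (d + 2 * u) (2 * (d + u)) 3) (2 * (d + u) - 1 : ℕ) : ℝ)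
          * (q * (a * (d + 1)) ^ 2) := by ring
    _ ≤ 12 * (𝓖.card : ℝ) * (q * (a * (d + 1)) ^ 2) := mul_le_mul_of_nonneg_right h3 h4
    _ = 12 * ((𝓖.card : ℝ) * q * (a * (d + 1)) ^ 2) := by ring
    _ ≤ 12 * (l₂ * (d + 1 + q) * M ^ 2) := by linarith
    _ = _ := by ring

end Pool.Agent.MP_3e18ff_co.H58
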