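import Mathlib

/-! Finite checks of the divisibility conditions: the checkers and their soundness. -/

namespace Pool.Agent.MP_3e18ff_co.H58

def depthOk (D N : ℕ) : ℕ → ℕ → ℕ → Bool
  | 0, _, _ => true
  | f + 1, j, L => ((N + j) * L) % (D + j) == 0 && depthOk D N f (j + 1) ((N + j) * L / (D + j))

def good (D r : ℕ) : Bool :=
  !depthOk D (r * D) (D + 3) 0 1 || (D == 2 && r == 4) || (D == 3 && r == 8) ||
    (D == 4 && r == 10) || (D == 7 && r == 9) || (D == 10 && r == 22)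

def inner (m : ℕ) (n : ℕ) : Bool :=
  Nat.rec true (fun a b => Bool.rec true (good (Nat.pred m) (Nat.add m (Nat.succ a)))
    (Nat.beq (Nat.mod (Nat.mul a (Nat.succ a)) m) 0) && b) n

def outer (lo len : ℕ) : Bool :=
  Nat.rec true (fun i b => inner (Nat.add lo i) (Nat.div (Nat.sub (Nat.mul 5 (Nat.add lo i)) 11) 2) && b) len

lemma depthOk_of (D N : ℕ) (hD : 1 ≤ D) (L : ℕ → ℕ) (f : ℕ) : ∀ j,
    (∀ i, i < j + f → L (i + 1) * (D + i) = (N + i) * L i) → depthOk D N f j (L j) = true := by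
  induction f with
  | zero => intro j _; rfl
  | succ f ih =>
    intro j hL
    have h1 := hL j (by omega)
    simp only [depthOk, Bool.and_eq_true, beq_iff_eq]
    rw [← h1, Nat.mul_mod_left, Nat.mul_div_cancel _ (by omega)]
    exact ⟨rfl, ih (j + 1) (fun i hi => hL i (by omega))⟩

lemma inner_spec (m n : ℕ) (h : inner m n = true) (a : ℕ) (ha : a < n)
    (hm : (a * (a + 1)) % m = 0) : good (m - 1) (m + (a + 1)) = true := by
  induction n with
  | zero => omega
  | succ n ih =>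
    have h' : (Bool.rec true (good (Nat.pred m) (Nat.add m (Nat.succ n)))
      (Nat.beq (Nat.mod (Nat.mul n (Nat.succ n)) m) 0) && inner m n) = true := h
    rw [Bool.and_eq_true] at h'
    rcases Nat.lt_succ_iff_lt_or_eq.mp ha with h1 | h1
    · exact ih h'.2 h1
    · subst h1
      have h2 : Nat.beq (Nat.mod (Nat.mul a (Nat.succ a)) m) 0 = true := Nat.beq_eq ▸ hm
      rw [h2] at h'
      exact h'.1

lemma outer_spec (lo len : ℕ) (h : outer lo len = true) (m : ℕ) (h1 : lo ≤ m) (h2 : m < lo + len) :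
    inner m ((5 * m - 11) / 2) = true := by
  induction len with
  | zero => omega
  | succ n ih =>
    have h' : (inner (Nat.add lo n) (Nat.div (Nat.sub (Nat.mul 5 (Nat.add lo n)) 11) 2) &&
      outer lo n) = true := h
    rw [Bool.and_eq_true] at h'
    by_cases h3 : m < lo + n
    · exact ih h'.2 h3
    · have : m = lo + n := by omega
      subst this
      exact h'.1

def fin3 (κ κ' c : ℕ) : Bool :=
  (fun A => (fun D => Nat.ble D 1000 ||
      ((D + 1 + A) * ((D + 1 + A) * D + 1) * ((D + 1 + A) * D + 2) * ((D + 1 + A) * D + 3))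
        % (D + 3) != 0) (A * (A - 1) / c - 1)) ((14 * c * c - 12 * c + κ * c) / κ')

def loopJ (κ κ' e B G c₀ n : ℕ) : Bool :=
  Nat.rec true (fun j b => Bool.rec true (fin3 κ κ' (Nat.add c₀ j))
    (Nat.beq (Nat.mul (Nat.add c₀ j) (Nat.sub (Nat.mul e (Nat.add c₀ j)) B)) G) && b) n

def loopK' (κ n : ℕ) : Bool :=
  Nat.rec true (fun κ' b => Bool.rec
    (loopJ κ κ' (Nat.sub (Nat.mul 4 κ') (Nat.mul 14 κ))
      (Nat.add (Nat.mul 12 (Nat.sub κ' κ)) (Nat.mul κ κ)) (Nat.mul κ' (Nat.sub κ' κ))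
      (Nat.div (Nat.add (Nat.mul 12 (Nat.sub κ' κ)) (Nat.mul κ κ))
        (Nat.sub (Nat.mul 4 κ') (Nat.mul 14 κ))) 28) true
    (Nat.ble (Nat.mul 4 κ') (Nat.mul 14 κ)) && b) n

def loopK (n : ℕ) : Bool := Nat.rec true (fun κ b => loopK' κ 306 && b) n

lemma loopJ_spec (κ κ' e B G c₀ n : ℕ) (h : loopJ κ κ' e B G c₀ n = true) (j : ℕ) (hj : j < n)
    (hm : (c₀ + j) * (e * (c₀ + j) - B) = G) : fin3 κ κ' (c₀ + j) = true := by
  induction n with
  | zero => omega
  | succ n ih =>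
    have h' : (Bool.rec true (fin3 κ κ' (Nat.add c₀ n))
      (Nat.beq (Nat.mul (Nat.add c₀ n) (Nat.sub (Nat.mul e (Nat.add c₀ n)) B)) G) &&
        loopJ κ κ' e B G c₀ n) = true := h
    rw [Bool.and_eq_true] at h'
    rcases Nat.lt_succ_iff_lt_or_eq.mp hj with h1 | h1
    · exact ih h'.2 h1
    · subst h1
      have h2 : Nat.beq (Nat.mul (Nat.add c₀ j) (Nat.sub (Nat.mul e (Nat.add c₀ j)) B)) G = true :=
        Nat.beq_eq ▸ hm
      rw [h2] at h'
      exact h'.1

lemma loopK'_spec (κ n : ℕ) (h : loopK' κ n = true) (κ' : ℕ) (hk : κ' < n)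
    (he : 14 * κ < 4 * κ') :
    loopJ κ κ' (4 * κ' - 14 * κ) (12 * (κ' - κ) + κ * κ) (κ' * (κ' - κ))
      ((12 * (κ' - κ) + κ * κ) / (4 * κ' - 14 * κ)) 28 = true := by
  induction n with
  | zero => omega
  | succ n ih =>
    have h' : (Bool.rec
      (loopJ κ n (Nat.sub (Nat.mul 4 n) (Nat.mul 14 κ))
        (Nat.add (Nat.mul 12 (Nat.sub n κ)) (Nat.mul κ κ)) (Nat.mul n (Nat.sub n κ))
        (Nat.div (Nat.add (Nat.mul 12 (Nat.sub n κ)) (Nat.mul κ κ))
          (Nat.sub (Nat.mul 4 n) (Nat.mul 14 κ))) 28) true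
      (Nat.ble (Nat.mul 4 n) (Nat.mul 14 κ)) && loopK' κ n) = true := h
    rw [Bool.and_eq_true] at h'
    rcases Nat.lt_succ_iff_lt_or_eq.mp hk with h1 | h1
    · exact ih h'.2 h1
    · subst h1
      have h2 : Nat.ble (Nat.mul 4 κ') (Nat.mul 14 κ) = false := by
        rw [← Bool.not_eq_true, Nat.ble_eq]
        exact not_le.mpr he
      rw [h2] at h'
      exact h'.1

lemma loopK_spec (n : ℕ) (h : loopK n = true) (κ : ℕ) (hk : κ < n) : loopK' κ 306 = true := by
  induction n with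
  | zero => omega
  | succ n ih =>
    have h' : (loopK' n 306 && loopK n) = true := h
    rw [Bool.and_eq_true] at h'
    rcases Nat.lt_succ_iff_lt_or_eq.mp hk with h1 | h1
    · exact ih h'.2 h1
    · subst h1
      exact h'.1

end Pool.Agent.MP_3e18ff_co.H58
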