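import Pool.Agent.MP_3e18ff_co.H58.Check

namespace Pool.Agent.MP_3e18ff_co.H58

theorem outer_1 : outer 3 397 = true := by decide +kernel
theorem outer_2 : outer 400 200 = true := by decide +kernel
theorem outer_3 : outer 600 120 = true := by decide +kernel

end Pool.Agent.MP_3e18ff_co.H58
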