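import Pool.Agent.MP_3e18ff_co.H58.Check

namespace Pool.Agent.MP_3e18ff_co.H58

theorem loopK_true : loopK 68 = true := by decide +kernel

end Pool.Agent.MP_3e18ff_co.H58
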