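import Mathlib

/-! Up and down operators on the subsets of a finite set. -/

namespace Pool.Agent.MP_3e18ff_co.H58

open Finset

variable {X : Type} [DecidableEq X]

def up (h : Finset X → ℝ) (K : Finset X) : ℝ := ∑ x ∈ K, h (K.erase x)

def dn (B : Finset X) (f : Finset X → ℝ) (J : Finset X) : ℝ := ∑ x ∈ B \ J, f (insert x J)

lemma up_dn_adj (B : Finset X) (w : ℕ) (h f : Finset X → ℝ) :
    ∑ K ∈ B.powersetCard (w + 1), up h K * f K = ∑ J ∈ B.powersetCard w, h J * dn B f J := by
  simp only [up, dn, sum_mul, mul_sum]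
  rw [sum_sigma', sum_sigma']
  refine sum_bij' (fun p _ => ⟨p.1.erase p.2, p.2⟩) (fun p _ => ⟨insert p.2 p.1, p.2⟩)
    ?_ ?_ ?_ ?_ ?_
  · rintro ⟨K, x⟩ hp
    simp only [mem_sigma, mem_powersetCard] at hp
    simp only [mem_sigma, mem_powersetCard, mem_sdiff, mem_erase]
    refine ⟨⟨(erase_subset _ _).trans hp.1.1, ?_⟩, hp.1.1 hp.2, by simp⟩
    rw [card_erase_of_mem hp.2, hp.1.2]; rfl
  · rintro ⟨J, x⟩ hp
    simp only [mem_sigma, mem_powersetCard, mem_sdiff] at hp
    simp only [mem_sigma, mem_powersetCard, mem_insert, true_or, and_true]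
    refine ⟨insert_subset hp.2.1 hp.1.1, ?_⟩
    rw [card_insert_of_notMem hp.2.2, hp.1.2]
  · rintro ⟨K, x⟩ hp
    simp only [mem_sigma, mem_powersetCard] at hp
    simp [insert_erase hp.2]
  · rintro ⟨J, x⟩ hp
    simp only [mem_sigma, mem_powersetCard, mem_sdiff] at hp
    simp [erase_insert hp.2.2]
  · rintro ⟨K, x⟩ hp
    simp only [mem_sigma, mem_powersetCard] at hp
    simp [insert_erase hp.2]

lemma dn_up_comm (B J : Finset X) (hJ : J ⊆ B) (h : Finset X → ℝ) :
    dn B (up h) J = up (dn B h) J + ((B.card : ℝ) - 2 * J.card) * h J := by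
  have h1 : dn B (up h) J
      = ((B \ J).card : ℝ) * h J + ∑ x ∈ B \ J, ∑ y ∈ J, h (insert x (J.erase y)) := by
    simp only [dn, up]
    rw [← nsmul_eq_mul, ← sum_const, ← sum_add_distrib]
    refine sum_congr rfl fun x hx => ?_
    have hxJ : x ∉ J := (mem_sdiff.mp hx).2
    rw [sum_insert hxJ, erase_insert hxJ]
    congr 1
    refine sum_congr rfl fun y hy => ?_
    rw [erase_insert_of_ne]
    rintro rfl
    exact hxJ hy
  have h2 : up (dn B h) J
      = (J.card : ℝ) * h J + ∑ y ∈ J, ∑ x ∈ B \ J, h (insert x (J.erase y)) := by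
    simp only [dn, up]
    rw [← nsmul_eq_mul, ← sum_const, ← sum_add_distrib]
    refine sum_congr rfl fun y hy => ?_
    have : B \ J.erase y = insert y (B \ J) := by
      ext z
      simp only [mem_sdiff, mem_erase, mem_insert]
      constructor
      · rintro ⟨hz, hz'⟩
        by_cases hzy : z = y
        · exact Or.inl hzy
        · exact Or.inr ⟨hz, fun hzJ => hz' ⟨hzy, hzJ⟩⟩
      · rintro (rfl | ⟨hz, hz'⟩)
        · exact ⟨hJ hy, fun h => h.1 rfl⟩
        · exact ⟨hz, fun h => hz' h.2⟩
    rw [this, sum_insert (by simp [hy]), insert_erase hy]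
  rw [h1, h2, sum_comm, card_sdiff_of_subset hJ, Nat.cast_sub (card_le_card hJ)]
  ring

lemma up_norm_ge (B : Finset X) (w : ℕ) (h : Finset X → ℝ) :
    ((B.card : ℝ) - 2 * w) * ∑ J ∈ B.powersetCard w, h J ^ 2
      ≤ ∑ J ∈ B.powersetCard w, h J * dn B (up h) J := by
  have h1 : ∑ J ∈ B.powersetCard w, h J * dn B (up h) J
      = ∑ J ∈ B.powersetCard w, up (dn B h) J * h J
        + ((B.card : ℝ) - 2 * w) * ∑ J ∈ B.powersetCard w, h J ^ 2 := by
    rw [mul_sum, ← sum_add_distrib]
    refine sum_congr rfl fun J hJ => ?_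
    rw [mem_powersetCard] at hJ
    rw [dn_up_comm B J hJ.1, hJ.2]
    ring
  have h2 : 0 ≤ ∑ J ∈ B.powersetCard w, up (dn B h) J * h J := by
    rcases w with _ | w
    · simp [up]
    · rw [up_dn_adj]
      exact sum_nonneg fun J _ => mul_self_nonneg _
  linarith

lemma up_congr (B : Finset X) (w : ℕ) (h h' : Finset X → ℝ)
    (hh : ∀ J ∈ B.powersetCard w, h J = h' J) (K : Finset X) (hK : K ∈ B.powersetCard (w + 1)) :
    up h K = up h' K := by
  rw [mem_powersetCard] at hK
  refine sum_congr rfl fun x hx => hh _ ?_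
  rw [mem_powersetCard]
  refine ⟨(erase_subset _ _).trans hK.1, ?_⟩
  rw [card_erase_of_mem hx, hK.2]; rfl

lemma dn_congr (B : Finset X) (w : ℕ) (f f' : Finset X → ℝ)
    (hf : ∀ K ∈ B.powersetCard (w + 1), f K = f' K) (J : Finset X) (hJ : J ∈ B.powersetCard w) :
    dn B f J = dn B f' J := by
  rw [mem_powersetCard] at hJ
  refine sum_congr rfl fun x hx => hf _ ?_
  rw [mem_powersetCard]
  rw [mem_sdiff] at hx
  refine ⟨insert_subset hx.1 hJ.1, ?_⟩
  rw [card_insert_of_notMem hx.2, hJ.2]

lemma exists_dn_up [Fintype X] (B : Finset X) (w : ℕ) (hw : 2 * w < B.card) (φ : Finset X → ℝ) :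
    ∃ h : Finset X → ℝ, ∀ J ∈ B.powersetCard w, dn B (up h) J = φ J := by
  let T : (Finset X → ℝ) →ₗ[ℝ] (Finset X → ℝ) :=
    { toFun := fun h J => if J ∈ B.powersetCard w then dn B (up h) J else h J
      map_add' := by
        intro a b
        funext J
        by_cases hJ : J ∈ B.powersetCard w <;>
          simp [-mem_powersetCard, hJ, dn, up, sum_add_distrib]
      map_smul' := by
        intro c a
        funext J
        by_cases hJ : J ∈ B.powersetCard w <;>
          simp [-mem_powersetCard, hJ, dn, up, mul_sum] }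
  have hinj : Function.Injective T := by
    rw [← LinearMap.ker_eq_bot, LinearMap.ker_eq_bot']
    intro h hT
    have hon : ∀ J ∈ B.powersetCard w, dn B (up h) J = 0 := by
      intro J hJ
      have := congrFun hT J
      simpa [-mem_powersetCard, T, hJ] using this
    have hoff : ∀ J, J ∉ B.powersetCard w → h J = 0 := by
      intro J hJ
      have := congrFun hT J
      simpa [-mem_powersetCard, T, hJ] using this
    have h1 := up_norm_ge B w h
    have h0 : ∑ J ∈ B.powersetCard w, h J * dn B (up h) J = 0 :=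
      sum_eq_zero fun J hJ => by rw [hon J hJ, mul_zero]
    rw [h0] at h1
    have hpos : (0 : ℝ) < (B.card : ℝ) - 2 * w := by
      have : ((2 * w : ℕ) : ℝ) < B.card := by exact_mod_cast hw
      push_cast at this
      linarith
    have h2 : ∑ J ∈ B.powersetCard w, h J ^ 2 = 0 := by
      have h3 : 0 ≤ ∑ J ∈ B.powersetCard w, h J ^ 2 := sum_nonneg fun J _ => sq_nonneg _
      nlinarith
    rw [sum_eq_zero_iff_of_nonneg (fun J _ => sq_nonneg _)] at h2
    funext J
    by_cases hJ : J ∈ B.powersetCard w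
    · exact pow_eq_zero_iff (two_ne_zero) |>.mp (h2 J hJ)
    · exact hoff J hJ
  have hsurj : Function.Surjective T := LinearMap.injective_iff_surjective.mp hinj
  obtain ⟨h, hh⟩ := hsurj φ
  refine ⟨h, fun J hJ => ?_⟩
  have := congrFun hh J
  simpa [-mem_powersetCard, T, hJ] using this

/-- A function orthogonal to all harmonic functions has a large image under `dn`. -/
lemma dn_norm_ge [Fintype X] (B : Finset X) (w : ℕ) (hw : 2 * w < B.card) (f : Finset X → ℝ)
    (hf : ∀ g : Finset X → ℝ, (∀ J ∈ B.powersetCard w, dn B g J = 0) →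
      ∑ K ∈ B.powersetCard (w + 1), g K * f K = 0) :
    ((B.card : ℝ) - 2 * w) * ∑ K ∈ B.powersetCard (w + 1), f K ^ 2
      ≤ ∑ J ∈ B.powersetCard w, dn B f J ^ 2 := by
  obtain ⟨h, hh⟩ := exists_dn_up B w hw (dn B f)
  have hg := hf (fun K => f K - up h K) (by
    intro J hJ
    have : dn B (fun K => f K - up h K) J = dn B f J - dn B (up h) J := by
      simp [dn, sum_sub_distrib]
    rw [this, hh J hJ, sub_self])
  set N := ∑ K ∈ B.powersetCard (w + 1), f K ^ 2 with hN
  have h1 : N = ∑ J ∈ B.powersetCard w, h J * dn B f J := by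
    rw [← up_dn_adj]
    have : ∑ K ∈ B.powersetCard (w + 1), (f K - up h K) * f K
        = N - ∑ K ∈ B.powersetCard (w + 1), up h K * f K := by
      rw [hN, ← sum_sub_distrib]
      exact sum_congr rfl fun K _ => by ring
    linarith
  have h2 : ((B.card : ℝ) - 2 * w) * ∑ J ∈ B.powersetCard w, h J ^ 2 ≤ N := by
    rw [h1]
    refine (up_norm_ge B w h).trans (le_of_eq ?_)
    exact sum_congr rfl fun J hJ => by rw [hh J hJ]
  have h3 : N ^ 2 ≤ (∑ J ∈ B.powersetCard w, h J ^ 2) * ∑ J ∈ B.powersetCard w, dn B f J ^ 2 := by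
    rw [h1]
    exact sum_mul_sq_le_sq_mul_sq _ _ _
  have hpos : (0 : ℝ) < (B.card : ℝ) - 2 * w := by
    have : ((2 * w : ℕ) : ℝ) < B.card := by exact_mod_cast hw
    push_cast at this
    linarith
  have hN0 : 0 ≤ N := sum_nonneg fun K _ => sq_nonneg _
  have hD0 : 0 ≤ ∑ J ∈ B.powersetCard w, dn B f J ^ 2 := sum_nonneg fun K _ => sq_nonneg _
  rcases hN0.eq_or_lt with h0 | h0
  · rw [← h0, mul_zero]; exact hD0
  · have h4 : ((B.card : ℝ) - 2 * w) * N ^ 2 ≤ N * ∑ J ∈ B.powersetCard w, dn B f J ^ 2 := by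
      calc ((B.card : ℝ) - 2 * w) * N ^ 2
          ≤ ((B.card : ℝ) - 2 * w) * ((∑ J ∈ B.powersetCard w, h J ^ 2)
              * ∑ J ∈ B.powersetCard w, dn B f J ^ 2) := mul_le_mul_of_nonneg_left h3 hpos.le
        _ = (((B.card : ℝ) - 2 * w) * (∑ J ∈ B.powersetCard w, h J ^ 2))
              * ∑ J ∈ B.powersetCard w, dn B f J ^ 2 := by ring
        _ ≤ _ := mul_le_mul_of_nonneg_right h2 hD0
    have : N * (((B.card : ℝ) - 2 * w) * N) ≤ N * ∑ J ∈ B.powersetCard w, dn B f J ^ 2 := by
      nlinarith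
    exact le_of_mul_le_mul_left this h0

/-- The sum of `g` over the `w`-subsets of `T`. -/
def hat (w : ℕ) (g : Finset X → ℝ) (T : Finset X) : ℝ := ∑ K ∈ T.powersetCard w, g K

lemma harm_sum_superset (B : Finset X) (w : ℕ) (g : Finset X → ℝ)
    (hg : ∀ J ∈ B.powersetCard w, dn B g J = 0) (I : Finset X) (hI : I.card ≤ w) :
    ∑ K ∈ (B.powersetCard (w + 1)).filter (fun K => I ⊆ K), g K = 0 := by
  have h1 := up_dn_adj B w (fun J => if I ⊆ J then 1 else 0) g
  have h0 : ∑ J ∈ B.powersetCard w, (if I ⊆ J then (1 : ℝ) else 0) * dn B g J = 0 :=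
    sum_eq_zero fun J hJ => by rw [hg J hJ, mul_zero]
  rw [h0] at h1
  have h2 : ∀ K ∈ B.powersetCard (w + 1), up (fun J => if I ⊆ J then (1 : ℝ) else 0) K * g K
      = ((w + 1 - I.card : ℕ) : ℝ) * (if I ⊆ K then g K else 0) := by
    intro K hK
    rw [mem_powersetCard] at hK
    simp only [up]
    by_cases hIK : I ⊆ K
    · rw [if_pos hIK, sum_boole]
      congr 2
      rw [← hK.2, ← card_sdiff_of_subset hIK]
      congr 1
      ext x
      simp only [mem_filter, mem_sdiff, subset_erase, hIK, true_and]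
    · rw [if_neg hIK, mul_zero, sum_eq_zero, zero_mul]
      intro x _
      rw [if_neg]
      exact fun h => hIK (h.trans (erase_subset _ _))
  rw [sum_congr rfl h2, ← mul_sum, ← sum_filter] at h1
  have : ((w + 1 - I.card : ℕ) : ℝ) ≠ 0 := by
    have : w + 1 - I.card ≠ 0 := by omega
    exact_mod_cast this
  exact (mul_eq_zero.mp h1).resolve_left this

lemma hat_compl (B : Finset X) (w : ℕ) (g : Finset X → ℝ)
    (hg : ∀ J ∈ B.powersetCard w, dn B g J = 0) (T : Finset X) (hT : T ⊆ B) :
    hat (w + 1) g (B \ T) = (-1) ^ (w + 1) * hat (w + 1) g T := by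
  have h1 : hat (w + 1) g (B \ T) = ∑ K ∈ B.powersetCard (w + 1),
      ∑ I ∈ T.powerset, if I ⊆ K then (-1 : ℝ) ^ I.card * g K else 0 := by
    have : (B \ T).powersetCard (w + 1)
        = (B.powersetCard (w + 1)).filter (fun K => T ∩ K = ∅) := by
      ext K
      simp only [mem_powersetCard, mem_filter, subset_sdiff, ← disjoint_iff_inter_eq_empty,
        disjoint_comm]
      tauto
    rw [hat, this, sum_filter]
    refine sum_congr rfl fun K _ => ?_
    rw [← sum_filter, ← sum_mul]
    have h2 : T.powerset.filter (fun I => I ⊆ K) = (T ∩ K).powerset := by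
      ext I
      simp only [mem_filter, mem_powerset, subset_inter_iff]
    have h3 := Finset.sum_powerset_neg_one_pow_card (x := T ∩ K)
    have h4 : ∑ I ∈ (T ∩ K).powerset, (-1 : ℝ) ^ I.card = if T ∩ K = ∅ then 1 else 0 := by
      have := congrArg (Int.cast : ℤ → ℝ) h3
      push_cast at this
      exact this
    rw [h2, h4]
    split_ifs <;> simp
  rw [h1, sum_comm]
  have h5 : ∀ I ∈ T.powerset, ∑ K ∈ B.powersetCard (w + 1),
      (if I ⊆ K then (-1 : ℝ) ^ I.card * g K else 0)
        = if I.card = w + 1 then (-1) ^ (w + 1) * g I else 0 := by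
    intro I hI
    rw [mem_powerset] at hI
    rw [← sum_filter, ← mul_sum]
    rcases lt_trichotomy I.card (w + 1) with hlt | heq | hgt
    · rw [harm_sum_superset B w g hg I (by omega), mul_zero, if_neg (by omega)]
    · rw [if_pos heq, heq]
      congr 1
      have : (B.powersetCard (w + 1)).filter (fun K => I ⊆ K) = {I} := by
        ext K
        simp only [mem_filter, mem_powersetCard, mem_singleton]
        constructor
        · rintro ⟨⟨_, hK⟩, hIK⟩
          exact (eq_of_subset_of_card_le hIK (by omega)).symm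
        · rintro rfl
          exact ⟨⟨hI.trans hT, heq⟩, Subset.refl _⟩
      rw [this, sum_singleton]
    · rw [if_neg (by omega), sum_eq_zero, mul_zero]
      intro K hK
      simp only [mem_filter, mem_powersetCard] at hK
      have := card_le_card hK.2
      omega
  rw [sum_congr rfl h5, ← sum_filter, hat, mul_sum, powersetCard_eq_filter]

lemma hat_sum (w i : ℕ) (hi : w ≤ i) (g : Finset X → ℝ) (T : Finset X) :
    ∑ I ∈ T.powersetCard i, hat w g I = ((T.card - w).choose (i - w) : ℝ) * hat w g T := by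
  have h1 : ∀ I ∈ T.powersetCard i, hat w g I
      = ∑ K ∈ T.powersetCard w, if K ⊆ I then g K else 0 := by
    intro I hI
    rw [mem_powersetCard] at hI
    rw [← sum_filter, hat]
    congr 1
    ext K
    simp only [mem_powersetCard, mem_filter]
    constructor
    · rintro ⟨h1, h2⟩; exact ⟨⟨h1.trans hI.1, h2⟩, h1⟩
    · rintro ⟨⟨_, h2⟩, h1⟩; exact ⟨h1, h2⟩
  rw [sum_congr rfl h1, sum_comm, hat, mul_sum]
  refine sum_congr rfl fun K hK => ?_
  rw [mem_powersetCard] at hK
  rw [← sum_filter, sum_const, nsmul_eq_mul, card_filter_powersetCard_subset K T i hK.1 (by omega),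
    hK.2]

omit [DecidableEq X] in
lemma hat_small (w : ℕ) (g : Finset X → ℝ) (T : Finset X) (hT : T.card < w) : hat w g T = 0 := by
  rw [hat, powersetCard_eq_empty.mpr hT, sum_empty]

/-- Binomial inversion. -/
lemma alt_choose (a j m : ℕ) (hj : j ≤ m) :
    ∑ i ∈ range (m + 1), (-1 : ℝ) ^ (i + a) * ((i.choose a : ℝ) * (j.choose i : ℝ))
      = if j = a then 1 else 0 := by
  by_cases hja : j < a
  · rw [if_neg (by omega)]
    refine sum_eq_zero fun i _ => ?_
    by_cases hia : i < a
    · simp [Nat.choose_eq_zero_of_lt hia]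
    · simp [Nat.choose_eq_zero_of_lt (show j < i by omega)]
  · obtain ⟨c, rfl⟩ : ∃ c, j = a + c := ⟨j - a, by omega⟩
    have hsub : range (a + c + 1) ⊆ range (m + 1) := by
      intro x hx; rw [mem_range] at hx ⊢; omega
    rw [← sum_subset hsub (by
      intro i _ hi
      rw [mem_range] at hi
      simp [Nat.choose_eq_zero_of_lt (show a + c < i by omega)])]
    rw [show a + c + 1 = a + (c + 1) by ring, sum_range_add, sum_eq_zero (by
      intro i hi
      rw [mem_range] at hi
      simp [Nat.choose_eq_zero_of_lt hi]), zero_add]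
    have h1 : ∀ i ∈ range (c + 1),
        (-1 : ℝ) ^ (a + i + a) * (((a + i).choose a : ℝ) * ((a + c).choose (a + i) : ℝ))
          = ((a + c).choose a : ℝ) * ((-1) ^ i * (c.choose i : ℝ)) := by
      intro i hi
      rw [mem_range] at hi
      have h2 := Nat.choose_mul (n := a + c) (k := a + i) (s := a) (by omega)
      rw [Nat.add_sub_cancel_left, Nat.add_sub_cancel_left] at h2
      have h3 : (((a + c).choose (a + i) : ℝ)) * ((a + i).choose a : ℝ)
          = ((a + c).choose a : ℝ) * (c.choose i : ℝ) := by exact_mod_cast h2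
      have h4 : (-1 : ℝ) ^ (a + i + a) = (-1) ^ i := by
        rw [show a + i + a = i + 2 * a by ring, pow_add, pow_mul]; simp
      rw [h4, mul_comm (((a + i).choose a : ℝ)), h3]
      ring
    rw [sum_congr rfl h1, ← mul_sum]
    have h5 := Int.alternating_sum_range_choose (n := c)
    have h6 : ∑ i ∈ range (c + 1), (-1 : ℝ) ^ i * (c.choose i : ℝ) = if c = 0 then 1 else 0 := by
      have := congrArg (Int.cast : ℤ → ℝ) h5
      push_cast at this
      exact this
    rw [h6]
    by_cases hc : c = 0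
    · subst hc; simp
    · rw [if_neg hc, if_neg (by omega), mul_zero]

end Pool.Agent.MP_3e18ff_co.H58
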