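import Pool.Agent.MP_3e18ff_co.H58.Basic
import Pool.Agent.MP_3e18ff_co.H58.Harm

/-! The harmonic analysis bound on a block. -/

namespace Pool.Agent.MP_3e18ff_co.H58

open Finset

variable {X : Type} [Fintype X] [DecidableEq X]

omit [Fintype X] in
lemma symmDiff_inter_right (H B : Finset X) : symmDiff H B ∩ B = B \ (H ∩ B) := by
  ext x
  simp only [mem_inter, mem_symmDiff, mem_sdiff]
  tauto

lemma harm_orth {t s : ℕ} {𝓑 : Finset (Finset X)} (h : St t (2 * s) 𝓑) (htk : t ≤ 2 * s)
    (hs : Sdp s 𝓑) {B V : Finset X} (hB : B ∈ 𝓑) (hV : Disjoint V B) {w J : ℕ} (hw : Even w)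
    (hws : w + 1 ≤ s) (hJ : J + (w + 1) = 2 * s) (hVJ : V.card + J = t + 1)
    (g : Finset X → ℝ) (hg : ∀ K ∈ B.powersetCard w, dn B g K = 0) :
    ∑ H ∈ (thr 𝓑 V).filter (fun H => (H ∩ B).card = J), g (B \ H) = 0 := by
  have hBc : B.card = 2 * s := h.card B hB
  have hsign : (-1 : ℝ) ^ (w + 1) = -1 := Odd.neg_one_pow hw.add_one
  have hcompl : ∀ T ⊆ B, hat (w + 1) g (B \ T) = - hat (w + 1) g T := by
    intro T hT
    rw [hat_compl B w g hg T hT, hsign]; ring
  have hbig : ∀ T ⊆ B, J < T.card → hat (w + 1) g T = 0 := by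
    intro T hT hTJ
    have h1 := hcompl T hT
    rw [hat_small (w + 1) g (B \ T) (by rw [card_sdiff_of_subset hT]; omega)] at h1
    linarith
  -- the level sums
  have hE : ∀ i, w + 1 + i < J →
      ∑ H ∈ thr 𝓑 V, (((H ∩ B).card - (w + 1)).choose i : ℝ) * hat (w + 1) g (H ∩ B) = 0 := by
    intro i hi
    have h1 : ∀ H ∈ thr 𝓑 V, (((H ∩ B).card - (w + 1)).choose i : ℝ) * hat (w + 1) g (H ∩ B)
        = ∑ I ∈ (B.powersetCard (w + 1 + i)).filter (fun I => I ⊆ H), hat (w + 1) g I := by
      intro H _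
      have := hat_sum (w + 1) (w + 1 + i) (by omega) g (H ∩ B)
      rw [Nat.add_sub_cancel_left] at this
      rw [← this]
      congr 1
      ext I
      simp only [mem_powersetCard, mem_filter, subset_inter_iff]
      tauto
    rw [sum_congr rfl h1, sum_thr_swap]
    have h2 : ∀ I ∈ B.powersetCard (w + 1 + i), ((thr 𝓑 (V ∪ I)).card : ℝ) * hat (w + 1) g I
        = (lam (Fintype.card X) t (2 * s) (V.card + (w + 1 + i)) : ℝ) * hat (w + 1) g I := by
      intro I hI
      rw [mem_powersetCard] at hI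
      have : (V ∪ I).card = V.card + (w + 1 + i) := by
        rw [card_union_of_disjoint (disjoint_of_subset_right hI.1 hV), hI.2]
      rw [h.card_thr htk _ (by omega), this]
    rw [sum_congr rfl h2, ← mul_sum, hat_sum _ _ (by omega), hbig B (Subset.refl _) (by omega)]
    simp
  -- the middle level vanishes by the symmetric difference property
  have hτ : ∑ H ∈ (thr 𝓑 V).filter (fun H => (H ∩ B).card = s), hat (w + 1) g (H ∩ B) = 0 := by
    have hmap : ∀ H ∈ (thr 𝓑 V).filter (fun H => (H ∩ B).card = s),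
        symmDiff H B ∈ (thr 𝓑 V).filter (fun H => (H ∩ B).card = s) := by
      intro H hH
      simp only [mem_filter, mem_thr] at hH ⊢
      refine ⟨⟨hs H hH.1.1 B hB hH.2, ?_⟩, ?_⟩
      · intro x hx
        rw [mem_symmDiff]
        exact Or.inl ⟨hH.1.2 hx, disjoint_left.mp hV hx⟩
      · rw [symmDiff_inter_right, card_sdiff_of_subset inter_subset_right, hBc, hH.2]; omega
    have h1 : ∑ H ∈ (thr 𝓑 V).filter (fun H => (H ∩ B).card = s), hat (w + 1) g (H ∩ B)
        = ∑ H ∈ (thr 𝓑 V).filter (fun H => (H ∩ B).card = s), - hat (w + 1) g (H ∩ B) := by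
      refine sum_bij' (fun H _ => symmDiff H B) (fun H _ => symmDiff H B) hmap hmap ?_ ?_ ?_
      · intro H _; simp
      · intro H _; simp
      · intro H _
        rw [symmDiff_inter_right, hcompl _ inter_subset_right, neg_neg]
    rw [sum_neg_distrib] at h1
    linarith
  obtain ⟨a, ha⟩ : ∃ a, s = w + 1 + a := ⟨s - (w + 1), by omega⟩
  obtain ⟨m, hm⟩ : ∃ m, J = w + 1 + m := ⟨J - (w + 1), by omega⟩
  have hsum : ∑ i ∈ range (m + 1), (-1 : ℝ) ^ (i + a) * (i.choose a : ℝ) *
      ∑ H ∈ thr 𝓑 V, (((H ∩ B).card - (w + 1)).choose i : ℝ) * hat (w + 1) g (H ∩ B) = 0 := by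
    rw [← hτ, sum_filter]
    simp_rw [mul_sum]
    rw [sum_comm]
    refine sum_congr rfl fun H _ => ?_
    by_cases h1 : (H ∩ B).card < w + 1
    · rw [hat_small _ _ _ h1]; simp
    by_cases h2 : J < (H ∩ B).card
    · rw [hbig _ inter_subset_right h2]; simp
    have h3 := alt_choose a ((H ∩ B).card - (w + 1)) m (by omega)
    have h4 : ∀ i ∈ range (m + 1), (-1 : ℝ) ^ (i + a) * (i.choose a : ℝ) *
        ((((H ∩ B).card - (w + 1)).choose i : ℝ) * hat (w + 1) g (H ∩ B))
        = (-1 : ℝ) ^ (i + a) * ((i.choose a : ℝ) * (((H ∩ B).card - (w + 1)).choose i : ℝ))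
          * hat (w + 1) g (H ∩ B) := fun i _ => by ring
    rw [sum_congr rfl h4, ← sum_mul, h3]
    by_cases h5 : (H ∩ B).card = s
    · rw [if_pos h5, if_pos (by omega), one_mul]
    · rw [if_neg h5, if_neg (by omega), zero_mul]
  rw [sum_range_succ, sum_eq_zero (fun i hi => by
    rw [mem_range] at hi
    rw [hE i (by omega), mul_zero]), zero_add] at hsum
  have hne : (-1 : ℝ) ^ (m + a) * (m.choose a : ℝ) ≠ 0 := by
    refine mul_ne_zero (pow_ne_zero _ (by norm_num)) ?_
    have : 0 < m.choose a := Nat.choose_pos (by omega)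
    exact_mod_cast this.ne'
  have hEJ := (mul_eq_zero.mp hsum).resolve_left hne
  have h6 : ∑ H ∈ thr 𝓑 V, (((H ∩ B).card - (w + 1)).choose m : ℝ) * hat (w + 1) g (H ∩ B)
      = - ∑ H ∈ (thr 𝓑 V).filter (fun H => (H ∩ B).card = J), g (B \ H) := by
    rw [sum_filter, ← sum_neg_distrib]
    refine sum_congr rfl fun H _ => ?_
    rcases lt_trichotomy (H ∩ B).card J with h1 | h1 | h1
    · by_cases h2 : (H ∩ B).card < w + 1
      · rw [hat_small _ _ _ h2, if_neg (by omega)]; simp
      · rw [Nat.choose_eq_zero_of_lt (by omega), if_neg (by omega)]; simp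
    · rw [if_pos h1, h1, hm, Nat.add_sub_cancel_left, Nat.choose_self]
      have h2 := hcompl (H ∩ B) inter_subset_right
      have h3 : B \ (H ∩ B) = B \ H := by ext x; simp only [mem_sdiff, mem_inter]; tauto
      have h4 : (B \ H).card = w + 1 := by
        rw [← h3, card_sdiff_of_subset inter_subset_right]; omega
      rw [h3, hat, ← h4, powersetCard_self, sum_singleton, h4] at h2
      rw [h2]; simp
    · rw [hbig _ inter_subset_right h1, if_neg (by omega)]; simp
  rw [h6] at hEJ
  linarith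

lemma harm_bound {t s : ℕ} {𝓑 : Finset (Finset X)} (h : St t (2 * s) 𝓑) (htk : t ≤ 2 * s)
    (hs : Sdp s 𝓑) {B V : Finset X} (hB : B ∈ 𝓑) (hV : Disjoint V B) {w J : ℕ} (hw : Even w)
    (hws : w + 1 ≤ s) (hJ : J + (w + 1) = 2 * s) (hVJ : V.card + J = t + 1)
    {H₀ : Finset X} (hH₀ : H₀ ∈ 𝓑) (hVH : V ⊆ H₀) (hHJ : (H₀ ∩ B).card = J) :
    2 * s ≤ 3 * w + 1 := by
  have hBc : B.card = 2 * s := h.card B hB
  set 𝓗 := (thr 𝓑 V).filter (fun H => (H ∩ B).card = J) with h𝓗
  have hcard : ∀ H ∈ 𝓗, (B \ H).card = w + 1 := by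
    intro H hH
    simp only [h𝓗, mem_filter] at hH
    have h3 : B \ (H ∩ B) = B \ H := by ext x; simp only [mem_sdiff, mem_inter]; tauto
    rw [← h3, card_sdiff_of_subset inter_subset_right]; omega
  let F : Finset X → ℕ := fun K => (𝓗.filter (fun H => B \ H = K)).card
  let f : Finset X → ℝ := fun K => (F K : ℝ)
  have hfsum : ∀ g : Finset X → ℝ,
      ∑ K ∈ B.powersetCard (w + 1), g K * f K = ∑ H ∈ 𝓗, g (B \ H) := by
    intro g
    rw [← sum_fiberwise_of_maps_to (s := 𝓗) (t := B.powersetCard (w + 1)) (g := fun H => B \ H)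
      (fun H hH => by rw [mem_powersetCard]; exact ⟨sdiff_subset, hcard H hH⟩)]
    refine sum_congr rfl fun K _ => ?_
    rw [sum_congr rfl (g := fun _ => g K) (fun H hH => by rw [(mem_filter.mp hH).2]), sum_const,
      nsmul_eq_mul, mul_comm]
  have key := dn_norm_ge B w (by omega) f (by
    intro g hg
    rw [hfsum]
    exact harm_orth h htk hs hB hV hw hws hJ hVJ g hg)
  have hle : ∀ K ∈ B.powersetCard w, dn B f K ^ 2 ≤ dn B f K := by
    intro K hK
    rw [mem_powersetCard] at hK
    have h1 : ∑ x ∈ B \ K, F (insert x K) ≤ 1 := by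
      have h2 : ∑ x ∈ B \ K, F (insert x K)
          = ((B \ K).sigma (fun x => 𝓗.filter (fun H => B \ H = insert x K))).card := by
        rw [card_sigma]
      rw [h2, card_le_one]
      rintro ⟨x, H⟩ hp ⟨y, H'⟩ hq
      simp only [mem_sigma, mem_filter, mem_sdiff, h𝓗, mem_thr] at hp hq
      have hHH : H = H' := by
        refine h.eq_of_subset (T := V ∪ (B \ insert x (insert y K))) hp.2.1.1.1 hq.2.1.1.1 ?_ ?_ ?_
        · rw [card_union_of_disjoint (disjoint_of_subset_right sdiff_subset hV)]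
          have h3 : (insert x (insert y K)).card ≤ w + 2 :=
            (card_insert_le _ _).trans (by have := card_insert_le y K; omega)
          have h4 := le_card_sdiff (insert x (insert y K)) B
          omega
        · refine union_subset hp.2.1.1.2 ?_
          intro z hz
          by_contra hzH
          rw [mem_sdiff] at hz
          have : z ∈ B \ H := mem_sdiff.mpr ⟨hz.1, hzH⟩
          rw [hp.2.2] at this
          apply hz.2
          simp only [mem_insert] at this ⊢
          tauto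
        · refine union_subset hq.2.1.1.2 ?_
          intro z hz
          by_contra hzH
          rw [mem_sdiff] at hz
          have : z ∈ B \ H' := mem_sdiff.mpr ⟨hz.1, hzH⟩
          rw [hq.2.2] at this
          apply hz.2
          simp only [mem_insert] at this ⊢
          tauto
      subst hHH
      have h5 : insert x K = insert y K := hp.2.2.symm.trans hq.2.2
      have h6 : x = y := by
        have : x ∈ insert y K := h5 ▸ mem_insert_self x K
        rcases mem_insert.mp this with h7 | h7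
        · exact h7
        · exact absurd h7 hp.1.2
      subst h6
      rfl
    have h7 : dn B f K = ((∑ x ∈ B \ K, F (insert x K) : ℕ) : ℝ) := by
      simp [dn, f]
    rw [h7]
    interval_cases (∑ x ∈ B \ K, F (insert x K)) <;> simp
  have hsum : ∑ K ∈ B.powersetCard w, dn B f K = ((w + 1 : ℕ) : ℝ) * 𝓗.card := by
    have h1 := up_dn_adj B w (fun _ => 1) f
    simp only [one_mul] at h1
    rw [← h1, hfsum]
    rw [sum_congr rfl (g := fun _ => ((w + 1 : ℕ) : ℝ)) (fun H hH => by
      simp [up, hcard H hH]), sum_const, nsmul_eq_mul, mul_comm]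
  have hf2 : (𝓗.card : ℝ) ≤ ∑ K ∈ B.powersetCard (w + 1), f K ^ 2 := by
    have h1 := hfsum (fun _ => 1)
    simp only [one_mul, sum_const, nsmul_eq_mul, mul_one] at h1
    rw [← h1]
    refine sum_le_sum fun K _ => ?_
    have : F K ≤ F K ^ 2 := Nat.le_self_pow two_ne_zero _
    simp only [f]
    exact_mod_cast this
  have hpos : (0 : ℝ) < 𝓗.card := by
    have : 0 < 𝓗.card := card_pos.mpr ⟨H₀, by simp [h𝓗, hH₀, hVH, hHJ]⟩
    exact_mod_cast this
  have hlam : (0 : ℝ) ≤ (B.card : ℝ) - 2 * w := by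
    rw [hBc]
    have : ((w + 1 : ℕ) : ℝ) ≤ s := by exact_mod_cast hws
    push_cast at this ⊢
    linarith
  have hfin : ((B.card : ℝ) - 2 * w) * 𝓗.card ≤ ((w + 1 : ℕ) : ℝ) * 𝓗.card := by
    calc ((B.card : ℝ) - 2 * w) * 𝓗.card
        ≤ ((B.card : ℝ) - 2 * w) * ∑ K ∈ B.powersetCard (w + 1), f K ^ 2 :=
          mul_le_mul_of_nonneg_left hf2 hlam
      _ ≤ _ := key
      _ ≤ ∑ K ∈ B.powersetCard w, dn B f K := sum_le_sum hle
      _ = _ := hsum
  have h8 := le_of_mul_le_mul_right hfin hpos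
  rw [hBc] at h8
  have : ((2 * s : ℕ) : ℝ) ≤ ((3 * w + 1 : ℕ) : ℝ) := by
    push_cast at h8 ⊢
    linarith
  exact_mod_cast this

end Pool.Agent.MP_3e18ff_co.H58
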