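import Pool.Agent.MP_3e18ff_co.H58.Lloyd

/-! The arithmetic of the roots of the Lloyd polynomial. -/

namespace Pool.Agent.MP_3e18ff_co.H58

open Finset Polynomial
open scoped Nat

/-- `i!` times the volume of the Hamming ball of radius `i` in dimension `m`. -/
def vol (m : ℕ) : ℕ → ℕ
  | 0 => 1
  | i + 1 => (i + 1) * vol m i + m.descFactorial (i + 1)

lemma ff_cast (m i : ℕ) : ff (m : ℚ) i = m.descFactorial i := by
  induction i with
  | zero => simp [ff]
  | succ i ih =>
    rw [ff, ih, Nat.descFactorial_succ]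
    rcases le_or_gt i m with h | h
    · push_cast [Nat.cast_sub h]; ring
    · rw [Nat.descFactorial_of_lt h]; simp

lemma lloyd_eval_vol (m i : ℕ) : (lloyd m i).eval (m : ℚ) = vol m i := by
  induction i using Nat.twoStepInduction with
  | zero => simp [lloyd, vol]
  | one => simp [lloyd, vol]; ring
  | more i h1 h2 =>
    simp only [lloyd, eval_sub, eval_mul, eval_add, eval_X, eval_one, eval_C, h1, h2]
    simp only [vol]
    push_cast
    rw [← ff_cast, ← ff_cast]
    simp only [ff]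
    push_cast
    ring

lemma desc_le_vol (m i : ℕ) (h : i ≤ m) : (m + 1).descFactorial (i + 1) ≤ vol m (i + 1) := by
  have h1 : m.descFactorial i ≤ vol m i := by
    cases i with
    | zero => simp [vol]
    | succ i => rw [vol]; omega
  rw [Nat.succ_descFactorial_succ, vol, Nat.descFactorial_succ]
  obtain ⟨c, rfl⟩ := Nat.exists_eq_add_of_le h
  rw [Nat.add_sub_cancel_left]
  nlinarith

lemma factorial_le_prod (s : Finset ℕ) (hs : ∀ j ∈ s, 1 ≤ j) : s.card ! ≤ ∏ j ∈ s, j := by
  induction s using Finset.induction_on_max with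
  | empty => simp
  | insert a s ha ih =>
    have hna : a ∉ s := fun h => lt_irrefl _ (ha a h)
    have h1 : s.card ≤ a - 1 := by
      have : s ⊆ Ico 1 a := fun j hj => mem_Ico.mpr ⟨hs j (mem_insert_of_mem hj), ha j hj⟩
      simpa using card_le_card this
    have h2 := hs a (mem_insert_self _ _)
    rw [card_insert_of_notMem hna, prod_insert hna, Nat.factorial_succ]
    exact Nat.mul_le_mul (by omega) (ih fun j hj => hs j (mem_insert_of_mem hj))

lemma exists_double (J : Finset ℕ) (hJ : ∀ j ∈ J, 1 ≤ j) (h2 : 2 ≤ J.card) (l : ℕ)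
    (hd : ∏ j ∈ J, j ∣ J.card ! * 2 ^ l) : ∃ a ∈ J, ∃ b ∈ J, 2 * a ≤ b := by
  by_contra hc
  push Not at hc
  have h1 : ∀ j : ℕ, ∃ k o : ℕ, j ≠ 0 → Odd o ∧ j = 2 ^ k * o := fun j => by
    by_cases hj : j = 0
    · exact ⟨0, 0, fun h => absurd hj h⟩
    · obtain ⟨k, o, h⟩ := Nat.exists_eq_two_pow_mul_odd hj
      exact ⟨k, o, fun _ => h⟩
  choose k o ho using h1
  have ho' : ∀ j ∈ J, Odd (o j) ∧ j = 2 ^ k j * o j := fun j hj =>
    ho j (by have := hJ j hj; omega)
  have hlt : ∀ a ∈ J, ∀ b ∈ J, o a = o b → ¬ k a < k b := fun a ha b hb hab hk => by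
    have e1 := (ho' a ha).2
    have e2 := (ho' b hb).2
    have e3 : 2 ^ (k a + 1) * o b ≤ 2 ^ k b * o b :=
      Nat.mul_le_mul_right _ (Nat.pow_le_pow_right (by norm_num) hk)
    have e4 := hc a ha b hb
    rw [← e2, pow_succ, mul_comm _ 2, mul_assoc, ← hab, ← e1] at e3
    omega
  have hinj : Set.InjOn o J := fun a ha b hb hab => by
    have e1 := hlt a ha b hb hab
    have e2 := hlt b hb a ha hab.symm
    rw [(ho' a ha).2, (ho' b hb).2, hab, show k a = k b by omega]
  have h3 := factorial_le_prod (J.image o) (fun j hj => by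
    obtain ⟨a, ha, rfl⟩ := mem_image.mp hj
    exact (ho' a ha).1.pos)
  rw [card_image_of_injOn hinj, prod_image hinj] at h3
  have h4 : Nat.Coprime 2 (∏ j ∈ J, o j) :=
    Nat.Coprime.prod_right fun j hj => Nat.coprime_two_left.mpr (ho' j hj).1
  have h5 : ∏ j ∈ J, o j ∣ ∏ j ∈ J, j :=
    prod_dvd_prod_of_dvd _ _ fun j hj => Dvd.intro_left _ (ho' j hj).2.symm
  have h6 : ∏ j ∈ J, o j ∣ J.card ! :=
    (h4.symm.pow_right l).dvd_of_dvd_mul_right (h5.trans hd)
  have h7 := Nat.le_of_dvd (Nat.factorial_pos _)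
    (h4.mul_dvd_of_dvd_of_dvd (Nat.dvd_factorial (by norm_num) h2) h6)
  have := Nat.factorial_pos J.card
  omega

lemma amgm (J : Finset ℕ) (x : ℕ → ℝ) (hx : ∀ j ∈ J, 0 < x j) (hsum : ∑ j ∈ J, x j = J.card)
    {a b : ℕ} (ha : a ∈ J) (hb : b ∈ J) (hab : 2 * x a ≤ x b) : ∏ j ∈ J, x j ≤ 8 / 9 := by
  have hxa := hx a ha
  have hne : a ≠ b := by
    rintro rfl
    linarith
  have hb' : b ∈ J.erase a := mem_erase.mpr ⟨hne.symm, hb⟩
  set K := (J.erase a).erase b with hK
  have hKJ : ∀ j ∈ K, j ∈ J := fun j hj => mem_of_mem_erase (mem_of_mem_erase hj)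
  have hc : (J.card : ℝ) = K.card + 2 := by
    rw [← card_erase_add_one ha, ← card_erase_add_one hb']
    push_cast
    ring
  rw [← add_sum_erase J x ha, ← add_sum_erase _ x hb', hc] at hsum
  rw [← mul_prod_erase J x ha, ← mul_prod_erase _ x hb', ← mul_assoc]
  have h1 : ∏ j ∈ K, x j ≤ Real.exp (2 - x a - x b) := by
    calc ∏ j ∈ K, x j ≤ ∏ j ∈ K, Real.exp (x j - 1) :=
          prod_le_prod (fun j hj => (hx j (hKJ j hj)).le)
            (fun j _ => by linarith [Real.add_one_le_exp (x j - 1)])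
      _ = Real.exp (2 - x a - x b) := by
          rw [← Real.exp_sum, sum_sub_distrib]
          congr 1
          simp only [sum_const, nsmul_eq_mul, mul_one]
          linarith
  have h2 : x a * x b ≤ 8 / 9 * Real.exp (x a + x b - 2) := by
    have e1 := Real.add_one_le_exp ((x a + x b) / 2 - 1)
    have e2 : Real.exp (x a + x b - 2) = Real.exp ((x a + x b) / 2 - 1) ^ 2 := by
      rw [← Real.exp_nat_mul]
      congr 1
      push_cast
      ring
    have e3 : ((x a + x b) / 2) ^ 2 ≤ Real.exp ((x a + x b) / 2 - 1) ^ 2 :=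
      pow_le_pow_left₀ (by linarith) (by linarith) 2
    rw [e2]
    nlinarith
  calc x a * x b * ∏ j ∈ K, x j
      ≤ 8 / 9 * Real.exp (x a + x b - 2) * Real.exp (2 - x a - x b) :=
        mul_le_mul h2 h1 (prod_nonneg fun j hj => (hx j (hKJ j hj)).le) (by positivity)
    _ = 8 / 9 := by
        rw [mul_assoc, ← Real.exp_add, show x a + x b - 2 + (2 - x a - x b) = 0 by ring]
        simp

lemma desc_lower (n i : ℕ) (h : i ≤ n) :
    (n : ℝ) ^ i * (n - i * (i - 1) / 2) ≤ n * n.descFactorial i := by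
  induction i with
  | zero => simp
  | succ i ih =>
    have h1 := ih (by omega)
    have h2 : (0 : ℝ) ≤ n - i := by
      have : (i : ℝ) ≤ n := by exact_mod_cast (show i ≤ n by omega)
      linarith
    have h3 : (0 : ℝ) ≤ i * (i * (i - 1) / 2) := by
      rcases Nat.eq_zero_or_pos i with rfl | hi
      · simp
      · have : (1 : ℝ) ≤ i := by exact_mod_cast hi
        have : (0 : ℝ) ≤ i - 1 := by linarith
        positivity
    rw [Nat.descFactorial_succ]
    push_cast [Nat.cast_sub (show i ≤ n by omega)]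
    have h4 := mul_le_mul_of_nonneg_right h1 h2
    have h5 : (0 : ℝ) ≤ (n : ℝ) ^ i * (i * (i * (i - 1) / 2)) := by positivity
    rw [pow_succ]
    nlinarith

lemma two_adic (e m : ℕ) (hm : 2 * e + 4 ≤ m)
    (hd : 8 ^ (e + 1) ∣ (m - 1).descFactorial (e + 1) * ((m - 2).descFactorial e * (m - 3 - 2 * e))) :
    2 ^ (e + 2) ≤ m ^ 3 := by
  rw [Nat.descFactorial_eq_factorial_mul_choose, Nat.descFactorial_eq_factorial_mul_choose] at hd
  have p1 := (Nat.factorial_pos (e + 1)).ne'
  have p2 := (Nat.factorial_pos e).ne'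
  have p3 := (Nat.choose_pos (show e + 1 ≤ m - 1 by omega)).ne'
  have p4 := (Nat.choose_pos (show e ≤ m - 2 by omega)).ne'
  have p5 : m - 3 - 2 * e ≠ 0 := by omega
  rw [show 8 = 2 ^ 3 by norm_num, ← pow_mul, Nat.prime_two.pow_dvd_iff_le_factorization
    (by positivity), Nat.factorization_mul (by positivity) (by positivity),
    Nat.factorization_mul p1 p3, Nat.factorization_mul (by positivity) p5,
    Nat.factorization_mul p2 p4] at hd
  simp only [Finsupp.add_apply] at hd
  have q1 := Nat.factorization_factorial_le_div_pred Nat.prime_two (e + 1)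
  have q2 := Nat.factorization_factorial_le_div_pred Nat.prime_two e
  have q3 := Nat.pow_factorization_choose_le (p := 2) (k := e + 1) (show 0 < m - 1 by omega)
  have q4 := Nat.pow_factorization_choose_le (p := 2) (k := e) (show 0 < m - 2 by omega)
  have q5 := Nat.ordProj_le 2 p5
  simp only [Nat.add_one_sub_one, Nat.div_one] at q1 q2
  calc 2 ^ (e + 2) ≤ 2 ^ (((m - 1).choose (e + 1)).factorization 2
        + ((m - 2).choose e).factorization 2 + (m - 3 - 2 * e).factorization 2) :=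
        Nat.pow_le_pow_right (by norm_num) (by omega)
    _ ≤ m * m * m := by
        rw [pow_add, pow_add]
        exact Nat.mul_le_mul (Nat.mul_le_mul (by omega) (by omega)) (by omega)
    _ = m ^ 3 := by ring

lemma big_exp (e : ℕ) (he : 40 ≤ e) : 92 * e ^ 6 < 2 ^ (e + 1) := by
  induction e, he using Nat.le_induction with
  | base => norm_num
  | succ e he ih =>
    have h1 : 40 * (e + 1) ≤ 41 * e := by omega
    have h2 := Nat.pow_le_pow_left h1 6
    rw [mul_pow, mul_pow] at h2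
    rw [pow_succ 2 (e + 1)]
    omega

lemma finite_check : ∀ e < 40, ∀ r < 180, (2 ≤ e ∧ 3 ≤ r ∧ 2 * ((e + 1) * r) ≤ 9 * (e * (e - 1)) ∧
    2 ^ (e + 1) ≤ ((e + 1) * r - 1) ^ 3 ∧
    vol ((e + 1) * r - 1) e = e ! * 2 ^ Nat.log2 (vol ((e + 1) * r - 1) e / e !)) →
    e = 3 ∧ r = 6 := by
  decide +kernel

theorem perfect_nt (e m l : ℕ) (he : 2 ≤ e) (hm : 2 * e + 2 ≤ m) (hdvd : e + 1 ∣ m + 1)
    (J : Finset ℕ) (hJ : J.card = e) (hJ1 : ∀ j ∈ J, 1 ≤ j)
    (hR : lloyd m e = ∏ j ∈ J, (X - C ((m : ℚ) - 2 * j)))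
    (hV : (lloyd m e).eval (m : ℚ) = e ! * 2 ^ l) : e = 3 ∧ m = 23 := by
  have hvol : vol m e = e ! * 2 ^ l := by
    rw [lloyd_eval_vol] at hV
    exact_mod_cast hV
  have h0 : ∏ j ∈ J, (2 * j) = vol m e := by
    have := lloyd_eval_vol m e
    rw [hR, eval_prod] at this
    simp only [eval_sub, eval_X, eval_C, sub_sub_cancel] at this
    exact_mod_cast this
  obtain ⟨e, rfl⟩ : ∃ e', e = e' + 1 := ⟨e - 1, by omega⟩
  have hsum : ∑ j ∈ J, (2 * j : ℚ) = (e + 1) * (m + 1) := by
    have h1 := prod_X_sub_C_nextCoeff (s := J) (fun j : ℕ => (m : ℚ) - 2 * j)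
    rw [← hR, nextCoeff_of_natDegree_pos (by rw [lloyd_natDegree]; omega), lloyd_natDegree,
      Nat.add_sub_cancel, lloyd_next, sum_sub_distrib, sum_const, hJ, nsmul_eq_mul] at h1
    push_cast at h1
    linarith
  obtain ⟨a, ha, b, hb, hab⟩ := exists_double J hJ1 (by omega) l (by
    rw [hJ, ← hvol, ← h0]
    exact prod_dvd_prod_of_dvd _ _ fun j _ => Dvd.intro_left _ rfl)
  have hn : (0 : ℝ) < m + 1 := by positivity
  have h1 := amgm J (fun j => 2 * j / (m + 1)) (fun j hj => by
      have : (0 : ℝ) < j := by exact_mod_cast hJ1 j hj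
      positivity)
    (by
      have : ∑ j ∈ J, (2 * j : ℝ) = (e + 1) * (m + 1) := by exact_mod_cast hsum
      rw [← sum_div, this, hJ]
      field_simp
      push_cast
      ring) ha hb
    (by
      have : (2 * a : ℝ) ≤ b := by exact_mod_cast hab
      rw [← mul_div_assoc]
      gcongr)
  rw [prod_div_distrib, prod_const, hJ, div_le_iff₀ (by positivity)] at h1
  have h2 : ∏ j ∈ J, (2 * j : ℝ) = vol m (e + 1) := by exact_mod_cast h0
  have h3 : ((m + 1).descFactorial (e + 1) : ℝ) ≤ vol m (e + 1) := by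
    exact_mod_cast desc_le_vol m e (by omega)
  have h4 := desc_lower (m + 1) (e + 1) (by omega)
  have h5 : 2 * (m + 1) ≤ 9 * ((e + 1) * e) := by
    push_cast at h4
    have h6 : ((m : ℝ) + 1) ^ (e + 1) * (m + 1 - (e + 1) * (e + 1 - 1) / 2)
        ≤ ((m : ℝ) + 1) ^ (e + 1) * (8 / 9 * (m + 1)) := by nlinarith
    have h7 := le_of_mul_le_mul_left h6 (by positivity)
    have : (2 * (m + 1) : ℝ) ≤ 9 * ((e + 1) * e) := by linarith
    exact_mod_cast this
  have h6 : 2 ^ (e + 2) ≤ m ^ 3 := by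
    refine two_adic e m (by omega) ?_
    have e1 := lloyd_eval_one m (e + 1)
    have e2 := lloyd_eval_two m e
    rw [hR, eval_prod] at e1 e2
    simp only [eval_sub, eval_X, eval_C] at e1 e2
    rw [show (m : ℚ) - 1 = (m - 1 : ℕ) by push_cast [Nat.cast_sub (show 1 ≤ m by omega)]; ring,
      ff_cast] at e1
    rw [show (m : ℚ) - 2 = (m - 2 : ℕ) by push_cast [Nat.cast_sub (show 2 ≤ m by omega)]; ring,
      ff_cast, show (m : ℚ) - 3 - 2 * e = (m - 3 - 2 * e : ℕ) by
        push_cast [Nat.cast_sub (show 3 ≤ m by omega), Nat.cast_sub (show 2 * e ≤ m - 3 by omega)]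
        ring] at e2
    have e3 : (((m - 1).descFactorial (e + 1) * ((m - 2).descFactorial e * (m - 3 - 2 * e)) : ℕ) : ℤ)
        = ∏ j ∈ J, (4 * (((j : ℤ) - 1) * ((j - 1) - 1))) := by
      apply Int.cast_injective (α := ℚ)
      rw [Int.cast_natCast, Nat.cast_mul, Nat.cast_mul, ← e1, ← e2, ← prod_mul_distrib]
      push_cast
      exact prod_congr rfl fun j _ => by ring
    rw [← Int.natCast_dvd_natCast, e3, ← hJ]
    push_cast
    rw [← prod_const]
    refine prod_dvd_prod_of_dvd _ _ fun j _ => ?_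
    obtain ⟨c, hc⟩ := Int.even_mul_pred_self ((j : ℤ) - 1)
    exact ⟨c, by rw [hc]; ring⟩
  have h7 : e + 1 < 40 := by
    by_contra hc
    have e1 := big_exp (e + 1) (by omega)
    have e2 : 2 * m ≤ 9 * (e + 1) ^ 2 := by nlinarith
    have e3 := Nat.pow_le_pow_left e2 3
    rw [mul_pow, mul_pow, ← pow_mul, show 2 * 3 = 6 by rfl] at e3
    rw [show e + 1 + 1 = e + 2 by rfl] at e1
    generalize 2 ^ (e + 2) = w at e1 h6
    omega
  obtain ⟨r, hr⟩ := hdvd
  have hm' : m = (e + 1 + 1) * r - 1 := by omega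
  have := finite_check (e + 1) h7 r (by nlinarith) ⟨he, by nlinarith, by rw [← hr]; simpa using h5,
    by rw [← hm']; exact h6, by
      rw [← hm', hvol, Nat.mul_div_cancel_left _ (Nat.factorial_pos _), Nat.log2_two_pow]⟩
  obtain ⟨e1, rfl⟩ := this
  rw [e1] at hr
  omega

end Pool.Agent.MP_3e18ff_co.H58
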