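import Pool.Agent.MP_3e18ff_co.H58.Tau
import Pool.Agent.MP_3e18ff_co.H58.Perfect

/-! The case `k = 2t - 2`. -/

namespace Pool.Agent.MP_3e18ff_co.H58

open Finset

variable {X : Type} [Fintype X] [DecidableEq X] {𝓑 : Finset (Finset X)}

theorem main_high {e : ℕ} (h : St (e + 2) (2 * e + 2) 𝓑) (hs : Sdp (e + 1) 𝓑) (he : 2 ≤ e)
    (hn : 2 * e + 2 < Fintype.card X) : e = 3 ∧ Fintype.card X = 24 := by
  obtain ⟨o⟩ : Nonempty X := Fintype.card_pos_iff.mp (by omega)
  have hl := lev_tau h hs o (by omega)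
  obtain ⟨J, hJ, hJ1, hR⟩ := hl.roots
  obtain ⟨l, hl2⟩ := hl.card_pow
  have hV := hl.lloyd_eval_zero
  rw [hl2] at hV
  have hc : (univ.erase o).card + 1 = Fintype.card X := card_erase_add_one (mem_univ _)
  have hr := h.lam_rec (by omega) (by omega) (e + 1) (by omega)
  rw [lam_top, show 2 * e + 2 - (e + 1) = e + 1 by omega, mul_one] at hr
  have := perfect_nt e _ l he (by omega) (by
      rw [hc, ← Nat.sub_add_cancel (show e + 1 ≤ Fintype.card X by omega), ← hr]
      exact Nat.dvd_add (Dvd.intro_left _ rfl) dvd_rfl)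
    J hJ (fun j hj => (hJ1 j hj).1) hR (by exact_mod_cast hV)
  omega

/-- Points as small sets. -/
noncomputable def ptEquiv (o : X) : X ≃ {S : Finset X // o ∉ S ∧ S.card ≤ 1} :=
  Equiv.ofBijective (fun x => ⟨{x} \ {o}, by simp, (card_le_card sdiff_subset).trans (by simp)⟩)
    ⟨fun x y hxy => by
      have h1 : ∀ z, z ∈ ({x} \ {o} : Finset X) ↔ z ∈ ({y} \ {o} : Finset X) := fun z => by
        rw [show ({x} \ {o} : Finset X) = {y} \ {o} from congrArg Subtype.val hxy]
      have h2 := h1 x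
      have h3 := h1 y
      simp only [mem_sdiff, mem_singleton] at h2 h3
      grind,
    fun S => by
      have : Nonempty X := ⟨o⟩
      rcases (card_le_one_iff_subset_singleton.mp S.2.2) with ⟨x, hx⟩
      rcases subset_singleton_iff.mp hx with h1 | h1
      · exact ⟨o, Subtype.ext (by simp [h1])⟩
      · refine ⟨x, Subtype.ext ?_⟩
        have := S.2.1
        rw [h1] at this ⊢
        exact sdiff_eq_left.mpr (by simpa [eq_comm] using this)⟩

lemma ptEquiv_val (o x : X) : (ptEquiv o x).1 = {x} \ {o} := rfl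

lemma ptEquiv_ne {o x : X} (h : x ≠ o) : (ptEquiv o x).1 = {x} :=
  sdiff_eq_left.mpr (by simpa using h)

/-- The addition on the points of a Steiner quadruple system. -/
noncomputable def padd (h : St 3 4 𝓑) (o x y : X) : X :=
  (ptEquiv o).symm (tauS (e := 1) h o x (ptEquiv o y))

lemma padd_left (h : St 3 4 𝓑) (o y : X) : padd h o o y = y := by simp [padd, tauS]

lemma padd_right (h : St 3 4 𝓑) (o x : X) : padd h o x o = x := by
  by_cases hx : x = o
  · rw [hx, padd_left]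
  rw [padd, Equiv.symm_apply_eq]
  apply Subtype.ext
  rw [tauS_val _ hx, ptEquiv_ne hx, ptEquiv_val, tau_lt (by simp) (by simp)]
  simp

lemma padd_self (h : St 3 4 𝓑) (o x : X) : padd h o x x = o := by
  by_cases hx : x = o
  · rw [hx, padd_left]
  rw [padd, Equiv.symm_apply_eq]
  apply Subtype.ext
  rw [tauS_val _ hx, ptEquiv_ne hx, ptEquiv_val, tau_mem (by simp)]
  simp

lemma padd_left_comm (h : St 3 4 𝓑) (hs : Sdp 2 𝓑) (o x y z : X) :
    padd h o x (padd h o y z) = padd h o y (padd h o x z) := by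
  by_cases hx : x = o
  · rw [hx, padd_left, padd_left]
  by_cases hy : y = o
  · rw [hy, padd_left, padd_left]
  simp only [padd, Equiv.apply_symm_apply]
  congr 1
  apply Subtype.ext
  rw [tauS_val _ hx, tauS_val _ hy, tauS_val _ hy, tauS_val _ hx,
    tau_comm (e := 1) h hs (ptEquiv o z).2.1 hx hy (ptEquiv o z).2.2]

lemma padd_blk (h : St 3 4 𝓑) {o x y z : X} (hB : ({o, x, y, z} : Finset X) ∈ 𝓑) :
    padd h o x y = z := by
  have hc := h.card _ hB
  have hd : o ≠ x ∧ o ≠ y ∧ o ≠ z ∧ x ≠ y ∧ x ≠ z ∧ y ≠ z := by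
    refine ⟨?_, ?_, ?_, ?_, ?_, ?_⟩ <;> grind
  rw [padd, Equiv.symm_apply_eq]
  apply Subtype.ext
  rw [tauS_val _ hd.1.symm, ptEquiv_ne hd.2.1.symm, ptEquiv_ne hd.2.2.1.symm,
    tau_blk (e := 1) h (by simp [hd]) (by simp [hd]) hd.1.symm (by simp) hB
      (by intro w; simp only [mem_insert, mem_singleton]; tauto)]
  ext w
  simp only [mem_sdiff, mem_insert, mem_singleton]
  grind

lemma padd_comm (h : St 3 4 𝓑) (hs : Sdp 2 𝓑) (o a b : X) : padd h o a b = padd h o b a := by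
  conv_lhs => rw [← padd_right h o b, padd_left_comm h hs, padd_right]

/-- The group structure. -/
noncomputable abbrev pgroup (h : St 3 4 𝓑) (hs : Sdp 2 𝓑) (o : X) : AddCommGroup X :=
  letI : Add X := ⟨padd h o⟩
  letI : Zero X := ⟨o⟩
  letI : Neg X := ⟨id⟩
  { AddGroup.ofLeftAxioms (G := X)
      (fun a b c => by
        change padd h o (padd h o a b) c = padd h o a (padd h o b c)
        rw [padd_comm h hs, padd_left_comm h hs, padd_comm h hs o c])
      (padd_left h o) (padd_self h o) with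
    add_comm := padd_comm h hs o }

theorem main_ag (h : St 3 4 𝓑) (hs : Sdp 2 𝓑) (hn : 4 < Fintype.card X) :
    ∃ d, 3 ≤ d ∧ ∃ φ : X ≃ (Fin d → ZMod 2), ∀ B, B ∈ 𝓑 ↔ B.card = 4 ∧ ∑ x ∈ B, φ x = 0 := by
  obtain ⟨o⟩ : Nonempty X := Fintype.card_pos_iff.mp (by omega)
  letI := pgroup h hs o
  have h2 : ∀ x : X, x + x = 0 := padd_self h o
  have h3 : ∀ B ∈ 𝓑, o ∈ B → ∑ x ∈ B, x = 0 := by
    intro B hB ho
    have hc : (B.erase o).card = 3 := by rw [card_erase_of_mem ho, h.card B hB]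
    obtain ⟨x, y, z, hxy, hxz, hyz, hB'⟩ := card_eq_three.mp hc
    have h4 : x + y = z := padd_blk h (o := o) (by rw [← hB', insert_erase ho]; exact hB)
    rw [← add_sum_erase B _ ho, hB', sum_insert (by simp [hxy, hxz]), sum_pair hyz, ← add_assoc x,
      h4, h2, add_zero]
    rfl
  have h4 : ∀ A B : Finset X, ∑ x ∈ symmDiff A B, x = ∑ x ∈ A, x + ∑ x ∈ B, x := by
    intro A B
    rw [symmDiff_def, sup_eq_union, sum_union disjoint_sdiff_sdiff,
      ← sum_sdiff (inter_subset_left (s₁ := A) (s₂ := B)),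
      ← sum_sdiff (inter_subset_right (s₁ := A) (s₂ := B)), sdiff_inter_self_left,
      sdiff_inter_self_right, add_add_add_comm, h2, add_zero]
  have h5 : ∀ B ∈ 𝓑, ∑ x ∈ B, x = 0 := by
    intro B hB
    by_cases ho : o ∈ B
    · exact h3 B hB ho
    obtain ⟨T, hT, hTc⟩ := exists_subset_card_eq (s := B) (n := 2) (by rw [h.card B hB]; omega)
    obtain ⟨C, hC, hTC⟩ := h.ex (insert o T)
      (by rw [card_insert_of_notMem (fun h1 => ho (hT h1)), hTc])
    rw [insert_subset_iff] at hTC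
    have hI := h.inter_eq hB hC (fun h1 => ho (h1 ▸ hTC.1)) hTc hT hTC.2
    have h6 := h3 _ (hs B hB C hC (by rw [hI, hTc])) (by simp [mem_symmDiff, ho, hTC.1])
    rwa [h4, h3 C hC hTC.1, add_zero] at h6
  have h6 : ∀ B : Finset X, B.card = 4 → ∑ x ∈ B, x = 0 → B ∈ 𝓑 := by
    intro B hB h0
    obtain ⟨a, T, ha, rfl, hT⟩ := card_eq_succ.mp hB
    obtain ⟨C, hC, hTC⟩ := h.ex T hT
    obtain ⟨b, hb, hb'⟩ := exists_eq_insert_iff.mpr ⟨hTC, by rw [h.card C hC, hT]⟩
    have h7 := h5 C hC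
    rw [← hb', sum_insert hb] at h7
    rw [sum_insert ha] at h0
    rw [add_right_cancel (h0.trans h7.symm), hb']
    exact hC
  letI : Module (ZMod 2) X := AddCommGroup.zmodModule (fun x => by rw [two_nsmul, h2])
  let φ := (Module.finBasis (ZMod 2) X).equivFun
  refine ⟨Module.finrank (ZMod 2) X, ?_, φ.toEquiv, fun B => ?_⟩
  · have := Fintype.card_congr φ.toEquiv
    rw [this, Fintype.card_fun, ZMod.card, Fintype.card_fin] at hn
    by_contra hc
    have := Nat.pow_le_pow_right (show 0 < 2 by norm_num)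
      (show Module.finrank (ZMod 2) X ≤ 2 by omega)
    omega
  · have : ∑ x ∈ B, φ.toEquiv x = φ (∑ x ∈ B, x) := by rw [map_sum]; rfl
    rw [this, LinearEquiv.map_eq_zero_iff]
    exact ⟨fun hB => ⟨h.card B hB, h5 B hB⟩, fun hB => h6 B hB.1 hB.2⟩

omit [Fintype X] in
theorem ag_sdp {d : ℕ} (φ : X ≃ (Fin d → ZMod 2))
    (h : ∀ B, B ∈ 𝓑 ↔ B.card = 4 ∧ ∑ x ∈ B, φ x = 0) : Sdp 2 𝓑 := by
  intro A hA B hB hAB
  rw [h] at hA hB ⊢
  rw [symmDiff_def, sup_eq_union, card_union_of_disjoint disjoint_sdiff_sdiff,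
    sum_union disjoint_sdiff_sdiff]
  have h1 := card_sdiff_add_card_inter A B
  have h2 := card_sdiff_add_card_inter B A
  rw [inter_comm] at h2
  refine ⟨by omega, ?_⟩
  have h3 := sum_sdiff (f := φ) (inter_subset_left (s₁ := A) (s₂ := B))
  have h4 := sum_sdiff (f := φ) (inter_subset_right (s₁ := A) (s₂ := B))
  rw [sdiff_inter_self_left, hA.2] at h3
  rw [sdiff_inter_self_right, hB.2] at h4
  rw [eq_neg_of_add_eq_zero_left h3, eq_neg_of_add_eq_zero_left h4]
  funext i
  exact CharTwo.add_self_eq_zero (R := ZMod 2) _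

end Pool.Agent.MP_3e18ff_co.H58
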