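import Mathlib

/-! Lloyd's theorem, for commuting involutions with a level function. -/

namespace Pool.Agent.MP_3e18ff_co.H58

open Finset Polynomial

/-- The polynomial with roots `c, c - 2, …, -c`. -/
noncomputable def cubePoly (c : ℕ) : ℚ[X] := ∏ j ∈ range (c + 1), (X - C ((c : ℚ) - 2 * j))

lemma aeval_mul_proj {R : Type*} [Ring R] [Algebra ℚ R] (a t : R) (ε : ℚ) (hε : ε * ε = 1)
    (hat : Commute a t) (ht : t * t = 1) (q : ℚ[X]) :
    aeval (a + t) q * (1 + ε • t) = aeval (a + algebraMap ℚ R ε) q * (1 + ε • t) := by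
  have h1 : (a + t) * (1 + ε • t) = (a + algebraMap ℚ R ε) * (1 + ε • t) := by
    rw [add_mul, add_mul]
    congr 1
    rw [mul_add, mul_add, mul_one, mul_one, mul_smul_comm, ht, Algebra.algebraMap_eq_smul_one,
      smul_mul_smul_comm, hε, one_mul, one_smul, add_comm]
  have hc : Commute (a + t) (a + algebraMap ℚ R ε) :=
    ((Commute.refl a).add_left hat.symm).add_right (Algebra.commute_algebraMap_right _ _)
  have h2 : ∀ n : ℕ, (a + t) ^ n * (1 + ε • t) = (a + algebraMap ℚ R ε) ^ n * (1 + ε • t) := by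
    intro n
    induction n with
    | zero => simp
    | succ n ih =>
      rw [pow_succ', mul_assoc, ih, ← mul_assoc, (hc.pow_right n).eq, mul_assoc, h1, ← mul_assoc,
        ← pow_succ]
  induction q using Polynomial.induction_on' with
  | add p q hp hq => rw [map_add, map_add, add_mul, add_mul, hp, hq]
  | monomial n c => rw [aeval_monomial, aeval_monomial, mul_assoc, mul_assoc, h2]

lemma cubePoly_step {R : Type*} [Ring R] [Algebra ℚ R] (a t : R) (hat : Commute a t)
    (ht : t * t = 1) (c : ℕ) (h : aeval a (cubePoly c) = 0) :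
    aeval (a + t) (cubePoly (c + 1)) = 0 := by
  have e1 : aeval (a + algebraMap ℚ R 1) (cubePoly (c + 1)) = 0 := by
    have : (cubePoly (c + 1)).comp (X + C 1) = cubePoly c * (X - C ((c : ℚ) - 2 * (c + 1 : ℕ))) := by
      rw [cubePoly, cubePoly, Polynomial.prod_comp, ← prod_range_succ
        (fun j : ℕ => X - C ((c : ℚ) - 2 * j))]
      refine prod_congr rfl fun j _ => ?_
      simp only [sub_comp, X_comp, C_comp, map_sub, Nat.cast_add, Nat.cast_one, map_add, map_mul,
        map_one, mul_comp, add_comp, one_comp]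
      ring
    have h2 := congrArg (aeval a) this
    rw [aeval_comp, map_mul, h, zero_mul] at h2
    simpa using h2
  have e2 : aeval (a + algebraMap ℚ R (-1)) (cubePoly (c + 1)) = 0 := by
    have : (cubePoly (c + 1)).comp (X + C (-1)) = cubePoly c * (X - C ((c : ℚ) + 2)) := by
      rw [cubePoly, cubePoly, Polynomial.prod_comp, prod_range_succ']
      congr 1
      · refine prod_congr rfl fun j _ => ?_
        simp only [sub_comp, X_comp, C_comp, map_sub, Nat.cast_add, Nat.cast_one, map_add, map_mul,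
          map_neg, map_one, mul_comp, add_comp, one_comp]
        rw [show (C 2 : ℚ[X]) = 2 from rfl]
        ring
      · simp only [sub_comp, X_comp, C_comp, map_sub, Nat.cast_add, Nat.cast_one, map_add, map_mul,
          map_neg, map_one, mul_comp, add_comp, one_comp, Nat.cast_zero, map_zero, zero_comp]
        rw [show (C 2 : ℚ[X]) = 2 from rfl]
        ring
    have h2 := congrArg (aeval a) this
    rw [aeval_comp, map_mul, h, zero_mul] at h2
    simpa using h2
  have f1 := aeval_mul_proj a t 1 (by norm_num) hat ht (cubePoly (c + 1))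
  have f2 := aeval_mul_proj a t (-1) (by norm_num) hat ht (cubePoly (c + 1))
  rw [e1, zero_mul] at f1
  rw [e2, zero_mul] at f2
  have f3 : (2 : ℚ) • aeval (a + t) (cubePoly (c + 1)) = 0 := by
    have := congrArg₂ (· + ·) f1 f2
    simp only [← mul_add, add_zero] at this
    rw [two_smul, ← this]
    simp only [one_smul, neg_smul]
    noncomm_ring
  have : aeval (a + t) (cubePoly (c + 1))
      = (1 / 2 : ℚ) • (2 : ℚ) • aeval (a + t) (cubePoly (c + 1)) := by
    rw [smul_smul]; norm_num
  rw [this, f3, smul_zero]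

lemma cubePoly_sum {R ι : Type*} [Ring R] [Algebra ℚ R] [DecidableEq ι] (T : ι → R) (I : Finset ι)
    (hT : ∀ x ∈ I, T x * T x = 1) (hc : ∀ x ∈ I, ∀ y ∈ I, Commute (T x) (T y)) :
    aeval (∑ x ∈ I, T x) (cubePoly I.card) = 0 := by
  induction I using Finset.induction_on with
  | empty => simp [cubePoly]
  | insert x S hx ih =>
    rw [sum_insert hx, card_insert_of_notMem hx, add_comm]
    refine cubePoly_step _ _ ?_ (hT x (mem_insert_self _ _)) _
      (ih (fun y hy => hT y (mem_insert_of_mem hy))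
        (fun y hy z hz => hc y (mem_insert_of_mem hy) z (mem_insert_of_mem hz)))
    exact Commute.sum_left _ _ _ fun y hy => hc y (mem_insert_of_mem hy) x (mem_insert_self _ _)

/-- The (monic) Lloyd polynomials, in the variable `y = m - 2x`. -/
noncomputable def lloyd (m : ℕ) : ℕ → ℚ[X]
  | 0 => 1
  | 1 => X + 1
  | i + 2 => (X + 1) * lloyd m (i + 1) - C (((i : ℚ) + 1) * (m - i - 1)) * lloyd m i

lemma lloyd_coeff (m : ℕ) (i : ℕ) :
    (∀ j, i < j → (lloyd m i).coeff j = 0) ∧ (lloyd m i).coeff i = 1 := by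
  induction i using Nat.twoStepInduction with
  | zero =>
    refine ⟨fun j hj => ?_, by simp [lloyd]⟩
    simp [lloyd, coeff_one, hj.ne']
  | one =>
    refine ⟨fun j hj => ?_, by simp [lloyd, coeff_one]⟩
    simp [lloyd, coeff_one, coeff_X, hj.ne, show j ≠ 0 by omega]
  | more i h1 h2 =>
    constructor
    · intro j hj
      obtain ⟨k, rfl⟩ : ∃ k, j = k + 1 := ⟨j - 1, by omega⟩
      simp only [lloyd, add_mul, one_mul, coeff_sub, coeff_add, coeff_X_mul, coeff_C_mul]
      rw [h2.1 k (by omega), h2.1 _ (by omega), h1.1 _ (by omega)]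
      simp
    · simp only [lloyd, add_mul, one_mul, coeff_sub, coeff_add, coeff_X_mul, coeff_C_mul]
      rw [h2.2, h2.1 _ (by omega), h1.1 _ (by omega)]
      simp

lemma lloyd_natDegree (m i : ℕ) : (lloyd m i).natDegree = i := by
  apply le_antisymm
  · exact natDegree_le_iff_coeff_eq_zero.mpr (lloyd_coeff m i).1
  · exact le_natDegree_of_ne_zero (by rw [(lloyd_coeff m i).2]; exact one_ne_zero)

lemma lloyd_monic (m i : ℕ) : (lloyd m i).Monic := by
  rw [Monic, leadingCoeff, lloyd_natDegree, (lloyd_coeff m i).2]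

lemma lloyd_next (m i : ℕ) : (lloyd m (i + 1)).coeff i = i + 1 := by
  induction i with
  | zero => simp [lloyd]
  | succ i ih =>
    simp only [lloyd, add_mul, one_mul, coeff_sub, coeff_add, coeff_X_mul, coeff_C_mul]
    rw [ih, (lloyd_coeff m (i + 1)).2, (lloyd_coeff m i).1 _ (by omega)]
    simp

/-- The falling factorial. -/
def ff (z : ℚ) : ℕ → ℚ
  | 0 => 1
  | i + 1 => ff z i * (z - i)

lemma lloyd_eval_one (m i : ℕ) : (lloyd m i).eval ((m : ℚ) - 2) = ff (m - 1) i := by
  induction i using Nat.twoStepInduction with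
  | zero => simp [lloyd, ff]
  | one => simp [lloyd, ff]; ring
  | more i h1 h2 =>
    simp only [lloyd, eval_sub, eval_mul, eval_add, eval_X, eval_one, eval_C, h1, h2, ff]
    push_cast
    ring

lemma lloyd_eval_two (m i : ℕ) :
    (lloyd m (i + 1)).eval ((m : ℚ) - 4) = ff (m - 2) i * (m - 3 - 2 * i) := by
  induction i using Nat.twoStepInduction with
  | zero => simp [lloyd, ff]; ring
  | one => simp [lloyd, ff]; ring
  | more i h1 h2 =>
    rw [lloyd]
    simp only [eval_sub, eval_mul, eval_add, eval_X, eval_one, eval_C, h1, h2, ff]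
    push_cast
    ring

section Ops

variable {Ω ι : Type} [Fintype Ω] [DecidableEq Ω] [DecidableEq ι]

/-- Commuting involutions with a level function as in a perfect code. -/
structure Lev (I : Finset ι) (τ : ι → Ω → Ω) (lev : Ω → ℕ) (down : Ω → Finset ι) (e : ℕ) :
    Prop where
  invol : ∀ x ∈ I, ∀ ω, τ x (τ x ω) = ω
  comm : ∀ x ∈ I, ∀ y ∈ I, ∀ ω, τ x (τ y ω) = τ y (τ x ω)
  sub : ∀ ω, down ω ⊆ I
  card : ∀ ω, (down ω).card = lev ω
  dn : ∀ ω, ∀ x ∈ down ω, lev (τ x ω) + 1 = lev ω
  up : ∀ ω, ∀ x ∈ I, x ∉ down ω → lev (τ x ω) = min (lev ω + 1) e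
  le : ∀ ω, lev ω ≤ e
  surj : ∀ i ≤ e, ∃ ω, lev ω = i
  zero : ∃ ω₀, ∀ ω, lev ω = 0 ↔ ω = ω₀

/-- The adjacency operator. -/
noncomputable def adj (I : Finset ι) (τ : ι → Ω → Ω) : Module.End ℚ (Ω → ℚ) :=
  ∑ x ∈ I, LinearMap.funLeft ℚ ℚ (τ x)

omit [Fintype Ω] [DecidableEq Ω] [DecidableEq ι] in
lemma adj_apply (I : Finset ι) (τ : ι → Ω → Ω) (f : Ω → ℚ) (ω : Ω) :
    adj I τ f ω = ∑ x ∈ I, f (τ x ω) := by
  simp [adj, LinearMap.funLeft_apply]

variable {I : Finset ι} {τ : ι → Ω → Ω} {lev : Ω → ℕ} {down : Ω → Finset ι} {e : ℕ}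

omit [Fintype Ω] [DecidableEq Ω] in
lemma Lev.adj_radial (h : Lev I τ lev down e) (φ : ℕ → ℚ) (ω : Ω) :
    adj I τ (fun ω => φ (lev ω)) ω
      = lev ω * φ (lev ω - 1) + ((I.card : ℚ) - lev ω) * φ (min (lev ω + 1) e) := by
  rw [adj_apply, ← sum_sdiff (h.sub ω), add_comm]
  congr 1
  · rw [sum_congr rfl (g := fun _ => φ (lev ω - 1)) (fun x hx => by
      rw [← h.dn ω x hx, Nat.add_sub_cancel]), sum_const, h.card, nsmul_eq_mul]
  · rw [sum_congr rfl (g := fun _ => φ (min (lev ω + 1) e)) (fun x hx => by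
      rw [h.up ω x (mem_sdiff.mp hx).1 (mem_sdiff.mp hx).2]), sum_const,
      card_sdiff_of_subset (h.sub ω), h.card, nsmul_eq_mul, Nat.cast_sub]
    rw [← h.card]
    exact card_le_card (h.sub ω)

omit [Fintype Ω] [DecidableEq Ω] in
lemma Lev.cube (h : Lev I τ lev down e) : aeval (adj I τ) (cubePoly I.card) = 0 := by
  refine cubePoly_sum _ I ?_ ?_
  · intro x hx
    ext1 f
    funext ω
    simp [LinearMap.funLeft_apply, h.invol x hx]
  · intro x hx y hy
    refine LinearMap.ext fun f => ?_
    funext ω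
    simp [LinearMap.funLeft_apply, h.comm x hx y hy]

/-- The indicator of the ball of radius `i`. -/
def ball (lev : Ω → ℕ) (i : ℕ) : Ω → ℚ := fun ω => if lev ω ≤ i then 1 else 0

omit [Fintype Ω] [DecidableEq Ω] in
lemma Lev.lloyd_apply (h : Lev I τ lev down e) (i : ℕ) (hi : i ≤ e) :
    aeval (adj I τ) (lloyd I.card i) (ball lev 0) = (i.factorial : ℚ) • ball lev i := by
  induction i using Nat.twoStepInduction with
  | zero => simp [lloyd]
  | one =>
    funext ω
    have h1 := h.adj_radial (fun j => if j ≤ 0 then 1 else 0) ω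
    simp only [lloyd, map_add, aeval_X, map_one, LinearMap.add_apply, Module.End.one_apply,
      Pi.add_apply, Nat.factorial_one, Nat.cast_one, one_smul]
    have h2 : adj I τ (ball lev 0) ω = _ := h1
    rw [h2, if_neg (show ¬ min (lev ω + 1) e ≤ 0 by omega)]
    simp only [ball]
    rcases Nat.lt_trichotomy (lev ω) 1 with h3 | h3 | h3
    · have : lev ω = 0 := by omega
      simp [this]
    · simp [h3]
    · rw [if_neg (by omega), if_neg (by omega), if_neg (by omega)]; simp
  | more i h1 h2 =>
    funext ω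
    have h3 := h.adj_radial (fun j => if j ≤ i + 1 then 1 else 0) ω
    have h4 : adj I τ (ball lev (i + 1)) ω = _ := h3
    simp only [lloyd, map_sub, map_mul, map_add, aeval_X, map_one, LinearMap.sub_apply,
      Module.End.mul_apply, h1 (by omega), h2 (by omega), map_smul, LinearMap.add_apply,
      Module.End.one_apply, aeval_C, Module.algebraMap_end_apply, Pi.sub_apply, Pi.smul_apply,
      Pi.add_apply, smul_eq_mul, h4, ball, Nat.factorial_succ, map_natCast,
      Module.End.natCast_apply, nsmul_eq_mul, Pi.mul_apply, Pi.natCast_apply]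
    push_cast
    rcases Nat.lt_trichotomy (lev ω) (i + 1) with h5 | h5 | h5
    · rw [if_pos (by omega), if_pos (by omega), if_pos (by omega), if_pos (by omega),
        if_pos (by omega)]
      ring
    · rw [if_pos (by omega), if_neg (by omega), if_pos (by omega), if_neg (by omega),
        if_pos (by omega), h5]
      push_cast
      ring
    · by_cases h6 : lev ω = i + 2
      · rw [if_pos (by omega), if_neg (by omega), if_neg (by omega), if_neg (by omega),
          if_pos (by omega), h6]
        push_cast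
        ring
      · rw [if_neg (by omega), if_neg (by omega), if_neg (by omega), if_neg (by omega),
          if_neg (by omega)]
        ring

omit [Fintype Ω] [DecidableEq Ω] in
lemma Lev.pow_apply (h : Lev I τ lev down e) (i : ℕ) (ω : Ω) (hω : i ≤ lev ω) :
    (adj I τ ^ i) (ball lev 0) ω = if lev ω = i then (i.factorial : ℚ) else 0 := by
  induction i generalizing ω with
  | zero => simp [ball]
  | succ i ih =>
    rw [pow_succ', Module.End.mul_apply, adj_apply, ← sum_sdiff (h.sub ω), sum_eq_zero, zero_add]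
    · rw [sum_congr rfl (g := fun _ => if lev ω = i + 1 then (i.factorial : ℚ) else 0)
        (fun x hx => by
          have := h.dn ω x hx
          rw [ih _ (by omega)]
          exact if_congr (by omega) rfl rfl), sum_const, h.card, nsmul_eq_mul]
      split_ifs with h1
      · rw [h1, Nat.factorial_succ]; push_cast; ring
      · simp
    · intro x hx
      have h1 := h.up ω x (mem_sdiff.mp hx).1 (mem_sdiff.mp hx).2
      have h2 := h.le ω
      rw [ih _ (by omega), if_neg (by omega)]

omit [Fintype Ω] [DecidableEq Ω] in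
lemma Lev.eq_zero_of_kill (h : Lev I τ lev down e) (q : ℚ[X]) (hq : q.natDegree ≤ e)
    (h0 : aeval (adj I τ) q (ball lev 0) = 0) : q = 0 := by
  obtain ⟨ω, hω⟩ := h.surj _ hq
  have h1 := congrFun h0 ω
  rw [aeval_eq_sum_range, LinearMap.sum_apply, Finset.sum_apply, sum_range_succ, sum_eq_zero,
    zero_add] at h1
  · simp only [LinearMap.smul_apply, Pi.smul_apply, smul_eq_mul, Pi.zero_apply] at h1
    rw [h.pow_apply _ ω hω.ge, if_pos hω] at h1
    have : (q.natDegree.factorial : ℚ) ≠ 0 := by exact_mod_cast (Nat.factorial_pos _).ne'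
    exact leadingCoeff_eq_zero.mp ((mul_eq_zero.mp h1).resolve_right this)
  · intro i hi
    rw [mem_range] at hi
    simp only [LinearMap.smul_apply, Pi.smul_apply, smul_eq_mul]
    rw [h.pow_apply _ ω (by omega), if_neg (by omega), mul_zero]

omit [Fintype Ω] [DecidableEq Ω] in
lemma Lev.lloyd_dvd (h : Lev I τ lev down e) :
    (X - C (I.card : ℚ)) * lloyd I.card e ∣ cubePoly I.card := by
  have hm : ((X - C (I.card : ℚ)) * lloyd I.card e).Monic :=
    (monic_X_sub_C _).mul (lloyd_monic _ _)
  have hdeg : ((X - C (I.card : ℚ)) * lloyd I.card e).natDegree = e + 1 := by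
    rw [(monic_X_sub_C _).natDegree_mul (lloyd_monic _ _), natDegree_X_sub_C, lloyd_natDegree,
      add_comm]
  have hk : aeval (adj I τ) ((X - C (I.card : ℚ)) * lloyd I.card e) (ball lev 0) = 0 := by
    rw [map_mul, Module.End.mul_apply, h.lloyd_apply e le_rfl, map_smul]
    have : aeval (adj I τ) (X - C (I.card : ℚ)) (ball lev e) = 0 := by
      funext ω
      simp [adj_apply, ball, h.le, Module.algebraMap_end_apply]
    rw [this, smul_zero]
  rw [← modByMonic_eq_zero_iff_dvd hm]
  refine h.eq_zero_of_kill _ ?_ ?_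
  · have := natDegree_modByMonic_lt (cubePoly I.card) hm (by
      intro h1
      rw [h1, natDegree_one] at hdeg
      omega)
    omega
  · have h1 := modByMonic_add_div (cubePoly I.card) ((X - C (I.card : ℚ)) * lloyd I.card e)
    have h2 := congrArg (fun q => aeval (adj I τ) q (ball lev 0)) h1
    simp only [h.cube, map_add, LinearMap.add_apply, LinearMap.zero_apply] at h2
    rw [mul_comm _ (cubePoly I.card /ₘ _), map_mul, Module.End.mul_apply, hk, map_zero,
      add_zero] at h2
    exact h2

omit [DecidableEq ι] in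
lemma Lev.lloyd_eval_zero [DecidableEq ι] (h : Lev I τ lev down e) :
    (lloyd I.card e).eval (I.card : ℚ) = e.factorial * Fintype.card Ω := by
  have h1 : ∀ f : Ω → ℚ, ∑ ω, adj I τ f ω = I.card * ∑ ω, f ω := by
    intro f
    simp_rw [adj_apply]
    rw [sum_comm, ← nsmul_eq_mul, ← sum_const]
    refine sum_congr rfl fun x hx => ?_
    exact Function.Bijective.sum_comp (Function.Involutive.bijective (h.invol x hx)) f
  have h2 : ∀ (n : ℕ) (f : Ω → ℚ), ∑ ω, (adj I τ ^ n) f ω = (I.card : ℚ) ^ n * ∑ ω, f ω := by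
    intro n f
    induction n with
    | zero => simp
    | succ n ih => rw [pow_succ', Module.End.mul_apply, h1, ih]; ring
  have h3 : ∀ (q : ℚ[X]) (f : Ω → ℚ),
      ∑ ω, aeval (adj I τ) q f ω = q.eval (I.card : ℚ) * ∑ ω, f ω := by
    intro q f
    induction q using Polynomial.induction_on' with
    | add p q hp hq => simp [sum_add_distrib, hp, hq, add_mul]
    | monomial n c =>
      rw [aeval_monomial, eval_monomial, mul_assoc, ← h2, mul_sum]
      simp [Module.algebraMap_end_apply]
  have h4 := h3 (lloyd I.card e) (ball lev 0)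
  rw [h.lloyd_apply e le_rfl] at h4
  obtain ⟨ω₀, hω₀⟩ := h.zero
  have h5 : ∑ ω, ball lev 0 ω = 1 := by simp [ball, hω₀]
  rw [h5, mul_one] at h4
  rw [← h4]
  simp [ball, h.le, mul_comm]

/-- Lloyd's theorem. -/
theorem Lev.roots (h : Lev I τ lev down e) :
    ∃ J : Finset ℕ, J.card = e ∧ (∀ j ∈ J, 1 ≤ j ∧ j ≤ I.card) ∧
      lloyd I.card e = ∏ j ∈ J, (X - C ((I.card : ℚ) - 2 * j)) := by
  have hd := h.lloyd_dvd
  rw [cubePoly, prod_range_succ'] at hd
  simp only [Nat.cast_zero, mul_zero, sub_zero] at hd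
  rw [mul_comm _ (X - C (I.card : ℚ)), mul_dvd_mul_iff_left (X_sub_C_ne_zero _)] at hd
  set g : ℕ → ℚ := fun j => (I.card : ℚ) - 2 * ((j + 1 : ℕ) : ℚ) with hg
  have hinj : Function.Injective g := by
    intro a b hab
    simp only [hg] at hab
    have : ((a + 1 : ℕ) : ℚ) = ((b + 1 : ℕ) : ℚ) := by linarith
    have := Nat.cast_injective this
    omega
  have hP : ∏ j ∈ range I.card, (X - C (g j)) = ∏ a ∈ (range I.card).image g, (X - C a) :=
    (prod_image (f := fun a => X - C a) (fun a _ b _ hab => hinj hab)).symm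
  rw [hP] at hd
  have hne : ∏ a ∈ (range I.card).image g, (X - C a) ≠ 0 :=
    prod_ne_zero_iff.mpr fun a _ => X_sub_C_ne_zero a
  have hsp : (lloyd I.card e).Splits :=
    Splits.of_dvd (Splits.prod fun a _ => Splits.X_sub_C a) hne hd
  have hle := roots.le_of_dvd hne hd
  rw [roots_prod_X_sub_C] at hle
  have hnd : (lloyd I.card e).roots.Nodup := Multiset.nodup_of_le hle (Finset.nodup _)
  set Z : Finset ℚ := ⟨(lloyd I.card e).roots, hnd⟩ with hZ
  have hZsub : Z ⊆ (range I.card).image g := fun a ha => Multiset.mem_of_le hle ha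
  obtain ⟨J, hJ, hJZ⟩ := subset_image_iff.mp hZsub
  have hprod : lloyd I.card e = ∏ a ∈ Z, (X - C a) := hsp.eq_prod_roots_of_monic (lloyd_monic _ _)
  refine ⟨J.image (· + 1), ?_, ?_, ?_⟩
  · rw [card_image_of_injective _ (add_left_injective 1), ← card_image_of_injective J hinj, hJZ]
    have := hsp.natDegree_eq_card_roots
    rw [lloyd_natDegree] at this
    exact this.symm
  · intro j hj
    obtain ⟨a, ha, rfl⟩ := mem_image.mp hj
    have := mem_range.mp (hJ ha)
    omega
  · rw [hprod, ← hJZ, prod_image (fun a _ b _ hab => hinj hab),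
      prod_image (fun a _ b _ hab => add_left_injective 1 hab)]

/-- The number of states is a power of two. -/
theorem Lev.card_pow (h : Lev I τ lev down e) : ∃ l, Fintype.card Ω = 2 ^ l := by
  let σ : I → Equiv.Perm Ω := fun x => Function.Involutive.toPerm (τ x) (h.invol x x.2)
  let G : Subgroup (Equiv.Perm Ω) := Subgroup.closure (Set.range σ)
  have hcomm1 : ∀ x : I, ∀ g ∈ G, Commute (σ x) g := by
    intro x g hg
    induction hg using Subgroup.closure_induction with
    | mem a ha =>
      obtain ⟨y, rfl⟩ := ha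
      exact Equiv.ext fun ω => h.comm x x.2 y y.2 ω
    | one => exact Commute.one_right _
    | mul a b _ _ ha hb => exact ha.mul_right hb
    | inv a _ ha => exact ha.inv_right
  have hcomm : ∀ g ∈ G, ∀ g' ∈ G, Commute g g' := by
    intro g hg g' hg'
    induction hg using Subgroup.closure_induction with
    | mem a ha =>
      obtain ⟨y, rfl⟩ := ha
      exact hcomm1 y g' hg'
    | one => exact Commute.one_left _
    | mul a b _ _ ha hb => exact ha.mul_left hb
    | inv a _ ha => exact ha.inv_left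
  have hsq : ∀ g ∈ G, g ^ 2 = 1 := by
    intro g hg
    induction hg using Subgroup.closure_induction with
    | mem a ha =>
      obtain ⟨y, rfl⟩ := ha
      exact Equiv.ext fun ω => h.invol y y.2 ω
    | one => simp
    | mul a b ha hb ha' hb' => rw [(hcomm a ha b hb).mul_pow, ha', hb', one_mul]
    | inv a _ ha => rw [inv_pow, ha, inv_one]
  have hp : IsPGroup 2 G := fun g => ⟨1, Subtype.ext (by simpa using hsq g g.2)⟩
  obtain ⟨ω₀, hω₀⟩ := h.zero
  haveI : Fact (Nat.Prime 2) := ⟨Nat.prime_two⟩
  obtain ⟨l, hl⟩ := hp.card_orbit ω₀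
  have horb : ∀ n ω, lev ω = n → ω ∈ MulAction.orbit G ω₀ := by
    intro n
    induction n with
    | zero =>
      intro ω hω
      rw [(hω₀ ω).mp hω]
      exact MulAction.mem_orbit_self _
    | succ n ih =>
      intro ω hω
      obtain ⟨x, hx⟩ : (down ω).Nonempty := by rw [← card_pos, h.card]; omega
      have h1 := h.dn ω x hx
      obtain ⟨g, hg⟩ := ih (τ x ω) (by omega)
      refine ⟨⟨σ ⟨x, h.sub ω hx⟩, Subgroup.subset_closure ⟨_, rfl⟩⟩ * g, ?_⟩
      simp only [mul_smul] at hg ⊢
      rw [hg]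
      exact h.invol x (h.sub ω hx) ω
  have : MulAction.orbit G ω₀ = Set.univ := Set.eq_univ_of_forall fun ω => horb _ ω rfl
  rw [this, Nat.card_univ, Nat.card_eq_fintype_card] at hl
  exact ⟨l, hl⟩

end Ops

end Pool.Agent.MP_3e18ff_co.H58
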