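import Pool.Agent.MP_3e18ff_co.H58.CheckA
import Pool.Agent.MP_3e18ff_co.H58.CheckB
import Pool.Agent.MP_3e18ff_co.H58.CheckC

/-! The number theory of the divisibility conditions. -/

namespace Pool.Agent.MP_3e18ff_co.H58

lemma dvd_first {D A l₂ : ℕ} (h2 : l₂ * (D + 1) = ((D + 1 + A) * D + 1) * (D + 1 + A)) :
    ((D : ℤ) + 1) ∣ (A : ℤ) * (A - 1) := by
  have h2' : (l₂ : ℤ) * (D + 1) = ((D + 1 + A) * D + 1) * (D + 1 + A) := by exact_mod_cast h2
  refine ⟨(D + A) * (D + 1 + A) + (1 - A) - l₂, ?_⟩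
  linear_combination h2'

lemma small_case {D r : ℕ} (hD : 2 ≤ D) (hD' : D ≤ 1000) (hr : D + 2 ≤ r)
    (hr' : 2 * r + 9 ≤ 7 * D + 5) (L : ℕ → ℕ) (hL0 : L 0 = 1) (hL1 : L 1 = r)
    (hL : ∀ i, i < D + 3 → L (i + 1) * (D + i) = (r * D + i) * L i) :
    (D = 2 ∧ r = 4) ∨ (D = 3 ∧ r = 8) ∨ (D = 4 ∧ r = 10) ∨ (D = 7 ∧ r = 9) ∨
      (D = 10 ∧ r = 22) := by
  have hin : inner (D + 1) ((5 * (D + 1) - 11) / 2) = true := by
    by_cases h1 : D + 1 < 400
    · exact outer_spec _ _ outer_1 _ (by omega) (by omega)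
    by_cases h2 : D + 1 < 600
    · exact outer_spec _ _ outer_2 _ (by omega) (by omega)
    by_cases h3 : D + 1 < 720
    · exact outer_spec _ _ outer_3 _ (by omega) (by omega)
    by_cases h4 : D + 1 < 820
    · exact outer_spec _ _ outer_4 _ (by omega) (by omega)
    by_cases h5 : D + 1 < 915
    · exact outer_spec _ _ outer_5 _ (by omega) (by omega)
    · exact outer_spec _ _ outer_6 _ (by omega) (by omega)
  obtain ⟨a, rfl⟩ : ∃ a, r = D + 1 + (a + 1) := ⟨r - (D + 2), by omega⟩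
  have h1 := hL 1 (by omega)
  rw [hL1] at h1
  have h2 := dvd_first h1
  have h3 : (D + 1) ∣ a * (a + 1) := by
    have : ((D + 1 : ℕ) : ℤ) ∣ ((a * (a + 1) : ℕ) : ℤ) := by
      push_cast at h2 ⊢
      rwa [add_sub_cancel_right, mul_comm] at h2
    exact Int.natCast_dvd_natCast.mp this
  have hg := inner_spec _ _ hin a (by omega) (Nat.mod_eq_zero_of_dvd h3)
  have hd := depthOk_of D ((D + 1 + (a + 1)) * D) (by omega) L (D + 3) 0
    (fun i hi => hL i (by omega))
  rw [hL0] at hd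
  simp only [good, Nat.add_sub_cancel, hd, Bool.not_true, Bool.false_or, Bool.or_eq_true,
    Bool.and_eq_true, beq_iff_eq] at hg
  tauto

lemma large_case {D A l₂ l₃ l₄ : ℕ} (hD : 1000 < D) (hA : 2 ≤ A) (hA3 : A ^ 3 ≤ 17 * D ^ 2)
    (h2 : l₂ * (D + 1) = ((D + 1 + A) * D + 1) * (D + 1 + A))
    (h3 : l₃ * (D + 2) = ((D + 1 + A) * D + 2) * l₂)
    (h4 : l₄ * (D + 3) = ((D + 1 + A) * D + 3) * l₃) : False := by
  obtain ⟨c, hc⟩ := dvd_first h2
  have h2' : (l₂ : ℤ) * (D + 1) = ((D + 1 + A) * D + 1) * (D + 1 + A) := by exact_mod_cast h2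
  have h3' : (l₃ : ℤ) * (D + 2) = ((D + 1 + A) * D + 2) * l₂ := by exact_mod_cast h3
  have hDz : (1000 : ℤ) < D := by exact_mod_cast hD
  have hAz : (2 : ℤ) ≤ A := by exact_mod_cast hA
  have hA3z : (A : ℤ) ^ 3 ≤ 17 * D ^ 2 := by exact_mod_cast hA3
  have hc1 : 1 ≤ c := by
    by_contra hcon
    have : c ≤ 0 := by omega
    nlinarith
  have hA33 : (33 : ℤ) ≤ A := by
    by_contra hcon
    have h5 : (A : ℤ) ≤ 32 := by omega
    nlinarith
  -- the second condition
  have hdvd2 : ((D : ℤ) + 2) ∣ 2 * (A - 1) * (A - 2) * (2 * A - 3) := by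
    have e1 : ((D : ℤ) + 2) ∣ ((D + 1 + A) * D + 2) * (((D + 1 + A) * D + 1) * (D + 1 + A)) :=
      ⟨l₃ * (D + 1), by linear_combination (-(D + 1) : ℤ) * h3' - ((D + 1 + A) * D + 2) * h2'⟩
    have m1 : ((D : ℤ) + 1 + A) ≡ A - 1 [ZMOD (D + 2)] :=
      (Int.modEq_iff_dvd.mpr ⟨-1, by ring⟩)
    have m2 : (D : ℤ) ≡ -2 [ZMOD (D + 2)] := (Int.modEq_iff_dvd.mpr ⟨-1, by ring⟩)
    have m3 := ((m1.mul m2).add_right 2).mul (((m1.mul m2).add_right 1).mul m1)
    have m4 := (Int.modEq_zero_iff_dvd.mpr e1).symm.trans m3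
    have m5 := Int.modEq_zero_iff_dvd.mp m4.symm
    convert m5 using 1
    ring
  obtain ⟨y, hy⟩ := hdvd2
  have hQ : c * ((D : ℤ) + 2) = A ^ 2 - A + c := by linear_combination -hc
  have hR : 2 * c * ((2 * c - 6) * A - 7 * c + 6)
      = (2 * c * (2 * A - 7) - y) * ((A : ℤ) ^ 2 - A + c) := by
    linear_combination (-c) * hy - y * hQ
  set κ : ℤ := 2 * c * (2 * A - 7) - y with hκ
  have hQpos : (0 : ℤ) < A ^ 2 - A + c := by nlinarith
  have hc17 : c ^ 2 < 17 * (A - 1) := by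
    have e1 : c ^ 2 * (D + 1) ^ 2 = A ^ 2 * (A - 1) ^ 2 := by
      linear_combination (-(c * (D + 1) + A * (A - 1))) * hc
    have e2 : c ^ 2 * A ^ 3 ≤ c ^ 2 * (17 * D ^ 2) := mul_le_mul_of_nonneg_left hA3z (sq_nonneg _)
    have e3 : c ^ 2 * (17 * D ^ 2) < 17 * (c ^ 2 * (D + 1) ^ 2) := by
      have : (0 : ℤ) < c ^ 2 * (2 * D + 1) := by positivity
      nlinarith
    rw [e1] at e3
    have e4 : (A : ℤ) ^ 2 * (c ^ 2 * A) < A ^ 2 * (17 * (A - 1) ^ 2) := by nlinarith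
    have e5 := lt_of_mul_lt_mul_left e4 (sq_nonneg _)
    have e6 : (A : ℤ) * c ^ 2 < A * (17 * (A - 1)) := by nlinarith
    exact lt_of_mul_lt_mul_left e6 (by linarith)
  by_cases hc3 : c ≤ 3
  · have hneg : 2 * c * ((2 * c - 6) * A - 7 * c + 6) < 0 ∧
        -((A : ℤ) ^ 2 - A + c) < 2 * c * ((2 * c - 6) * A - 7 * c + 6) := by
      have : c = 1 ∨ c = 2 ∨ c = 3 := by omega
      rcases this with rfl | rfl | rfl <;> constructor <;> nlinarith
    rw [hR] at hneg
    have e1 : κ < 0 := by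
      by_contra hcon
      have := mul_nonneg (not_lt.mp hcon) hQpos.le
      linarith [hneg.1]
    have e2 : κ ≤ -1 := by omega
    nlinarith [hneg.2]
  have hc4 : 4 ≤ c := by omega
  have hκ1 : 1 ≤ κ := by
    have e1 : 0 < 2 * c * ((2 * c - 6) * A - 7 * c + 6) := by
      apply mul_pos (by linarith)
      nlinarith
    rw [hR] at e1
    have := (pos_iff_pos_of_mul_pos e1).mpr hQpos
    omega
  have hκ67 : κ < 68 := by
    by_contra hcon
    have e1 : 68 * ((A : ℤ) ^ 2 - A + c) ≤ κ * (A ^ 2 - A + c) :=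
      mul_le_mul_of_nonneg_right (not_lt.mp hcon) hQpos.le
    rw [← hR] at e1
    have e2 : c ^ 2 * A < 17 * (A - 1) * A := mul_lt_mul_of_pos_right hc17 (by linarith)
    nlinarith
  set κ' : ℤ := 4 * c ^ 2 - 12 * c + κ - κ * A with hκ'
  have hT : κ' * A = 14 * c ^ 2 - 12 * c + κ * c := by
    rw [hκ']; linear_combination hR
  have hκ'1 : 1 ≤ κ' := by
    have e1 : 0 < κ' * A := by rw [hT]; nlinarith
    have := (pos_iff_pos_of_mul_pos e1).mpr (by linarith)
    omega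
  have hcA : c ≤ A := by nlinarith
  have hκ'305 : κ' < 306 := by
    by_contra hcon
    have e1 : 306 * (A : ℤ) ≤ κ' * A := mul_le_mul_of_nonneg_right (not_lt.mp hcon) (by linarith)
    have e2 : κ * c ≤ 67 * A := by nlinarith
    nlinarith
  have he : 14 * κ < 4 * κ' := by
    have e1 : (4 * κ' - 14 * κ) * A = 120 * c + 4 * κ * c - 14 * κ + 14 * κ' := by
      linear_combination 4 * hT + 14 * hκ'
    have e2 : 0 < (4 * κ' - 14 * κ) * A := by rw [e1]; nlinarith
    have := (pos_iff_pos_of_mul_pos e2).mpr (by linarith)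
    linarith
  have hquad : c * ((4 * κ' - 14 * κ) * c - (12 * (κ' - κ) + κ * κ)) = κ' * (κ' - κ) := by
    linear_combination κ * hT - κ' * hκ'
  clear_value κ' κ
  obtain ⟨k, rfl⟩ := Int.eq_ofNat_of_zero_le (show 0 ≤ κ by omega)
  obtain ⟨k', rfl⟩ := Int.eq_ofNat_of_zero_le (show 0 ≤ κ' by omega)
  obtain ⟨n, rfl⟩ := Int.eq_ofNat_of_zero_le (show 0 ≤ c by omega)
  have he' : 14 * k < 4 * k' := by exact_mod_cast he
  have hk1 : 1 ≤ k := by exact_mod_cast hκ1
  have hk' : k' < 306 := by exact_mod_cast hκ'305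
  have hn4 : 4 ≤ n := by exact_mod_cast hc4
  have hJ := loopK'_spec k 306 (loopK_spec 68 loopK_true k (by exact_mod_cast hκ67)) k' hk' he'
  obtain ⟨e, hedef⟩ : ∃ e, e = 4 * k' - 14 * k := ⟨_, rfl⟩
  obtain ⟨g, hgdef⟩ : ∃ g, g = k' - k := ⟨_, rfl⟩
  rw [← hedef, ← hgdef] at hJ
  have hez : (e : ℤ) = 4 * k' - 14 * k := by omega
  have hgz : (g : ℤ) = k' - k := by omega
  have he0 : 0 < e := by omega
  have hg0 : 0 < g := by omega
  rw [← hez, ← hgz] at hquad
  obtain ⟨B, hB⟩ : ∃ B, B = 12 * g + k * k := ⟨_, rfl⟩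
  rw [← hB] at hJ
  have hBz : (B : ℤ) = 12 * g + k * k := by rw [hB]; push_cast; ring
  rw [← hBz] at hquad
  have hpos : B < e * n := by
    have e1 : (0 : ℤ) < n * (e * n - B) := by rw [hquad]; positivity
    have := (pos_iff_pos_of_mul_pos e1).mp (by linarith)
    have e2 : (B : ℤ) < e * n := by linarith
    exact_mod_cast e2
  have hquad' : n * (e * n - B) = k' * g := by
    zify [hpos.le]
    exact hquad
  have hlo : B / e ≤ n := by
    apply Nat.div_le_of_le_mul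
    exact hpos.le
  have hhi : n < B / e + 28 := by
    by_contra hcon
    have e1 : B < e * (B / e + 1) := Nat.lt_mul_div_succ B he0
    have e2 : e * (B / e + 28) ≤ e * n := Nat.mul_le_mul_left _ (not_lt.mp hcon)
    have e3 : 27 * e ≤ e * n - B := by
      have : e * (B / e + 28) = e * (B / e + 1) + 27 * e := by ring
      omega
    have e4 : n * (27 * e) ≤ n * (e * n - B) := Nat.mul_le_mul_left _ e3
    have e5 : k' * g ≤ 306 * g := Nat.mul_le_mul_right _ hk'.le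
    have e6 : n * (27 * e) = 27 * (e * n) := by ring
    omega
  have hfin := loopJ_spec _ _ _ _ _ _ _ hJ (n - B / e) (by omega) (by
    rw [Nat.add_sub_cancel' hlo]; exact hquad')
  rw [Nat.add_sub_cancel' hlo] at hfin
  have hAeq : (14 * n * n - 12 * n + k * n) / k' = A := by
    have e1 : 14 * n * n - 12 * n + k * n = k' * A := by
      have : 12 * n ≤ 14 * n * n := by nlinarith
      zify [this]
      linear_combination -hT
    rw [e1, Nat.mul_div_cancel_left _ (by omega)]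
  have hDeq : A * (A - 1) / n - 1 = D := by
    have e1 : A * (A - 1) = n * (D + 1) := by
      zify [show 1 ≤ A by omega]
      linear_combination hc
    rw [e1, Nat.mul_div_cancel_left _ (by omega)]
    rfl
  simp only [fin3, hAeq, hDeq, Bool.or_eq_true, Nat.ble_eq, bne_iff_ne, ne_eq] at hfin
  rcases hfin with h5 | h5
  · omega
  · apply h5
    apply Nat.mod_eq_zero_of_dvd
    refine ⟨l₄ * (D + 2) * (D + 1), ?_⟩
    calc (D + 1 + A) * ((D + 1 + A) * D + 1) * ((D + 1 + A) * D + 2) * ((D + 1 + A) * D + 3)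
        = (((D + 1 + A) * D + 1) * (D + 1 + A)) * ((D + 1 + A) * D + 2) * ((D + 1 + A) * D + 3) := by
          ring
      _ = (((D + 1 + A) * D + 2) * l₂) * (D + 1) * ((D + 1 + A) * D + 3) := by rw [← h2]; ring
      _ = (((D + 1 + A) * D + 3) * l₃) * (D + 2) * (D + 1) := by rw [← h3]; ring
      _ = _ := by rw [← h4]; ring

end Pool.Agent.MP_3e18ff_co.H58
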