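import Pool.Agent.MP_3e18ff_co.H58.Two
import Pool.Agent.MP_3e18ff_co.H58.NT
import Pool.Agent.MP_3e18ff_co.H58.Ana

/-! The case `k ≤ 2t - 4`. -/

namespace Pool.Agent.MP_3e18ff_co.H58

open Finset

variable {X : Type} [Fintype X] [DecidableEq X]

theorem main_du {d u : ℕ} {𝓑 : Finset (Finset X)} (h : St (d + 2 * u) (2 * (d + u)) 𝓑)
    (hs : Sdp (d + u) 𝓑) (hd : 1 ≤ d) (hu : 2 ≤ u) (hn : 2 * (d + u) < Fintype.card X) :
    d = 1 ∧ u = 2 ∧ Fintype.card X = 12 := by
  have hk : 2 * (d + u) = d + 2 * u + d := by ring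
  have h2u := two_u_le h hs hd hu hn
  have htits := h.tits hk hn (by omega)
  have hN := h.Lm_one hk hn (by omega)
  have hrec := h.Lm_rec' hk hn
  obtain ⟨hr, hpsi⟩ := block_bounds h hs hd hu (by omega) hn
  set L : ℕ → ℕ := Lm X (d + 2 * u) (2 * (d + u)) with hL
  have hA1 : d + 3 ≤ L 1 := by
    by_contra hc
    have : L 1 * (d + 1) ≤ (d + 2) * (d + 1) := Nat.mul_le_mul_right _ (by omega)
    nlinarith
  obtain ⟨b, hb⟩ : ∃ b, L 1 = d + 3 + b := ⟨L 1 - (d + 3), by omega⟩
  have hAt : d * (2 * u - 2) ≤ (b + 1) * (d + 1) := by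
    obtain ⟨v, rfl⟩ : ∃ v, u = v + 1 := ⟨u - 1, by omega⟩
    rw [show 2 * (v + 1) - 2 = 2 * v by omega]
    rw [hb] at hN
    nlinarith
  have htwo : u = 2 → b + 1 ≤ d := by
    rintro rfl
    exact two_small (d := d) h hs hd hn hb
  by_cases hD : d + 1 ≤ 1000
  · have hsm := small_case (D := d + 1) (r := L 1) (by omega) hD (by omega) (by omega) L
      (Lm_zero _ _) rfl (fun i hi => hrec i (by omega))
    have h1 := hrec 1 (by omega)
    have h2 := hrec 2 (by omega)
    rcases hsm with ⟨e1, e2⟩ | ⟨e1, e2⟩ | ⟨e1, e2⟩ | ⟨e1, e2⟩ | ⟨e1, e2⟩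
    · obtain rfl : d = 1 := by omega
      obtain rfl : u = 2 := by omega
      rw [e2] at hN
      exact ⟨rfl, rfl, by omega⟩
    · obtain rfl : d = 2 := by omega
      have := htwo (by omega)
      omega
    · obtain rfl : d = 3 := by omega
      by_cases hu2 : u = 2
      · have := htwo hu2
        omega
      have h3 := hpsi (by omega) 12 (by omega) (by rw [e2] at hN; omega)
      rw [e2] at h1 h2
      have a2 : L 2 = 82 := by simp only [Nat.reduceAdd, Nat.reduceMul] at h1; omega
      have a3 : L 3 = 574 := by simp only [Nat.reduceAdd, Nat.reduceMul] at h2; omega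
      rw [e2, a2, a3] at h3
      norm_num [psi] at h3
    · obtain rfl : d = 6 := by omega
      omega
    · obtain rfl : d = 9 := by omega
      by_cases hu2 : u = 2
      · have := htwo hu2
        omega
      have h3 := hpsi (by omega) 33 (by omega) (by rw [e2] at hN; omega)
      rw [e2] at h1 h2
      have a2 : L 2 = 442 := by simp only [Nat.reduceAdd, Nat.reduceMul] at h1; omega
      have a3 : L 3 = 8177 := by simp only [Nat.reduceAdd, Nat.reduceMul] at h2; omega
      rw [e2, a2, a3] at h3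
      norm_num [psi] at h3
  · exfalso
    obtain ⟨v, rfl⟩ : ∃ v, u = v + 2 := ⟨u - 2, by omega⟩
    rw [show 2 * (v + 2) - 2 = 2 * v + 2 by omega] at hAt
    have hA : 2 * v ≤ b := by
      by_contra hc
      have e1 : (b + 1) * (d + 1) ≤ (2 * v) * (d + 1) := Nat.mul_le_mul_right _ (by omega)
      nlinarith
    have hb1 : 1 ≤ b := by
      by_contra hc
      have : b = 0 := by omega
      subst this
      nlinarith
    have h1 := hrec 1 (by omega)
    have h2 := hrec 2 (by omega)
    have h3 := hrec 3 (by omega)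
    have hr' : L 1 = d + 1 + 1 + (b + 1) := by omega
    rw [hr'] at h1 h2 h3
    refine large_case (D := d + 1) (A := b + 1) (by omega) (by omega) ?_ h1 h2 h3
    have hd' : (1000 : ℝ) ≤ d := by exact_mod_cast (show 1000 ≤ d by omega)
    by_cases hv : v = 0
    · subst hv
      have e1 := two_ineq (d := d) h hs hn hb
      have e2 := ana_two hd' (Nat.cast_nonneg b) (by exact_mod_cast htwo rfl) e1
      exact_mod_cast e2
    · obtain ⟨a, rfl⟩ : ∃ a, b = a + 1 := ⟨b - 1, by omega⟩
      obtain ⟨q, hq⟩ : ∃ q, q + (v + 2) = d + 3 := ⟨d + 1 - v, by omega⟩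
      have e1 := big_ineq h hs hd (by omega) (by omega) hn (a := a) hq
        (by rw [← hL]; omega)
      have hq' : (q : ℝ) + (v + 2) = d + 3 := by exact_mod_cast hq
      have hw : ((2 * (d + (v + 2)) - 1 : ℕ) : ℤ) = 2 * (d + v) + 3 := by omega
      rw [hw, ← hL, hr'] at e1
      have e2 := ana_big (D := d + 1) (A := a + 2) (u := v + 2) (q := q) (w := 2 * (d + v) + 3)
        (r := d + 4 + a) (l₂ := L 2) (l₃ := L 3) (by linarith)
        (by
          have : (2 * v : ℝ) ≤ a + 1 := by exact_mod_cast hA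
          linarith)
        (by
          have : (1 : ℝ) ≤ v := by exact_mod_cast (show 1 ≤ v by omega)
          linarith)
        (by
          have : (2 * (v + 2) : ℝ) ≤ d + 3 := by exact_mod_cast h2u
          linarith)
        (by linarith) (by ring) (by ring)
        (by
          have : (2 * (d + 4 + a) : ℝ) ≤ 7 * (d + 1) := by
            exact_mod_cast (show 2 * (d + 4 + a) ≤ 7 * (d + 1) by omega)
          exact this)
        (by
          have : (L 2 : ℝ) * (d + 1 + 1) = ((d + 1 + 1 + (a + 1 + 1)) * (d + 1) + 1)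
              * (d + 1 + 1 + (a + 1 + 1)) := by exact_mod_cast h1
          linear_combination this)
        (by
          have : (L 3 : ℝ) * (d + 1 + 2) = ((d + 1 + 1 + (a + 1 + 1)) * (d + 1) + 2)
              * L 2 := by exact_mod_cast h2
          linear_combination this)
        (by
          simp only [psi] at e1
          push_cast at e1
          convert e1 using 1
          ring)
      have e3 : ((a : ℝ) + 1 + 1) ^ 3 ≤ 17 * (d + 1) ^ 2 := by
        convert e2 using 2
        ring
      exact_mod_cast e3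

/-- A nontrivial Steiner system with `k ≤ 2t - 4` and the symmetric difference property is an
`S(5, 6, 12)`. -/
theorem main_low {t k : ℕ} {𝓑 : Finset (Finset X)} (h : St t k 𝓑) (hk : Even k)
    (hs : Sdp (k / 2) 𝓑) (htk : t < k) (hkt : k + 4 ≤ 2 * t) (hn : k < Fintype.card X) :
    t = 5 ∧ k = 6 ∧ Fintype.card X = 12 := by
  obtain ⟨s, rfl⟩ := hk
  obtain ⟨u, rfl⟩ : ∃ u, t = s + u := ⟨t - s, by omega⟩
  obtain ⟨d, rfl⟩ : ∃ d, s = d + u := ⟨s - u, by omega⟩
  rw [show (d + u + (d + u)) / 2 = d + u by omega] at hs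
  rw [show d + u + (d + u) = 2 * (d + u) by ring] at h hn
  rw [show d + u + u = d + 2 * u by ring] at h
  obtain ⟨h1, h2, h3⟩ := main_du h hs (by omega) (by omega) hn
  exact ⟨by omega, by omega, h3⟩

end Pool.Agent.MP_3e18ff_co.H58
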