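import Pool.Agent.MP_3e18ff_co.H58.W12
import Pool.Agent.MP_3e18ff_co.H58.High

/-! Explicit models of the three families. -/

namespace Pool.Agent.MP_3e18ff_co.H58

open Finset

variable {X : Type} [Fintype X] [DecidableEq X]

omit [Fintype X] in
lemma st_iff {t k : ℕ} {𝓑 : Finset (Finset X)} : St t k 𝓑 ↔
    (∀ B ∈ 𝓑, B.card = k) ∧ ∀ T : Finset X, T.card = t → ∃! B, B ∈ 𝓑 ∧ T ⊆ B := by
  constructor
  · intro h
    refine ⟨h.card, fun T hT => ?_⟩
    obtain ⟨B, hB, hTB⟩ := h.ex T hT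
    exact ⟨B, ⟨hB, hTB⟩, fun C hC => h.eq_of_subset hC.1 hB hT.ge hC.2 hTB⟩
  · rintro ⟨hcard, hsteiner⟩
    exact
      { card := hcard
        ex := fun T hT => (hsteiner T hT).exists
        uniq := fun B hB B' hB' hle => by
          obtain ⟨T, hT, hTc⟩ := Finset.exists_subset_card_eq hle
          exact (hsteiner T hTc).unique ⟨hB, hT.trans Finset.inter_subset_left⟩
            ⟨hB', hT.trans Finset.inter_subset_right⟩ }

omit [Fintype X] in
theorem ag_st {d : ℕ} {𝓑 : Finset (Finset X)} (φ : X ≃ (Fin d → ZMod 2))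
    (hφ : ∀ B : Finset X, B ∈ 𝓑 ↔ B.card = 4 ∧ ∑ x ∈ B, φ x = 0) : St 3 4 𝓑 := by
  have h2 : ∀ v : Fin d → ZMod 2, v + v = 0 := fun v => by
    funext i; exact CharTwo.add_self_eq_zero _
  have h3 : ∀ u v : Fin d → ZMod 2, u + v = 0 → u = v := fun u v h => by
    rw [← add_zero u, ← h2 v, ← add_assoc, h, zero_add]
  rw [st_iff]
  refine ⟨fun B hB => ((hφ B).mp hB).1, fun T hT => ?_⟩
  have key : ∀ B ∈ 𝓑, T ⊆ B → B = insert (φ.symm (∑ x ∈ T, φ x)) T := by
    intro B hB hTB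
    obtain ⟨h4, h5⟩ := (hφ B).mp hB
    obtain ⟨w, hw⟩ := card_eq_one.mp (show (B \ T).card = 1 by rw [card_sdiff_of_subset hTB]; omega)
    rw [← sum_sdiff hTB, hw, sum_singleton] at h5
    rw [← h3 _ _ h5, φ.symm_apply_apply, insert_eq, ← hw, sdiff_union_of_subset hTB]
  have hw : φ.symm (∑ x ∈ T, φ x) ∉ T := by
    intro hw
    set w := φ.symm (∑ x ∈ T, φ x) with hw'
    obtain ⟨y, z, hyz, e⟩ := card_eq_two.mp
      (show (T.erase w).card = 2 by rw [card_erase_of_mem hw, hT])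
    have h4 := add_sum_erase T φ hw
    rw [e, sum_pair hyz, hw', φ.apply_symm_apply, add_eq_left] at h4
    exact hyz (φ.injective (h3 _ _ h4))
  refine ⟨_, ⟨(hφ _).mpr ⟨?_, ?_⟩, subset_insert _ _⟩, fun B hB => key B hB.1 hB.2⟩
  · rw [card_insert_of_notMem hw, hT]
  · rw [sum_insert hw, φ.apply_symm_apply, h2]

/-- The projective line over the field with eleven elements, numbered. -/
noncomputable def e12 : Option (ZMod 11) ≃ Fin 12 := Equiv.ofBijective
  (fun o => o.elim 11 (fun z => ⟨z.val, z.val_lt.trans (by norm_num)⟩)) (by decide +kernel)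

lemma map_e12 {C : Finset (Option (ZMod 11))} {m : ℕ}
    (h : ∀ o, o ∈ C ↔ m.testBit (e12 o)) : C.map e12.toEmbedding = toS 12 m := by
  ext i
  simp [h]

/-- The number encoding an affine image. -/
def mk (a b : ZMod 11) (l : List ℕ) : ℕ :=
  2 ^ 11 + (l.map fun s => 2 ^ ((a.val ^ 2 * s + b.val) % 11)).sum

lemma mk_one : ∀ a b : ZMod 11, a ≠ 0 → ∀ o, o ∈ insert none (({1, 3, 4, 5, 9} : Finset (ZMod 11)).image
    fun s => some (a ^ 2 * s + b)) ↔ (mk a b [1, 3, 4, 5, 9]).testBit (e12 o) := by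
  decide +kernel

lemma mk_two : ∀ a b : ZMod 11, a ≠ 0 → ∀ o, o ∈ insert none (({0, 1, 2, 3, 5} : Finset (ZMod 11)).image
    fun s => some (a ^ 2 * s + b)) ↔ (mk a b [0, 1, 2, 3, 5]).testBit (e12 o) := by
  decide +kernel

lemma hexads_iff (C : Finset (Option (ZMod 11))) : C.map e12.toEmbedding ∈ hexads ↔
    ∃ a b : ZMod 11, a ≠ 0 ∧
      ∃ S ∈ ({{1, 3, 4, 5, 9}, {0, 1, 2, 3, 5}} : Finset (Finset (ZMod 11))),
        C = insert none (S.image fun s => some (a ^ 2 * s + b)) ∨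
        Cᶜ = insert none (S.image fun s => some (a ^ 2 * s + b)) := by
  have h1 : ∀ a b : ZMod 11, a ≠ 0 →
      mk a b [1, 3, 4, 5, 9] ∈ hexList ∧ mk a b [0, 1, 2, 3, 5] ∈ hexList := by
    decide +kernel
  have h2 : ∀ m ∈ hexList, ∃ a b : ZMod 11, a ≠ 0 ∧
      ((m = mk a b [1, 3, 4, 5, 9] ∨ m ^^^ (2 ^ 12 - 1) = mk a b [1, 3, 4, 5, 9]) ∨
      (m = mk a b [0, 1, 2, 3, 5] ∨ m ^^^ (2 ^ 12 - 1) = mk a b [0, 1, 2, 3, 5])) := by
    decide +kernel
  have hc : Cᶜ.map e12.toEmbedding = (C.map e12.toEmbedding)ᶜ := by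
    ext i
    simp
  constructor
  · intro h
    obtain ⟨m, hm, e⟩ := mem_hexads.mp h
    have e' : toS 12 (m ^^^ (2 ^ 12 - 1)) = Cᶜ.map e12.toEmbedding := by rw [toS_compl, e, hc]
    obtain ⟨a, b, ha, h4⟩ := h2 m hm
    refine ⟨a, b, ha, ?_⟩
    rcases h4 with h4 | h4
    · refine ⟨{1, 3, 4, 5, 9}, by simp, h4.imp (fun h4 => ?_) (fun h4 => ?_)⟩
      · exact map_injective _ (by rw [map_e12 (mk_one a b ha), ← e, h4])
      · exact map_injective _ (by rw [map_e12 (mk_one a b ha), ← e', h4])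
    · refine ⟨{0, 1, 2, 3, 5}, by simp, h4.imp (fun h4 => ?_) (fun h4 => ?_)⟩
      · exact map_injective _ (by rw [map_e12 (mk_two a b ha), ← e, h4])
      · exact map_injective _ (by rw [map_e12 (mk_two a b ha), ← e', h4])
  · rintro ⟨a, b, ha, S, hS, h⟩
    have h4 : (insert none (S.image fun s => some (a ^ 2 * s + b))).map e12.toEmbedding
        ∈ hexads := by
      rw [mem_insert, mem_singleton] at hS
      rcases hS with rfl | rfl
      · exact mem_hexads.mpr ⟨_, (h1 a b ha).1, (map_e12 (mk_one a b ha)).symm⟩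
      · exact mem_hexads.mpr ⟨_, (h1 a b ha).2, (map_e12 (mk_two a b ha)).symm⟩
    rcases h with h | h
    · rwa [h]
    · have h5 := hexad_compl st_hexads (Fintype.card_fin _) h4
      rwa [← h, hc, compl_compl] at h5

theorem hexad_model {𝓑 : Finset (Finset X)} : (St 5 6 𝓑 ∧ Fintype.card X = 12) ↔
    ∃ φ : X ≃ Option (ZMod 11), ∀ B : Finset X, B ∈ 𝓑 ↔ ∃ a b : ZMod 11, a ≠ 0 ∧
      ∃ S ∈ ({{1, 3, 4, 5, 9}, {0, 1, 2, 3, 5}} : Finset (Finset (ZMod 11))),
        B.image φ = insert none (S.image fun s => some (a ^ 2 * s + b)) ∨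
        Bᶜ.image φ = insert none (S.image fun s => some (a ^ 2 * s + b)) := by
  have hc : ∀ (φ : X ≃ Option (ZMod 11)) (B : Finset X), Bᶜ.image φ = (B.image φ)ᶜ := by
    intro φ B
    ext o
    obtain ⟨x, rfl⟩ := φ.surjective o
    simp
  have hm : ∀ (φ : X ≃ Option (ZMod 11)) (B : Finset X),
      (B.image φ).map e12.toEmbedding = B.map (φ.trans e12).toEmbedding := by
    intro φ B
    ext o
    obtain ⟨x, rfl⟩ := (φ.trans e12).surjective o
    simp
  constructor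
  · rintro ⟨h, hn⟩
    obtain ⟨π, hπ⟩ := unique12 (h.tr (Fintype.equivFinOfCardEq hn))
    refine ⟨((Fintype.equivFinOfCardEq hn).trans π).trans e12.symm, fun B => ?_⟩
    rw [hc, ← hexads_iff, hm, ← hπ, mem_tr, mem_tr, map_map, map_map]
    convert Iff.rfl using 2
    ext x
    simp
  · rintro ⟨φ, hφ⟩
    refine ⟨st_hexads.of_tr (φ.trans e12) fun B => ?_, ?_⟩
    · rw [hφ, hc, ← hexads_iff, hm]
    · rw [Fintype.card_congr (φ.trans e12), Fintype.card_fin]

theorem octad_model {𝓑 : Finset (Finset X)} : (St 5 8 𝓑 ∧ Fintype.card X = 24) ↔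
    ∃ φ : X ≃ Fin 24, ∀ B : Finset X, B ∈ 𝓑 ↔ B.card = 8 ∧ ∀ j < 12,
      Even (B.filter fun x => (φ x : ℕ) ∈
        ({j, j + 1, j + 5, j + 6, j + 7, j + 9, j + 11, 23} : Finset ℕ)).card := by
  have h1 : ∀ j < 12, ∀ i : Fin 24, (gen j).testBit i ↔ (i : ℕ) ∈
      ({j, j + 1, j + 5, j + 6, j + 7, j + 9, j + 11, 23} : Finset ℕ) := by
    decide +kernel
  have key : ∀ (φ : X ≃ Fin 24) (B : Finset X), B.map φ.toEmbedding ∈ octads ↔ B.card = 8 ∧
      ∀ j < 12, Even (B.filter fun x => (φ x : ℕ) ∈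
        ({j, j + 1, j + 5, j + 6, j + 7, j + 9, j + 11, 23} : Finset ℕ)).card := by
    intro φ B
    rw [mem_octads, card_map, Ker]
    refine and_congr_right fun _ => forall₂_congr fun j hj => ?_
    rw [← card_map φ.toEmbedding]
    convert Iff.rfl using 3
    ext i
    obtain ⟨x, rfl⟩ := φ.surjective i
    rw [mem_inter, mem_toS, h1 j hj]
    simp only [mem_map_equiv, Equiv.symm_apply_apply, mem_filter]
  constructor
  · rintro ⟨h, hn⟩
    obtain ⟨π, hπ⟩ := unique24 (h.tr (Fintype.equivFinOfCardEq hn))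
    refine ⟨(Fintype.equivFinOfCardEq hn).trans π, fun B => ?_⟩
    rw [← key, ← hπ, mem_tr, mem_tr, map_map, map_map]
    convert Iff.rfl using 2
    ext x
    simp
  · rintro ⟨φ, hφ⟩
    refine ⟨st_octads.of_tr φ fun B => ?_, ?_⟩
    · rw [hφ, key]
    · rw [Fintype.card_congr φ, Fintype.card_fin]

end Pool.Agent.MP_3e18ff_co.H58
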