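import Pool.Agent.MP_3e18ff_co.H58.Path

/-! Second moment estimates and the de Bruijn–Erdős bound. -/

namespace Pool.Agent.MP_3e18ff_co.H58

open Finset

variable {X : Type} [Fintype X] [DecidableEq X]

lemma sum_centered (S : Finset X) (hS : S.card < Fintype.card X) (f : X → ℝ) :
    ∑ x ∈ Sᶜ, (f x - (∑ y ∈ Sᶜ, f y) / ((Fintype.card X - S.card : ℕ) : ℝ)) = 0 := by
  have hpos : ((Fintype.card X - S.card : ℕ) : ℝ) ≠ 0 := by
    have : Fintype.card X - S.card ≠ 0 := by omega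
    exact_mod_cast this
  rw [sum_sub_distrib, sum_const, card_compl, nsmul_eq_mul]
  field_simp
  ring

lemma St.second_moment {t k : ℕ} {𝓑 : Finset (Finset X)} (h : St t k 𝓑) (htk : t ≤ k)
    (S : Finset X) (hS : S.card + 2 ≤ t) (𝓖 : Finset (Finset X)) (h𝓖 : 𝓖 ⊆ thr 𝓑 S)
    (f : X → ℝ) (θ c : ℝ) (hθ : ∑ x ∈ Sᶜ, (f x - θ) = 0)
    (hc : ∀ G ∈ 𝓖, c ≤ ∑ x ∈ G \ S, f x) (h0 : 0 ≤ c - ((k - S.card : ℕ) : ℝ) * θ) :
    (𝓖.card : ℝ) * (c - ((k - S.card : ℕ) : ℝ) * θ) ^ 2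
      ≤ ((lam (Fintype.card X) t k (S.card + 1) : ℝ) - lam (Fintype.card X) t k (S.card + 2))
        * ∑ x ∈ Sᶜ, (f x - θ) ^ 2 := by
  have h1 := h.quad htk S hS (fun x => f x - θ)
  rw [hθ] at h1
  simp only [ne_eq, OfNat.ofNat_ne_zero, not_false_eq_true, zero_pow, mul_zero, add_zero] at h1
  rw [← h1, ← nsmul_eq_mul, ← sum_const]
  refine le_trans (sum_le_sum fun G hG => ?_)
    (sum_le_sum_of_subset_of_nonneg h𝓖 fun G _ _ => sq_nonneg _)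
  have hG' := mem_thr.mp (h𝓖 hG)
  refine pow_le_pow_left₀ h0 ?_ 2
  rw [sum_sub_distrib, sum_const, card_sdiff_of_subset hG'.2, h.card G hG'.1, nsmul_eq_mul]
  linarith [hc G hG]

omit [Fintype X] in
lemma sum_deg {ι : Type} (𝓕 : Finset ι) (ℓ : ι → Finset X) (G : Finset X) :
    ∑ x ∈ G, ∑ F ∈ 𝓕, (if x ∈ ℓ F then (1 : ℝ) else 0) = ∑ F ∈ 𝓕, ((G ∩ ℓ F).card : ℝ) := by
  rw [sum_comm]
  refine sum_congr rfl fun F _ => ?_
  rw [sum_boole, filter_mem_eq_inter]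

omit [Fintype X] in
lemma sum_deg_sq {ι : Type} (𝓕 : Finset ι) (ℓ : ι → Finset X) (G : Finset X) :
    ∑ x ∈ G, (∑ F ∈ 𝓕, (if x ∈ ℓ F then (1 : ℝ) else 0)) ^ 2
      = ∑ F ∈ 𝓕, ∑ F' ∈ 𝓕, ((G ∩ (ℓ F ∩ ℓ F')).card : ℝ) := by
  simp_rw [sq, sum_mul_sum]
  rw [sum_comm]
  refine sum_congr rfl fun F _ => ?_
  rw [sum_comm]
  refine sum_congr rfl fun F' _ => ?_
  rw [← filter_mem_eq_inter, ← sum_boole]
  refine sum_congr rfl fun x _ => ?_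
  by_cases h1 : x ∈ ℓ F <;> by_cases h2 : x ∈ ℓ F' <;> simp [h1, h2]

/-- The variance of the degrees of a family of blocks through a set. -/
lemma St.lines_var {t k : ℕ} {𝓑 : Finset (Finset X)} (h : St t k 𝓑) (htk : t ≤ k)
    (S : Finset X) (hS : S.card + 2 ≤ t) (𝓛 : Finset (Finset X)) (h𝓛 : 𝓛 ⊆ thr 𝓑 S) (θ : ℝ)
    (hθ : ∑ x ∈ Sᶜ, (∑ F ∈ 𝓛, (if x ∈ F then (1 : ℝ) else 0) - θ) = 0)
    (hl : (lam (Fintype.card X) t k (S.card + 2) : ℝ) ≤ lam (Fintype.card X) t k (S.card + 1)) :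
    ∑ x ∈ Sᶜ, (∑ F ∈ 𝓛, (if x ∈ F then (1 : ℝ) else 0) - θ) ^ 2
      ≤ ((lam (Fintype.card X) t k (S.card + 1) : ℝ) - lam (Fintype.card X) t k (S.card + 2))
        * 𝓛.card := by
  set ψ : X → ℝ := fun x => ∑ F ∈ 𝓛, (if x ∈ F then (1 : ℝ) else 0) - θ with hψ
  have h1 := h.quad htk S hS ψ
  rw [hθ] at h1
  simp only [ne_eq, OfNat.ofNat_ne_zero, not_false_eq_true, zero_pow, mul_zero, add_zero] at h1
  set V := ∑ x ∈ Sᶜ, ψ x ^ 2 with hV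
  set μ := (lam (Fintype.card X) t k (S.card + 1) : ℝ) - lam (Fintype.card X) t k (S.card + 2)
  have h2 : V = ∑ F ∈ 𝓛, ∑ x ∈ F \ S, ψ x := by
    have h3 : ∀ F ∈ 𝓛, ∑ x ∈ F \ S, ψ x = ∑ x ∈ Sᶜ, (if x ∈ F then (1 : ℝ) else 0) * ψ x := by
      intro F _
      simp only [ite_mul, one_mul, zero_mul]
      rw [← sum_filter]
      congr 1
      ext x
      simp [and_comm]
    rw [sum_congr rfl h3, sum_comm]
    simp_rw [← sum_mul]
    have h4 : ∑ x ∈ Sᶜ, θ * ψ x = 0 := by rw [← mul_sum, hθ, mul_zero]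
    have h6 : ∑ x ∈ Sᶜ, (∑ F ∈ 𝓛, (if x ∈ F then (1 : ℝ) else 0)) * ψ x
        = ∑ x ∈ Sᶜ, ψ x ^ 2 + ∑ x ∈ Sᶜ, θ * ψ x := by
      rw [← sum_add_distrib]
      refine sum_congr rfl fun x _ => ?_
      simp only [hψ]
      ring
    rw [h6, h4, add_zero]
  have h5 : V ^ 2 ≤ 𝓛.card * (μ * V) := by
    calc V ^ 2 = (∑ F ∈ 𝓛, ∑ x ∈ F \ S, ψ x) ^ 2 := by rw [← h2]
      _ ≤ 𝓛.card * ∑ F ∈ 𝓛, (∑ x ∈ F \ S, ψ x) ^ 2 := sq_sum_le_card_mul_sum_sq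
      _ ≤ 𝓛.card * ∑ F ∈ thr 𝓑 S, (∑ x ∈ F \ S, ψ x) ^ 2 :=
          mul_le_mul_of_nonneg_left
            (sum_le_sum_of_subset_of_nonneg h𝓛 fun G _ _ => sq_nonneg _) (Nat.cast_nonneg _)
      _ = _ := by rw [h1]
  have hV0 : 0 ≤ V := sum_nonneg fun x _ => sq_nonneg _
  rcases hV0.eq_or_lt with h0 | h0
  · rw [← h0]
    exact mul_nonneg (sub_nonneg.mpr hl) (Nat.cast_nonneg _)
  · have : V * V ≤ V * (μ * 𝓛.card) := by nlinarith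
    exact le_of_mul_le_mul_left this h0

omit [Fintype X] in
/-- The de Bruijn–Erdős theorem for the blocks through a `(t - 2)`-set. -/
lemma St.de_bruijn_erdos {t k : ℕ} {𝓑 : Finset (Finset X)} (h : St t k 𝓑)
    (S E : Finset X) (hS : S.card + 2 = t) (hd : Disjoint S E) (hE : 2 ≤ E.card)
    (hnc : ∀ F ∈ thr 𝓑 S, ¬ E ⊆ F) :
    E.card ≤ ((thr 𝓑 S).filter (fun F => 2 ≤ (F ∩ E).card)).card := by
  set 𝓛 := (thr 𝓑 S).filter (fun F => 2 ≤ (F ∩ E).card) with h𝓛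
  have hcard : ∀ x ∈ E, ∀ y ∈ E, x ≠ y → (insert x (insert y S)).card = t := by
    intro x hx y hy hxy
    rw [card_insert_of_notMem (by simp [hxy, disjoint_right.mp hd hx]),
      card_insert_of_notMem (disjoint_right.mp hd hy)]
    omega
  have hline : ∀ x ∈ E, ∀ y ∈ E, x ≠ y → ∃ F ∈ 𝓛, x ∈ F ∧ y ∈ F := by
    intro x hx y hy hxy
    obtain ⟨F, hF, hF'⟩ := h.ex _ (hcard x hx y hy hxy)
    have hxF : x ∈ F := hF' (mem_insert_self _ _)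
    have hyF : y ∈ F := hF' (mem_insert_of_mem (mem_insert_self _ _))
    refine ⟨F, ?_, hxF, hyF⟩
    simp only [h𝓛, mem_filter, mem_thr]
    refine ⟨⟨hF, ((subset_insert _ _).trans (subset_insert _ _)).trans hF'⟩, ?_⟩
    exact one_lt_card.mpr ⟨x, mem_inter.mpr ⟨hxF, hx⟩, y, mem_inter.mpr ⟨hyF, hy⟩, hxy⟩
  have huniq : ∀ x ∈ E, ∀ y ∈ E, x ≠ y → ∀ F ∈ 𝓛, ∀ F' ∈ 𝓛, x ∈ F → y ∈ F → x ∈ F' → y ∈ F' →
      F = F' := by
    intro x hx y hy hxy F hF F' hF' h1 h2 h3 h4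
    simp only [h𝓛, mem_filter, mem_thr] at hF hF'
    exact h.eq_of_subset hF.1.1 hF'.1.1 (hcard x hx y hy hxy).ge
      (insert_subset h1 (insert_subset h2 hF.1.2)) (insert_subset h3 (insert_subset h4 hF'.1.2))
  have hoff : ∀ F ∈ 𝓛, ∃ x ∈ E, x ∉ F := by
    intro F hF
    by_contra hc
    push Not at hc
    exact hnc F (mem_filter.mp hF).1 hc
  let _ : Membership E 𝓛 := ⟨fun l p => (p : X) ∈ (l : Finset X)⟩
  have hmem : ∀ (p : E) (l : 𝓛), p ∈ l ↔ (p : X) ∈ (l : Finset X) := fun _ _ => Iff.rfl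
  let _ : Configuration.HasLines E 𝓛 :=
    { exists_point := fun l => by
        obtain ⟨x, hx, hx'⟩ := hoff l.1 l.2
        exact ⟨⟨x, hx⟩, hx'⟩
      exists_line := fun p => by
        obtain ⟨y, hy, hyp⟩ := exists_mem_ne (by omega : 1 < E.card) p.1
        obtain ⟨F, hF, hpF, hyF⟩ := hline p.1 p.2 y hy hyp.symm
        obtain ⟨x, hx, hxF⟩ := hoff F hF
        have hxy : x ≠ y := fun e => hxF (e ▸ hyF)
        obtain ⟨F', hF', hxF', hyF'⟩ := hline x hx y hy hxy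
        refine ⟨⟨F', hF'⟩, fun hp => hxF ?_⟩
        rw [huniq p.1 p.2 y hy hyp.symm F hF F' hF' hpF hyF hp hyF']
        exact hxF'
      eq_or_eq := fun {p₁ p₂ l₁ l₂} h1 h2 h3 h4 => by
        by_cases hp : p₁ = p₂
        · exact Or.inl hp
        · exact Or.inr (Subtype.ext (huniq p₁.1 p₁.2 p₂.1 p₂.2 (fun e => hp (Subtype.ext e))
            l₁.1 l₁.2 l₂.1 l₂.2 h1 h2 h3 h4))
      mkLine := fun {p₁ p₂} hp =>
        ⟨(hline p₁.1 p₁.2 p₂.1 p₂.2 (fun e => hp (Subtype.ext e))).choose,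
          (hline p₁.1 p₁.2 p₂.1 p₂.2 (fun e => hp (Subtype.ext e))).choose_spec.1⟩
      mkLine_ax := fun {p₁ p₂} hp =>
        (hline p₁.1 p₁.2 p₂.1 p₂.2 (fun e => hp (Subtype.ext e))).choose_spec.2 }
  have := Configuration.HasLines.card_le E 𝓛
  simpa using this

end Pool.Agent.MP_3e18ff_co.H58
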