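import Pool.Agent.MP_3e18ff_co.H58.HarmApp

/-! Parameters, the bound of Tits, and the bound `2u ≤ d + 3`. -/

namespace Pool.Agent.MP_3e18ff_co.H58

open Finset

variable {X : Type} [Fintype X] [DecidableEq X]

/-- Number of blocks through a `(t - j)`-set. -/
def Lm (X : Type) [Fintype X] (t k j : ℕ) : ℕ := lam (Fintype.card X) t k (t - j)

omit [DecidableEq X] in
lemma Lm_zero (t k : ℕ) : Lm X t k 0 = 1 := by simp [Lm, lam_top]

lemma St.Lm_rec {t k d : ℕ} {𝓑 : Finset (Finset X)} (h : St t k 𝓑) (hk : k = t + d)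
    (hn : k < Fintype.card X) (j : ℕ) (hj : j < t) :
    Lm X t k (j + 1) * (d + 1 + j) = (Fintype.card X + 1 - t + j) * Lm X t k j := by
  have h1 := h.lam_rec (by omega) (by omega) (t - (j + 1)) (by omega)
  have h2 : t - (j + 1) + 1 = t - j := by omega
  have h3 : k - (t - (j + 1)) = d + 1 + j := by omega
  have h4 : Fintype.card X - (t - (j + 1)) = Fintype.card X + 1 - t + j := by omega
  rw [h2, h3, h4] at h1
  exact h1

lemma St.Lm_one {t k d : ℕ} {𝓑 : Finset (Finset X)} (h : St t k 𝓑) (hk : k = t + d)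
    (hn : k < Fintype.card X) (ht : 1 ≤ t) :
    Fintype.card X + 1 = t + Lm X t k 1 * (d + 1) := by
  have h1 := h.Lm_rec hk hn 0 (by omega)
  rw [Lm_zero] at h1
  simp only [zero_add, add_zero, mul_one] at h1
  omega

lemma St.Lm_rec' {t k d : ℕ} {𝓑 : Finset (Finset X)} (h : St t k 𝓑) (hk : k = t + d)
    (hn : k < Fintype.card X) (j : ℕ) (hj : j < t) :
    Lm X t k (j + 1) * (d + 1 + j) = (Lm X t k 1 * (d + 1) + j) * Lm X t k j := by
  have h1 := h.Lm_rec hk hn j hj
  have h2 := h.Lm_one hk hn (by omega)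
  rw [h1]
  congr 2
  omega

lemma St.card_thr' {t k : ℕ} {𝓑 : Finset (Finset X)} (h : St t k 𝓑) (htk : t ≤ k) (S : Finset X)
    (j : ℕ) (hS : S.card + j = t) : (thr 𝓑 S).card = Lm X t k j := by
  rw [h.card_thr htk S (by omega), Lm]
  congr 1
  omega

lemma St.moment' {t k : ℕ} {𝓑 : Finset (Finset X)} (h : St t k 𝓑) (htk : t ≤ k) (S W : Finset X)
    (hd : Disjoint S W) (i j : ℕ) (hj : S.card + i + j = t) :
    ∑ B ∈ thr 𝓑 S, (B ∩ W).card.choose i = W.card.choose i * Lm X t k j := by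
  rw [h.moment htk S W hd i (by omega), Lm]
  congr 2
  omega

lemma St.moment_one' {t k : ℕ} {𝓑 : Finset (Finset X)} (h : St t k 𝓑) (htk : t ≤ k)
    (S W : Finset X) (hd : Disjoint S W) (j : ℕ) (hj : S.card + 1 + j = t) :
    ∑ B ∈ thr 𝓑 S, (B ∩ W).card = W.card * Lm X t k j := by
  simpa using h.moment' htk S W hd 1 j hj

lemma St.exists_pair {t k d : ℕ} {𝓑 : Finset (Finset X)} (h : St t k 𝓑) (hk : k = t + d)
    (hn : k < Fintype.card X) (ht : 1 ≤ t) :
    ∃ B₁ ∈ 𝓑, ∃ B₂ ∈ 𝓑, (B₁ ∩ B₂).card + 1 = t := by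
  have h1 := h.Lm_one hk hn ht
  obtain ⟨M, -, hM⟩ := exists_subset_card_eq (s := (univ : Finset X)) (n := t - 1)
    (by rw [card_univ]; omega)
  have h2 := h.card_thr' (by omega) M 1 (by omega)
  have h3 : 1 < (thr 𝓑 M).card := by
    rw [h2]
    by_contra hc
    have : Lm X t k 1 * (d + 1) ≤ 1 * (d + 1) := Nat.mul_le_mul_right _ (by omega)
    omega
  obtain ⟨B₁, hB₁, B₂, hB₂, hne⟩ := one_lt_card.mp h3
  rw [mem_thr] at hB₁ hB₂
  refine ⟨B₁, hB₁.1, B₂, hB₂.1, ?_⟩
  have h4 := h.inter_lt hB₁.1 hB₂.1 hne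
  have h5 := card_le_card (subset_inter hB₁.2 hB₂.2)
  omega

/-- The bound of Tits. -/
lemma St.tits {t k d : ℕ} {𝓑 : Finset (Finset X)} (h : St t k 𝓑) (hk : k = t + d)
    (hn : k < Fintype.card X) (ht : 1 ≤ t) : (t + 1) * (d + 1) ≤ Fintype.card X := by
  obtain ⟨B₁, hB₁, B₂, hB₂, hM⟩ := h.exists_pair hk hn ht
  have hc₁ := h.card B₁ hB₁
  have hc₂ := h.card B₂ hB₂
  obtain ⟨x, hx⟩ : (B₁ \ B₂).Nonempty := by
    rw [← card_pos, card_sdiff, inter_comm]; omega
  obtain ⟨y, hy⟩ : (B₂ \ B₁).Nonempty := by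
    rw [← card_pos, card_sdiff]; omega
  rw [mem_sdiff] at hx hy
  set T := insert y (insert x (B₁ ∩ B₂)) with hT
  have hxy : y ≠ x := fun e => hy.2 (e ▸ hx.1)
  have hc : (insert x (B₁ ∩ B₂)).card = t := by
    rw [card_insert_of_notMem (by simp [hx.2])]; omega
  have hTc : T.card = t + 1 := by
    rw [hT, card_insert_of_notMem (by simp [hxy, hy.2]), hc]
  have hnot : ∀ B ∈ 𝓑, ¬ T ⊆ B := by
    intro B hB hTB
    have : B = B₁ := h.eq_of_subset hB hB₁ hc.ge ((subset_insert _ _).trans hTB)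
      (insert_subset hx.1 inter_subset_left)
    exact hy.2 (this ▸ hTB (mem_insert_self _ _))
  have hex : ∀ z, ∃ B, z ∈ T → B ∈ 𝓑 ∧ T.erase z ⊆ B := by
    intro z
    by_cases hz : z ∈ T
    · obtain ⟨B, hB, hB'⟩ := h.ex (T.erase z) (by rw [card_erase_of_mem hz]; omega)
      exact ⟨B, fun _ => ⟨hB, hB'⟩⟩
    · exact ⟨∅, fun hz' => absurd hz' hz⟩
  choose β hβ using hex
  have hzβ : ∀ z ∈ T, z ∉ β z := by
    intro z hz hzz
    apply hnot _ (hβ z hz).1
    rw [← insert_erase hz]
    exact insert_subset hzz (hβ z hz).2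
  have hcard : ∀ z ∈ T, (β z \ T).card = d := by
    intro z hz
    have h1 : T ∩ β z = T.erase z := by
      ext a
      simp only [mem_inter, mem_erase]
      constructor
      · rintro ⟨h1, h2⟩
        exact ⟨fun e => hzβ z hz (e ▸ h2), h1⟩
      · rintro ⟨h1, h2⟩
        exact ⟨h2, (hβ z hz).2 (mem_erase.mpr ⟨h1, h2⟩)⟩
    rw [card_sdiff, h1, card_erase_of_mem hz, h.card _ (hβ z hz).1]
    omega
  have hdisj : (T : Set X).PairwiseDisjoint (fun z => β z \ T) := by
    intro z hz z' hz' hne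
    rw [Function.onFun, disjoint_left]
    intro a ha ha'
    rw [mem_sdiff] at ha ha'
    have hz1 : z ∈ T := hz
    have hz2 : z' ∈ T := hz'
    have h1 : β z = β z' := by
      refine h.eq_of_subset (T := insert a ((T.erase z).erase z')) (hβ z hz1).1 (hβ z' hz2).1 ?_ ?_ ?_
      · rw [card_insert_of_notMem (by simp [ha.2]),
          card_erase_of_mem (mem_erase.mpr ⟨hne.symm, hz2⟩), card_erase_of_mem hz1]
        omega
      · exact insert_subset ha.1 ((erase_subset _ _).trans (hβ z hz1).2)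
      · refine insert_subset ha'.1 (Subset.trans ?_ (hβ z' hz2).2)
        exact erase_subset_erase _ (erase_subset _ _)
    apply hzβ z hz1
    rw [h1]
    exact (hβ z' hz2).2 (mem_erase.mpr ⟨hne, hz1⟩)
  have h2 : (T.biUnion (fun z => β z \ T)).card = (t + 1) * d := by
    rw [card_biUnion hdisj, sum_congr rfl hcard, sum_const, smul_eq_mul, hTc]
  have h3 : Disjoint T (T.biUnion (fun z => β z \ T)) := by
    rw [disjoint_biUnion_right]
    exact fun z _ => disjoint_sdiff
  have h4 := card_le_univ (T ∪ T.biUnion (fun z => β z \ T))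
  rw [card_union_of_disjoint h3, h2, hTc] at h4
  linarith

/-- The bound `2u ≤ d + 3`. -/
lemma two_u_le {d u : ℕ} {𝓑 : Finset (Finset X)} (h : St (d + 2 * u) (2 * (d + u)) 𝓑)
    (hs : Sdp (d + u) 𝓑) (hd : 1 ≤ d) (hu : 2 ≤ u) (hn : 2 * (d + u) < Fintype.card X) :
    2 * u ≤ d + 3 := by
  have hk : 2 * (d + u) = d + 2 * u + d := by ring
  obtain ⟨B₁, hB₁, B₂, hB₂, hM⟩ := h.exists_pair hk hn (by omega)
  rcases Nat.even_or_odd d with hev | hodd
  · have hc : (B₁ \ B₂).card = d + 1 := by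
      rw [card_sdiff, inter_comm, h.card _ hB₁]; omega
    obtain ⟨V, hV, hVc⟩ := exists_subset_card_eq (s := B₁ \ B₂) (n := 2) (by omega)
    have := harm_bound h (by omega) hs hB₂ (V := V) (disjoint_of_subset_left hV disjoint_sdiff_self_left)
      (w := d) (J := d + 2 * u - 1) hev (by omega) (by omega) (by omega) hB₁
      (hV.trans sdiff_subset) (by omega)
    omega
  · -- a block meeting `B₂` in exactly `t - 2` points
    have hc₂ := h.card _ hB₂
    obtain ⟨S, hS, hSc⟩ := exists_subset_card_eq (s := B₂) (n := d + 2 * u - 2) (by omega)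
    have hex : ∃ H ∈ thr 𝓑 S, H ∩ (B₂ \ S) = ∅ := by
      by_contra hcon
      push Not at hcon
      have hW : (B₂ \ S).card = d + 2 := by rw [card_sdiff_of_subset hS]; omega
      have h1 := h.moment_one' (by omega) S (B₂ \ S) disjoint_sdiff 1 (by omega)
      have h2 := h.card_thr' (by omega) S 2 (by omega)
      have h3 : ∀ H ∈ thr 𝓑 S, (H ∩ (B₂ \ S)).card = 1 + if H = B₂ then d + 1 else 0 := by
        intro H hH
        by_cases hHB : H = B₂
        · rw [if_pos hHB, hHB, inter_eq_right.mpr sdiff_subset, hW]; ring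
        · rw [if_neg hHB]
          have h4 := card_pos.mpr (hcon H hH)
          rw [mem_thr] at hH
          have h5 := h.inter_lt hH.1 hB₂ hHB
          have h6 : S ∪ H ∩ (B₂ \ S) ⊆ H ∩ B₂ := by
            intro a ha
            simp only [mem_union, mem_inter, mem_sdiff] at ha ⊢
            rcases ha with ha | ha
            · exact ⟨hH.2 ha, hS ha⟩
            · exact ⟨ha.1, ha.2.1⟩
          have h7 := card_le_card h6
          rw [card_union_of_disjoint (disjoint_of_subset_right inter_subset_right disjoint_sdiff)]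
            at h7
          omega
      rw [sum_congr rfl h3, sum_add_distrib, sum_const, smul_eq_mul, mul_one, h2, hW,
        sum_ite_eq' (thr 𝓑 S) B₂, if_pos (by simp [hB₂, hS])] at h1
      have h4 := h.Lm_rec' hk hn 1 (by omega)
      have h5 := h.Lm_one hk hn (by omega)
      have h6 := h.tits hk hn (by omega)
      set r := Lm X (d + 2 * u) (2 * (d + u)) 1
      set l := Lm X (d + 2 * u) (2 * (d + u)) 2
      have h7 : (d + 1 : ℤ) * ((r - 1) * (r - (d + 2))) = 0 := by
        have h1' : (l : ℤ) + (d + 1) = (d + 2) * r := by exact_mod_cast h1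
        have h4' : (l : ℤ) * (d + 1 + 1) = (r * (d + 1) + 1) * r := by exact_mod_cast h4
        linear_combination (d + 2 : ℤ) * h1' - h4'
      have h8 : d + 3 ≤ r := by
        by_contra hc
        have : r * (d + 1) ≤ (d + 2) * (d + 1) := Nat.mul_le_mul_right _ (by omega)
        nlinarith
      have h9 : (0 : ℤ) < (d + 1 : ℤ) * ((r - 1) * (r - (d + 2))) := by
        have : (d : ℤ) + 3 ≤ r := by exact_mod_cast h8
        have hd0 : (0 : ℤ) ≤ d := Int.natCast_nonneg d
        apply mul_pos (by linarith) (mul_pos (by linarith) (by linarith))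
      omega
    obtain ⟨H, hH, hHe⟩ := hex
    rw [mem_thr] at hH
    have hHB : H ∩ B₂ = S := by
      apply Subset.antisymm
      · intro a ha
        by_contra haS
        have : a ∈ H ∩ (B₂ \ S) := by
          simp only [mem_inter, mem_sdiff] at ha ⊢
          exact ⟨ha.1, ha.2, haS⟩
        rw [hHe] at this
        exact notMem_empty _ this
      · exact subset_inter hH.2 hS
    have hc : (H \ B₂).card = d + 2 := by
      rw [card_sdiff, inter_comm, hHB, h.card _ hH.1]; omega
    obtain ⟨V, hV, hVc⟩ := exists_subset_card_eq (s := H \ B₂) (n := 3) (by omega)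
    have := harm_bound h (by omega) hs hB₂ (V := V) (disjoint_of_subset_left hV disjoint_sdiff_self_left)
      (w := d + 1) (J := d + 2 * u - 2) hodd.add_one (by omega) (by omega) (by omega) hH.1
      (hV.trans sdiff_subset) (by rw [hHB, hSc])
    obtain ⟨e, he⟩ := hodd
    omega

end Pool.Agent.MP_3e18ff_co.H58
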