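import Pool.Agent.MP_3e18ff_co.H58.Params

/-! The path lemma and the cubic moment test. -/

namespace Pool.Agent.MP_3e18ff_co.H58

open Finset

variable {X : Type} [Fintype X] [DecidableEq X]

omit [Fintype X] in
lemma path_one {s u : ℕ} {𝓑 : Finset (Finset X)} (h : St (s + u) (2 * s) 𝓑) (hs : Sdp s 𝓑)
    {B₁ B₂ C F : Finset X} (hB₁ : B₁ ∈ 𝓑) (hB₂ : B₂ ∈ 𝓑) (hC₁ : C ⊆ B₁) (hC₂ : C ⊆ B₂)
    (hCc : C.card = s) {z : X} (hz₁ : z ∈ B₁) (hz₂ : z ∈ B₂) (hzC : z ∉ C)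
    (hF : F ∈ 𝓑) (hAF : B₁ \ C ⊆ F) (hU : u ≤ (F ∩ (B₂ \ B₁)).card) :
    (F ∩ C).Nonempty := by
  by_contra hne
  rw [not_nonempty_iff_eq_empty] at hne
  have hFC : ∀ x ∈ C, x ∉ F := fun x hx hxF => by
    have : x ∈ F ∩ C := mem_inter.mpr ⟨hxF, hx⟩
    rw [hne] at this
    exact notMem_empty _ this
  have h1 : F ∩ B₁ = B₁ \ C := by
    ext x
    simp only [mem_inter, mem_sdiff]
    exact ⟨fun hx => ⟨hx.2, fun hc => hFC x hc hx.1⟩, fun hx => ⟨hAF (mem_sdiff.mpr hx), hx.1⟩⟩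
  have h2 := hs F hF B₁ hB₁ (by rw [h1, card_sdiff_of_subset hC₁, h.card _ hB₁]; omega)
  have h3 : symmDiff F B₁ = B₂ := by
    refine h.eq_of_subset (T := C ∪ F ∩ (B₂ \ B₁)) h2 hB₂ ?_ ?_ ?_
    · rw [card_union_of_disjoint]
      · omega
      · rw [disjoint_left]
        intro x hx hx'
        exact hFC x hx (mem_inter.mp hx').1
    · intro x hx
      simp only [mem_union, mem_inter, mem_sdiff, mem_symmDiff] at hx ⊢
      rcases hx with hx | hx
      · exact Or.inr ⟨hC₁ hx, hFC x hx⟩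
      · exact Or.inl ⟨hx.1, hx.2.2⟩
    · exact union_subset hC₂ (inter_subset_right.trans sdiff_subset)
  rw [← h3, mem_symmDiff] at hz₂
  have hzF : z ∈ F := hAF (mem_sdiff.mpr ⟨hz₁, hzC⟩)
  tauto

omit [Fintype X] in
lemma path_two {s u : ℕ} {𝓑 : Finset (Finset X)} (h : St (s + u) (2 * s) 𝓑) (hs : Sdp s 𝓑)
    {B₁ B₂ C F H : Finset X} (hB₁ : B₁ ∈ 𝓑) (hB₂ : B₂ ∈ 𝓑) (hC₁ : C ⊆ B₁) (hC₂ : C ⊆ B₂)
    (hCc : C.card = s) {z : X} (hz₁ : z ∈ B₁) (hz₂ : z ∈ B₂) (hzC : z ∉ C)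
    (hF : F ∈ 𝓑) (hAF : B₁ \ C ⊆ F) (hU : u ≤ (F ∩ (B₂ \ B₁)).card)
    (hH : H ∈ 𝓑) (hCH : C ⊆ H) (hH₁ : ∀ x ∈ H, x ∈ B₁ → x ∈ C) (hH₂ : ∀ x ∈ H, x ∈ B₂ → x ∈ C) :
    ∃ x ∈ H, x ∈ F ∧ x ∉ B₁ ∧ x ∉ B₂ := by
  by_contra hcon
  push Not at hcon
  have hHF : ∀ x ∈ H, x ∈ F → x ∈ C := by
    intro x hx hxF
    by_cases h1 : x ∈ B₁
    · exact hH₁ x hx h1
    · exact hH₂ x hx (hcon x hx hxF h1)
  have e1 : H ∩ B₁ = C := by
    ext x
    simp only [mem_inter]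
    exact ⟨fun hx => hH₁ x hx.1 hx.2, fun hx => ⟨hCH hx, hC₁ hx⟩⟩
  have e2 : H ∩ B₂ = C := by
    ext x
    simp only [mem_inter]
    exact ⟨fun hx => hH₂ x hx.1 hx.2, fun hx => ⟨hCH hx, hC₂ hx⟩⟩
  have m1 := hs H hH B₁ hB₁ (by rw [e1, hCc])
  have m2 := hs H hH B₂ hB₂ (by rw [e2, hCc])
  have e3 : symmDiff H B₁ ∩ F = B₁ \ C := by
    ext x
    simp only [mem_inter, mem_symmDiff, mem_sdiff]
    constructor
    · rintro ⟨h1 | h1, h2⟩
      · exact absurd (hC₁ (hHF x h1.1 h2)) h1.2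
      · exact ⟨h1.1, fun hc => h1.2 (hCH hc)⟩
    · rintro ⟨h1, h2⟩
      exact ⟨Or.inr ⟨h1, fun hx => h2 (hH₁ x hx h1)⟩, hAF (mem_sdiff.mpr ⟨h1, h2⟩)⟩
  have m3 := hs _ m1 F hF (by rw [e3, card_sdiff_of_subset hC₁, h.card _ hB₁]; omega)
  have h3 : symmDiff (symmDiff H B₁) F = symmDiff H B₂ := by
    refine h.eq_of_subset (T := (H \ C) ∪ F ∩ (B₂ \ B₁)) m3 m2 ?_ ?_ ?_
    · rw [card_union_of_disjoint]
      · rw [card_sdiff_of_subset hCH, h.card _ hH]; omega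
      · rw [disjoint_left]
        intro x hx hx'
        rw [mem_sdiff] at hx
        exact hx.2 (hHF x hx.1 (mem_inter.mp hx').1)
    · intro x hx
      simp only [mem_union, mem_inter, mem_sdiff, mem_symmDiff] at hx ⊢
      rcases hx with hx | hx
      · exact Or.inl ⟨Or.inl ⟨hx.1, fun h1 => hx.2 (hH₁ x hx.1 h1)⟩, fun h1 => hx.2 (hHF x hx.1 h1)⟩
      · refine Or.inr ⟨hx.1, ?_⟩
        rintro (h1 | h1)
        · exact hx.2.2 (hC₁ (hHF x h1.1 hx.1))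
        · exact hx.2.2 h1.1
    · intro x hx
      simp only [mem_union, mem_inter, mem_sdiff, mem_symmDiff] at hx ⊢
      rcases hx with hx | hx
      · exact Or.inl ⟨hx.1, fun h1 => hx.2 (hH₂ x hx.1 h1)⟩
      · exact Or.inr ⟨hx.2.1, fun h1 => hx.2.2 (hC₁ (hH₂ x h1 hx.2.1))⟩
  have hzH : z ∉ H := fun h1 => hzC (hH₁ z h1 hz₁)
  have hzF : z ∈ F := hAF (mem_sdiff.mpr ⟨hz₁, hzC⟩)
  have h4 : z ∈ symmDiff H B₂ := mem_symmDiff.mpr (Or.inr ⟨hz₂, hzH⟩)
  rw [← h3] at h4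
  simp only [mem_symmDiff] at h4
  tauto

omit [Fintype X] in
/-- The part of `F` outside the two blocks is small. -/
lemma card_out {s : ℕ} {B₁ B₂ C F : Finset X} (hB₁ : B₁.card = 2 * s) (hF : F.card = 2 * s)
    (hC₁ : C ⊆ B₁) (hCc : C.card = s) (hAF : B₁ \ C ⊆ F) (hFC : (F ∩ C).Nonempty) :
    (F \ (B₁ ∪ B₂)).card + (F ∩ (B₂ \ B₁)).card + 1 ≤ s := by
  obtain ⟨c, hc⟩ := hFC
  rw [mem_inter] at hc
  have h1 : insert c (B₁ \ C) ⊆ F ∩ B₁ :=
    insert_subset (mem_inter.mpr ⟨hc.1, hC₁ hc.2⟩) (subset_inter hAF sdiff_subset)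
  have h2 := card_le_card h1
  rw [card_insert_of_notMem (by simp [hc.2]), card_sdiff_of_subset hC₁] at h2
  have h3 : (F \ (B₁ ∪ B₂)) ∪ (F ∩ (B₂ \ B₁)) ⊆ F \ B₁ := by
    intro x hx
    simp only [mem_union, mem_sdiff, mem_inter] at hx ⊢
    tauto
  have h4 := card_le_card h3
  rw [card_union_of_disjoint (by
    rw [disjoint_left]
    intro x hx hx'
    simp only [mem_union, mem_sdiff, mem_inter] at hx hx'
    tauto), card_sdiff (s := B₁), inter_comm B₁ F] at h4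
  have h5 : (F ∩ B₁).card ≤ F.card := card_le_card inter_subset_left
  omega

lemma two_mul_choose_two (x : ℕ) : 2 * (x.choose 2 : ℤ) = x * (x - 1) := by
  induction x with
  | zero => simp
  | succ n ih =>
    rw [Nat.choose_succ_succ' n 1, Nat.choose_one_right]
    push_cast
    linear_combination ih

lemma six_mul_choose_three (x : ℕ) : 6 * (x.choose 3 : ℤ) = x * (x - 1) * (x - 2) := by
  induction x with
  | zero => simp
  | succ n ih =>
    rw [Nat.choose_succ_succ' n 2]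
    push_cast
    linear_combination ih + 3 * two_mul_choose_two n

/-- The cubic test function. -/
def psi (r l₂ l₃ w : ℤ) : ℤ := 12 * l₃ - 12 * w * l₂ + 5 * w * (w - 1) * r - w * (w - 1) * (w - 2)

lemma St.cubic {t k : ℕ} {𝓑 : Finset (Finset X)} (h : St t k 𝓑) (htk : t ≤ k) (S W : Finset X)
    (hS : S.card + 3 = t) (hd : Disjoint S W) (w : ℕ) (hw : W.card ≤ w)
    (hwn : w + S.card ≤ Fintype.card X) :
    psi (Lm X t k 1) (Lm X t k 2) (Lm X t k 3) w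
      ≤ 12 * (((thr 𝓑 S).filter (fun H => Disjoint H W)).card : ℤ) := by
  obtain ⟨W', hWW, hW'S, hW'c⟩ := exists_subsuperset_card_eq (s := W) (t := Sᶜ) (n := w)
    (fun x hx => mem_compl.mpr (disjoint_right.mp hd hx)) hw (by rw [card_compl]; omega)
  have hd' : Disjoint S W' := by
    rw [disjoint_right]
    exact fun x hx => mem_compl.mp (hW'S hx)
  have m0 := h.card_thr' htk S 3 hS
  have m1 := h.moment_one' htk S W' hd' 2 (by omega)
  have m2 := h.moment' htk S W' hd' 2 1 (by omega)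
  have m3 := h.moment' htk S W' hd' 3 0 (by omega)
  rw [Lm_zero] at m3
  rw [hW'c] at m1 m2 m3
  have hpt : ∀ H ∈ thr 𝓑 S, 12 - 12 * ((H ∩ W').card : ℤ) + 10 * ((H ∩ W').card.choose 2 : ℤ)
      - 6 * ((H ∩ W').card.choose 3 : ℤ) ≤ 12 * (if Disjoint H W then 1 else 0) := by
    intro H _
    have e2 := two_mul_choose_two (H ∩ W').card
    have e3 := six_mul_choose_three (H ∩ W').card
    by_cases hH : (H ∩ W').card = 0
    · have : Disjoint H W := by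
        rw [card_eq_zero, ← disjoint_iff_inter_eq_empty] at hH
        exact disjoint_of_subset_right hWW hH
      rw [if_pos this, hH]; simp
    · have h0 : (0 : ℤ) ≤ 12 * (if Disjoint H W then 1 else 0) := by split_ifs <;> simp
      set x := (H ∩ W').card
      have hx : (1 : ℤ) ≤ x := by exact_mod_cast Nat.one_le_iff_ne_zero.mpr hH
      have h34 : (0 : ℤ) ≤ ((x : ℤ) - 3) * (x - 4) := by
        rcases le_or_gt (x : ℤ) 3 with h1 | h1
        · exact mul_nonneg_of_nonpos_of_nonpos (by linarith) (by linarith)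
        · exact mul_nonneg (by linarith) (by linarith)
      have := mul_nonneg (sub_nonneg.mpr hx) h34
      nlinarith
  have hsum := sum_le_sum hpt
  rw [← mul_sum, sum_boole, sum_sub_distrib, sum_add_distrib, sum_sub_distrib, ← mul_sum,
    ← mul_sum, ← mul_sum, sum_const, ← Nat.cast_sum, ← Nat.cast_sum, ← Nat.cast_sum,
    m0, m1, m2, m3] at hsum
  have e2 := two_mul_choose_two w
  have e3 := six_mul_choose_three w
  simp only [nsmul_eq_mul] at hsum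
  push_cast at hsum
  unfold psi
  nlinarith

/-- A set meeting all blocks through a `(t - 1)`-set has at least `r` points. -/
lemma St.blocking {t k : ℕ} {𝓑 : Finset (Finset X)} (h : St t k 𝓑) (htk : t ≤ k) (S W : Finset X)
    (hS : S.card + 1 = t) (hd : Disjoint S W) (hW : ∀ H ∈ thr 𝓑 S, ¬ Disjoint H W) :
    Lm X t k 1 ≤ W.card := by
  have m0 := h.card_thr' htk S 1 hS
  have m1 := h.moment_one' htk S W hd 0 (by omega)
  rw [Lm_zero, mul_one] at m1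
  rw [← m0, ← m1, card_eq_sum_ones]
  refine sum_le_sum fun H hH => ?_
  have := hW H hH
  rw [disjoint_iff_inter_eq_empty, ← Ne, ← nonempty_iff_ne_empty] at this
  exact card_pos.mpr this

end Pool.Agent.MP_3e18ff_co.H58
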