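import Pool.Agent.MP_3e18ff_co.H58.Basic

/-! A verified search for Steiner systems `S(5, k, n)` with relabelling of points. -/

namespace Pool.Agent.MP_3e18ff_co.H58

open Finset

/-- Transport of a family along a bijection. -/
def tr {X Y : Type} [DecidableEq Y] (e : X ≃ Y) (𝓑 : Finset (Finset X)) : Finset (Finset Y) :=
  𝓑.image (fun B => B.map e.toEmbedding)

section Transport

variable {X Y : Type} [DecidableEq X] [DecidableEq Y]

omit [DecidableEq X] [DecidableEq Y] in
lemma map_symm_map (e : X ≃ Y) (B : Finset X) :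
    (B.map e.toEmbedding).map e.symm.toEmbedding = B := by
  ext x; simp

omit [DecidableEq X] [DecidableEq Y] in
lemma map_map_symm (e : X ≃ Y) (B : Finset Y) :
    (B.map e.symm.toEmbedding).map e.toEmbedding = B := by
  ext x; simp

omit [DecidableEq X] in
lemma mem_tr {e : X ≃ Y} {𝓑 : Finset (Finset X)} {B : Finset Y} :
    B ∈ tr e 𝓑 ↔ B.map e.symm.toEmbedding ∈ 𝓑 := by
  rw [tr, mem_image]
  constructor
  · rintro ⟨C, hC, rfl⟩
    rwa [map_symm_map]
  · exact fun h => ⟨_, h, map_map_symm e B⟩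

omit [DecidableEq X] in
lemma map_mem_tr {e : X ≃ Y} {𝓑 : Finset (Finset X)} {B : Finset X} :
    B.map e.toEmbedding ∈ tr e 𝓑 ↔ B ∈ 𝓑 := by
  rw [mem_tr, map_symm_map]

lemma St.tr {t k : ℕ} {𝓑 : Finset (Finset X)} (h : St t k 𝓑) (e : X ≃ Y) : St t k (tr e 𝓑) where
  card B hB := by rw [← h.card _ (mem_tr.mp hB), card_map]
  ex T hT := by
    obtain ⟨B, hB, hTB⟩ := h.ex (T.map e.symm.toEmbedding) (by rw [card_map, hT])
    refine ⟨_, map_mem_tr.mpr hB, ?_⟩
    rw [← map_map_symm e T]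
    exact map_subset_map.mpr hTB
  uniq B hB B' hB' hle := by
    have := h.uniq _ (mem_tr.mp hB) _ (mem_tr.mp hB') (by rwa [← map_inter, card_map])
    exact map_injective _ this

lemma St.of_tr {t k : ℕ} {𝓑 : Finset (Finset X)} {𝓒 : Finset (Finset Y)} (h : St t k 𝓒)
    (e : X ≃ Y) (he : ∀ B, B ∈ 𝓑 ↔ B.map e.toEmbedding ∈ 𝓒) : St t k 𝓑 := by
  have : 𝓑 = H58.tr e.symm 𝓒 := by
    ext B
    rw [he, mem_tr, Equiv.symm_symm]
  rw [this]
  exact h.tr _

lemma St.eq_of_sub {t k : ℕ} {𝓑 𝓒 : Finset (Finset X)} (h : St t k 𝓑) (h' : St t k 𝓒)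
    (htk : t ≤ k) (hsub : 𝓑 ⊆ 𝓒) : 𝓑 = 𝓒 := by
  refine Subset.antisymm hsub fun C hC => ?_
  obtain ⟨T, hT, hTc⟩ := exists_subset_card_eq (s := C) (n := t) (by rw [h'.card C hC]; exact htk)
  obtain ⟨B, hB, hTB⟩ := h.ex T hTc
  rwa [h'.eq_of_subset hC (hsub hB) hTc.ge hT hTB]

end Transport

/-- The set of points encoded by a number. -/
def toS (n m : ℕ) : Finset (Fin n) := univ.filter (fun i => m.testBit i)

/-- The number of ones among the first `n` binary digits. -/
def pc : ℕ → ℕ → ℕ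
  | 0, _ => 0
  | n + 1, m => pc n m + (m.testBit n).toNat

@[simp] lemma mem_toS {n m : ℕ} {i : Fin n} : i ∈ toS n m ↔ m.testBit i := by simp [toS]

lemma card_toS (n m : ℕ) : (toS n m).card = pc n m := by
  rw [toS, card_filter, Fin.sum_univ_eq_sum_range (fun i => if m.testBit i then 1 else 0)]
  induction n with
  | zero => simp [pc]
  | succ n ih =>
    rw [sum_range_succ, ih, pc]
    cases m.testBit n <;> simp

lemma pc_add (a b m : ℕ) : pc (a + b) m = pc a m + pc b (m / 2 ^ a) := by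
  induction b with
  | zero => rfl
  | succ b ih => rw [← add_assoc, pc, pc, ih, Nat.testBit_div_two_pow, add_comm b a, add_assoc]

lemma pc_mod {a b : ℕ} (h : b ≤ a) (m : ℕ) : pc b (m % 2 ^ a) = pc b m := by
  induction b with
  | zero => rfl
  | succ b ih => rw [pc, pc, ih (by omega), Nat.testBit_mod_two_pow, decide_eq_true (by omega),
      Bool.true_and]

/-- A table of digit sums. -/
def tb (x : ℕ) : ℕ := Nat.mod (Nat.shiftRight
  95125173855764218123276304889944061997689682402263585766959741291920687686033329201817409157123347502415384089435969498586180241031507595463600295898153685276653211633572815512294064538494957912327413386667662218713394765509704508661031522276467630197481635010039778342554499416459730172574551513689147646224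
  (Nat.mul 4 (Nat.mod x 256))) 16

lemma tb_eq (x : ℕ) : tb x = pc 8 x := by
  have h : ∀ y < 256, tb y = pc 8 y := by decide +kernel
  rw [← pc_mod le_rfl x, ← h (x % 2 ^ 8) (Nat.mod_lt x (show 0 < 256 by norm_num))]
  have : Nat.mod (x % 2 ^ 8) 256 = Nat.mod x 256 := Nat.mod_mod x 256
  rw [tb, tb, this]

/-- A fast digit sum. -/
def pq (m : ℕ) : ℕ := Nat.add (Nat.add (tb m) (tb (Nat.div m 256))) (tb (Nat.div m 65536))

lemma pq_eq : pq = pc 24 := by
  funext m
  rw [pc_add 16 8, pc_add 8 8, ← tb_eq, ← tb_eq, ← tb_eq]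
  rfl

lemma toS_and (n a b : ℕ) : toS n (a &&& b) = toS n a ∩ toS n b := by
  ext i; simp

lemma toS_xor (n a b : ℕ) : toS n (a ^^^ b) = symmDiff (toS n a) (toS n b) := by
  ext i
  simp only [mem_toS, Nat.testBit_xor, mem_symmDiff]
  cases a.testBit i <;> cases b.testBit i <;> simp

lemma toS_or (n a : ℕ) (x : Fin n) : toS n (a ||| 2 ^ (x : ℕ)) = insert x (toS n a) := by
  ext i
  simp only [mem_toS, Nat.testBit_or, Nat.testBit_two_pow, mem_insert, Bool.or_eq_true,
    decide_eq_true_eq, Fin.ext_iff]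
  tauto

lemma toS_compl (n a : ℕ) : toS n (a ^^^ (2 ^ n - 1)) = (toS n a)ᶜ := by
  ext i
  simp [Nat.testBit_two_pow_sub_one]

lemma exists_toS {n : ℕ} (B : Finset (Fin n)) : ∃ m < 2 ^ n, toS n m = B :=
  ⟨Nat.ofBits (fun i => decide (i ∈ B)), Nat.ofBits_lt_two_pow _, by
    ext i
    simp [Nat.testBit_ofBits_lt _ _ i.2]⟩

/-- Extending a list of blocks by certified operations. -/
def derive (ok : ℕ → ℕ → Bool) (op : ℕ → ℕ → ℕ) : List (ℕ × ℕ) → List ℕ → List ℕ
  | [], D => D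
  | (a, b) :: r, D =>
    if D.contains a && D.contains b && ok a b then derive ok op r (op a b :: D) else D

lemma derive_sound {ok : ℕ → ℕ → Bool} {op : ℕ → ℕ → ℕ} {Q : ℕ → Prop}
    (hop : ∀ a b, Q a → Q b → ok a b → Q (op a b)) (c : List (ℕ × ℕ)) (D : List ℕ)
    (hD : ∀ d ∈ D, Q d) : ∀ d ∈ derive ok op c D, Q d := by
  induction c generalizing D with
  | nil => exact hD
  | cons p r ih =>
    obtain ⟨a, b⟩ := p
    rw [derive]
    split_ifs with h
    · simp only [Bool.and_eq_true, List.contains_iff_mem] at h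
      refine ih _ fun d hd => ?_
      rcases List.mem_cons.mp hd with rfl | hd
      · exact hop a b (hD a h.1.1) (hD b h.1.2) h.2
      · exact hD d hd
    · exact hD

/-- All ways of completing `T` to a block are, up to relabelling, excluded or equal to `c`. -/
def qchk (n : ℕ) (f : ℕ → ℕ) (bad : ℕ → Bool) (L D : List ℕ) (c : ℕ) : ℕ → ℕ → Bool
  | 0, T => D.any (fun d => bad (f (T &&& d))) || T == c
  | r + 1, T => (List.range n).all fun x => T.testBit x
      || (List.range x).any (fun y => !T.testBit y && L.all fun m => m.testBit x == m.testBit y)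
      || D.any (fun d => decide (5 ≤ f ((T ||| 2 ^ x) &&& d))
          && decide (f ((T ||| 2 ^ x) &&& d) < f (T ||| 2 ^ x)))
      || qchk n f bad L D c r (T ||| 2 ^ x)

lemma map_swap_toS {n m : ℕ} {x y : Fin n} (h : m.testBit x = m.testBit y) :
    (toS n m).map (Equiv.swap x y).toEmbedding = toS n m := by
  ext i
  simp only [mem_map_equiv, mem_toS, Equiv.symm_swap]
  rw [Equiv.swap_apply_def]
  split_ifs with h1 h2
  · rw [h1, h]
  · rw [h2, h]
  · rfl

lemma qchk_sound {n k : ℕ} {bad : ℕ → Bool} {L D : List ℕ} {c : ℕ}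
    {G : Finset (Finset (Fin n)) → Prop} (hG : ∀ σ 𝓑, G (tr σ 𝓑) → G 𝓑)
    (hbad : ∀ 𝓑 : Finset (Finset (Fin n)), St 5 k 𝓑 → ∀ B ∈ 𝓑, ∀ C ∈ 𝓑, bad (B ∩ C).card = false)
    (hD : ∀ 𝓑, St 5 k 𝓑 → (∀ m ∈ L, toS n m ∈ 𝓑) → ∀ d ∈ D, toS n d ∈ 𝓑)
    (hc : ∀ 𝓑, St 5 k 𝓑 → (∀ m ∈ c :: L, toS n m ∈ 𝓑) → G 𝓑) (r T : ℕ)
    (h : qchk n (pc n) bad L D c r T = true) (hT : pc n T + r = k) :
    ∀ 𝓑, St 5 k 𝓑 → (∀ m ∈ L, toS n m ∈ 𝓑) → ∀ B ∈ 𝓑, toS n T ⊆ B → G 𝓑 := by
  induction r generalizing T with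
  | zero =>
    intro 𝓑 hs hL B hB hTB
    have e : toS n T = B := eq_of_subset_of_card_le hTB (by rw [card_toS, hs.card B hB]; omega)
    simp only [qchk, Bool.or_eq_true, List.any_eq_true, beq_iff_eq] at h
    rcases h with ⟨d, hd, h⟩ | rfl
    · have := hbad 𝓑 hs B hB _ (hD 𝓑 hs hL d hd)
      rw [← e, ← toS_and, card_toS, h] at this
      exact absurd this (by simp)
    · refine hc 𝓑 hs fun m hm => ?_
      rcases List.mem_cons.mp hm with rfl | hm
      · rwa [e]
      · exact hL m hm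
  | succ r ih =>
    have key : ∀ j : ℕ, ∀ x : Fin n, (x : ℕ) = j → x ∉ toS n T → ∀ 𝓑, St 5 k 𝓑 →
        (∀ m ∈ L, toS n m ∈ 𝓑) → ∀ B ∈ 𝓑, toS n T ⊆ B → x ∈ B → G 𝓑 := by
      intro j
      induction j using Nat.strong_induction_on with
      | _ j ihj =>
        intro x hx hxT 𝓑 hs hL B hB hTB hxB
        simp only [qchk, List.all_eq_true, List.mem_range, Bool.or_eq_true, List.any_eq_true,
          Bool.and_eq_true, decide_eq_true_eq, Bool.not_eq_true', beq_iff_eq] at h
        have hsub : toS n (T ||| 2 ^ (x : ℕ)) ⊆ B := by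
          rw [toS_or]; exact insert_subset hxB hTB
        rcases h x x.2 with ((h1 | ⟨y, hy, h1, h2⟩) | ⟨d, hd, h1, h2⟩) | h1
        · exact absurd (mem_toS.mpr h1) hxT
        · set y' : Fin n := ⟨y, hy.trans x.2⟩
          refine hG (Equiv.swap x y') 𝓑 (ihj y (by omega) y' rfl (by simp [y', h1]) _
            (hs.tr _) (fun m hm => ?_) _ (map_mem_tr.mpr hB) ?_ (by simp [hxB]))
          · rw [← map_swap_toS (x := x) (y := y') (h2 m hm)]
            exact map_mem_tr.mpr (hL m hm)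
          · have : T.testBit x = T.testBit y' := by
              rw [show T.testBit y' = false from h1]
              simpa using hxT
            rw [← map_swap_toS this]
            exact map_subset_map.mpr hTB
        · have hdB := hD 𝓑 hs hL d hd
          rw [← card_toS, toS_and] at h1 h2
          have e : B = toS n d :=
            hs.uniq B hB _ hdB (h1.trans (card_le_card (inter_subset_inter_right hsub)))
          rw [inter_eq_left.mpr (e ▸ hsub), card_toS] at h2
          omega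
        · refine ih _ h1 ?_ 𝓑 hs hL B hB hsub
          rw [← card_toS, toS_or, card_insert_of_notMem hxT, card_toS]
          omega
    intro 𝓑 hs hL B hB hTB
    obtain ⟨x, hxB, hxT⟩ := exists_mem_notMem_of_card_lt_card (s := toS n T) (t := B)
      (by rw [card_toS, hs.card B hB]; omega)
    exact key x x rfl hxT 𝓑 hs hL B hB hTB hxB

/-- The whole search along one branch. -/
def run (n r : ℕ) (f : ℕ → ℕ) (bad : ℕ → Bool) (ok : ℕ → ℕ → Bool) (op : ℕ → ℕ → ℕ)
    (fin : List (ℕ × ℕ)) (goal : List ℕ) : List (List (ℕ × ℕ) × ℕ × ℕ) → List ℕ → Bool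
  | [], L => goal.all (derive ok op fin L).contains
  | (ce, T, c) :: s, L => f T == 5 && qchk n f bad L (derive ok op ce L) c r T
      && run n r f bad ok op fin goal s (c :: L)

theorem run_sound {n r : ℕ} {bad : ℕ → Bool} {ok : ℕ → ℕ → Bool} {op : ℕ → ℕ → ℕ}
    {fin : List (ℕ × ℕ)} {goal : List ℕ}
    (hbad : ∀ 𝓑 : Finset (Finset (Fin n)), St 5 (5 + r) 𝓑 →
      ∀ B ∈ 𝓑, ∀ C ∈ 𝓑, bad (B ∩ C).card = false)
    (hop : ∀ 𝓑 : Finset (Finset (Fin n)), St 5 (5 + r) 𝓑 →
      ∀ a b, toS n a ∈ 𝓑 → toS n b ∈ 𝓑 → ok a b → toS n (op a b) ∈ 𝓑)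
    (s : List (List (ℕ × ℕ) × ℕ × ℕ)) (L : List ℕ) 
    (h : run n r (pc n) bad ok op fin goal s L = true) :
    ∀ 𝓑, St 5 (5 + r) 𝓑 → (∀ m ∈ L, toS n m ∈ 𝓑) →
      ∃ π : Fin n ≃ Fin n, ∀ g ∈ goal, toS n g ∈ tr π 𝓑 := by
  induction s generalizing L with
  | nil =>
    intro 𝓑 hs hL
    simp only [run, List.all_eq_true, List.contains_iff_mem] at h
    exact ⟨Equiv.refl _, fun g hg => by
      simpa [mem_tr] using derive_sound (hop 𝓑 hs) fin L hL g (h g hg)⟩
  | cons p s ih =>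
    obtain ⟨ce, T, c⟩ := p
    simp only [run, Bool.and_eq_true, beq_iff_eq] at h
    intro 𝓑 hs hL
    obtain ⟨B, hB, hTB⟩ := hs.ex (toS n T) (by rw [card_toS, h.1.1])
    refine qchk_sound (G := fun 𝓑 => ∃ π : Fin n ≃ Fin n, ∀ g ∈ goal, toS n g ∈ tr π 𝓑) ?_ hbad
      (fun 𝓑 hs hL => derive_sound (hop 𝓑 hs) ce L hL) (ih _ h.2) r T h.1.2 (by rw [h.1.1])
      𝓑 hs hL B hB hTB
    rintro σ 𝓑 ⟨π, hπ⟩
    refine ⟨σ.trans π, fun g hg => ?_⟩
    have := hπ g hg
    rw [mem_tr, mem_tr, map_map] at this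
    rw [mem_tr]
    exact this

end Pool.Agent.MP_3e18ff_co.H58
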