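import Pool.Agent.MP_3e18ff_co.H58.Basic
import Pool.Agent.MP_3e18ff_co.H58.Lloyd

/-! The case `k = 2t - 2`: translations on coset leaders. -/

namespace Pool.Agent.MP_3e18ff_co.H58

open Finset

variable {X : Type} [DecidableEq X]

open Classical in
/-- A block through a given set. -/
noncomputable def blk (𝓑 : Finset (Finset X)) (T : Finset X) : Finset X :=
  if h : ∃ B ∈ 𝓑, T ⊆ B then h.choose else ∅

lemma blk_spec {𝓑 : Finset (Finset X)} {T : Finset X} (h : ∃ B ∈ 𝓑, T ⊆ B) :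
    blk 𝓑 T ∈ 𝓑 ∧ T ⊆ blk 𝓑 T := by
  rw [blk, dif_pos h]
  exact h.choose_spec

/-- Translation by the point `x` on sets of size at most `e` missing `o`. -/
noncomputable def tau (𝓑 : Finset (Finset X)) (o : X) (e : ℕ) (x : X) (S : Finset X) : Finset X :=
  if x ∈ S then S.erase x else if S.card < e then insert x S
  else blk 𝓑 (insert o (insert x S)) \ insert o (insert x S)

variable {𝓑 : Finset (Finset X)} {o : X} {e : ℕ}

lemma tau_mem {x : X} {S : Finset X} (hx : x ∈ S) : tau 𝓑 o e x S = S.erase x := by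
  rw [tau, if_pos hx]

lemma tau_lt {x : X} {S : Finset X} (hx : x ∉ S) (hS : S.card < e) :
    tau 𝓑 o e x S = insert x S := by
  rw [tau, if_neg hx, if_pos hS]

lemma card_ins {x : X} {S : Finset X} (hx : x ∉ S) (ho : o ∉ S) (hxo : x ≠ o) :
    (insert o (insert x S)).card = S.card + 2 := by
  rw [card_insert_of_notMem (by simp [ho, hxo.symm]), card_insert_of_notMem hx]

lemma tau_blk (h : St (e + 2) (2 * e + 2) 𝓑) {x : X} {S B : Finset X} (hx : x ∉ S) (ho : o ∉ S)
    (hxo : x ≠ o) (hS : S.card = e) (hB : B ∈ 𝓑) (hsub : insert o (insert x S) ⊆ B) :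
    tau 𝓑 o e x S = B \ insert o (insert x S) := by
  rw [tau, if_neg hx, if_neg (by omega)]
  have h1 := blk_spec ⟨B, hB, hsub⟩
  rw [h.eq_of_subset h1.1 hB (by rw [card_ins hx ho hxo, hS]) h1.2 hsub]

lemma ex_blk (h : St (e + 2) (2 * e + 2) 𝓑) {x : X} {S : Finset X} (hx : x ∉ S) (ho : o ∉ S)
    (hxo : x ≠ o) (hS : S.card = e) : ∃ B ∈ 𝓑, insert o (insert x S) ⊆ B :=
  h.ex _ (by rw [card_ins hx ho hxo, hS])

lemma card_rest (h : St (e + 2) (2 * e + 2) 𝓑) {x : X} {S B : Finset X} (hx : x ∉ S) (ho : o ∉ S)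
    (hxo : x ≠ o) (hS : S.card = e) (hB : B ∈ 𝓑) (hsub : insert o (insert x S) ⊆ B) :
    (B \ insert o (insert x S)).card = e := by
  rw [card_sdiff_of_subset hsub, card_ins hx ho hxo, h.card B hB]
  omega

lemma tau_card_up (h : St (e + 2) (2 * e + 2) 𝓑) {x : X} {S : Finset X} (hx : x ∉ S) (ho : o ∉ S)
    (hxo : x ≠ o) (hS : S.card ≤ e) : (tau 𝓑 o e x S).card = min (S.card + 1) e := by
  rcases hS.lt_or_eq with h1 | h1
  · rw [tau_lt hx h1, card_insert_of_notMem hx]
    omega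
  · obtain ⟨B, hB, hsub⟩ := ex_blk h hx ho hxo h1
    rw [tau_blk h hx ho hxo h1 hB hsub, card_rest h hx ho hxo h1 hB hsub]
    omega

lemma tau_good (h : St (e + 2) (2 * e + 2) 𝓑) {x : X} {S : Finset X} (ho : o ∉ S)
    (hxo : x ≠ o) (hS : S.card ≤ e) : o ∉ tau 𝓑 o e x S ∧ (tau 𝓑 o e x S).card ≤ e := by
  by_cases hx : x ∈ S
  · rw [tau_mem hx]
    exact ⟨fun h1 => ho (mem_of_mem_erase h1), card_erase_le.trans hS⟩
  refine ⟨?_, by rw [tau_card_up h hx ho hxo hS]; omega⟩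
  rw [tau, if_neg hx]
  split_ifs
  · simp [ho, hxo.symm]
  · simp

lemma tau_invol (h : St (e + 2) (2 * e + 2) 𝓑) {x : X} {S : Finset X} (ho : o ∉ S)
    (hxo : x ≠ o) (hS : S.card ≤ e) : tau 𝓑 o e x (tau 𝓑 o e x S) = S := by
  by_cases hx : x ∈ S
  · have := card_erase_lt_of_mem hx
    rw [tau_mem hx, tau_lt (notMem_erase _ _) (by omega), insert_erase hx]
  rcases hS.lt_or_eq with h1 | h1
  · rw [tau_lt hx h1, tau_mem (mem_insert_self _ _), erase_insert hx]
  · obtain ⟨B, hB, hsub⟩ := ex_blk h hx ho hxo h1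
    have hs := hsub
    simp only [insert_subset_iff] at hs
    rw [tau_blk h hx ho hxo h1 hB hsub, tau_blk h (by simp) (by simp) hxo
      (card_rest h hx ho hxo h1 hB hsub) hB (by simp [insert_subset_iff, hs.1, hs.2.1])]
    ext z
    have := @hs.2.2 z
    simp only [mem_sdiff, mem_insert]
    grind

lemma tau_comm_mixed (h : St (e + 2) (2 * e + 2) 𝓑) {x y : X} {S : Finset X} (ho : o ∉ S)
    (hxo : x ≠ o) (hyo : y ≠ o) (hS : S.card ≤ e) (hx : x ∈ S) (hy : y ∉ S) :
    tau 𝓑 o e x (tau 𝓑 o e y S) = tau 𝓑 o e y (tau 𝓑 o e x S) := by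
  have hxy : x ≠ y := fun h1 => hy (h1 ▸ hx)
  have := card_erase_lt_of_mem hx
  rw [tau_mem hx, tau_lt (S := S.erase x) (by simp [hy]) (by omega)]
  rcases hS.lt_or_eq with h1 | h1
  · rw [tau_lt hy h1, tau_mem (mem_insert_of_mem hx), erase_insert_of_ne hxy.symm]
  · obtain ⟨B, hB, hsub⟩ := ex_blk h hy ho hyo h1
    have hs := hsub
    simp only [insert_subset_iff] at hs
    rw [tau_blk h hy ho hyo h1 hB hsub, tau_blk h (by simp [hx]) (by simp) hxo
      (card_rest h hy ho hyo h1 hB hsub) hB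
      (insert_subset hs.1 (insert_subset (hs.2.2 hx) sdiff_subset))]
    ext z
    have := @hs.2.2 z
    simp only [mem_sdiff, mem_insert, mem_erase]
    grind

lemma St.inter_eq {t k : ℕ} (h : St (t + 1) k 𝓑) {B B' T : Finset X} (hB : B ∈ 𝓑) (hB' : B' ∈ 𝓑)
    (hne : B ≠ B') (hT : T.card = t) (h1 : T ⊆ B) (h2 : T ⊆ B') : B ∩ B' = T := by
  have := h.inter_lt hB hB' hne
  exact (eq_of_subset_of_card_le (subset_inter h1 h2) (by omega)).symm

lemma tau_comm_top (h : St (e + 2) (2 * e + 2) 𝓑) (hs : Sdp (e + 1) 𝓑) {x y : X} {S : Finset X}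
    (ho : o ∉ S) (hxo : x ≠ o) (hyo : y ≠ o) (hS : S.card = e) (hx : x ∉ S) (hy : y ∉ S)
    (hxy : x ≠ y) : tau 𝓑 o e x (tau 𝓑 o e y S) = tau 𝓑 o e y (tau 𝓑 o e x S) := by
  obtain ⟨A, hA, hA1⟩ := ex_blk h hx ho hxo hS
  obtain ⟨B, hB, hB1⟩ := ex_blk h hy ho hyo hS
  have hA2 := hA1
  have hB2 := hB1
  simp only [insert_subset_iff] at hA2 hB2
  have cA := card_rest h hx ho hxo hS hA hA1
  have cB := card_rest h hy ho hyo hS hB hB1
  rw [tau_blk h hx ho hxo hS hA hA1, tau_blk h hy ho hyo hS hB hB1]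
  by_cases hAB : A = B
  · subst hAB
    rw [tau_mem (by simp [hA2.2.1, hxo, hxy, hx]), tau_mem (by simp [hB2.2.1, hyo, hxy.symm, hy])]
    ext z
    simp only [mem_sdiff, mem_insert, mem_erase]
    grind
  have hI : A ∩ B = insert o S := h.inter_eq hA hB hAB (by rw [card_insert_of_notMem ho, hS])
    (by simp [insert_subset_iff, hA2.1, hA2.2.2]) (by simp [insert_subset_iff, hB2.1, hB2.2.2])
  have hI' : ∀ z, z ∈ A ∧ z ∈ B ↔ z = o ∨ z ∈ S := fun z => by
    rw [← mem_inter, hI, mem_insert]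
  have hC := hs A hA B hB (by rw [hI, card_insert_of_notMem ho, hS])
  have hxB : x ∉ B := fun h1 => by
    have := (hI' x).mp ⟨hA2.2.1, h1⟩
    tauto
  have hyA : y ∉ A := fun h1 => by
    have := (hI' y).mp ⟨h1, hB2.2.1⟩
    tauto
  set T := B \ insert o (insert y S) with hT
  have hxT : x ∉ T := by simp [hT, hxB]
  have hoT : o ∉ T := by simp [hT]
  obtain ⟨D, hD, hD1⟩ := ex_blk h hxT hoT hxo cB
  have hD2 := hD1
  simp only [insert_subset_iff] at hD2
  have hJ : D ∩ symmDiff A B = insert x T := by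
    refine h.inter_eq hD hC ?_ (by rw [card_insert_of_notMem hxT, cB])
      (by simp [insert_subset_iff, hD2.2.1, hD2.2.2]) ?_
    · intro h1
      have := hD2.1
      rw [h1, mem_symmDiff] at this
      have := hA2.1
      have := hB2.1
      tauto
    · intro z hz
      have := hI' z
      have := hA2.2.1
      simp only [hT, mem_sdiff, mem_insert, mem_symmDiff] at hz ⊢
      grind
  have hJ' : ∀ z, z ∈ D ∧ z ∈ symmDiff A B ↔ z = x ∨ z ∈ T := fun z => by
    rw [← mem_inter, hJ, mem_insert]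
  have hE := hs D hD _ hC (by rw [hJ, card_insert_of_notMem hxT, cB])
  rw [tau_blk h hxT hoT hxo cB hD hD1, tau_blk h (by simp [hyA]) (by simp) hyo cA hE ?_]
  · ext z
    have := hI' z
    have := hJ' z
    have := hA2.2.1
    have := hB2.2.1
    have := hD2.1
    simp only [hT, mem_sdiff, mem_insert, mem_symmDiff] at *
    grind
  · intro z hz
    have := hI' z
    have := hJ' z
    have := hA2.1
    have := hB2.1
    have := hA2.2.1
    have := hB2.2.1
    have := hD2.1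
    simp only [hT, mem_sdiff, mem_insert, mem_symmDiff] at *
    grind

lemma tau_comm (h : St (e + 2) (2 * e + 2) 𝓑) (hs : Sdp (e + 1) 𝓑) {x y : X} {S : Finset X}
    (ho : o ∉ S) (hxo : x ≠ o) (hyo : y ≠ o) (hS : S.card ≤ e) :
    tau 𝓑 o e x (tau 𝓑 o e y S) = tau 𝓑 o e y (tau 𝓑 o e x S) := by
  by_cases hxy : x = y
  · rw [hxy]
  by_cases hx : x ∈ S <;> by_cases hy : y ∈ S
  · rw [tau_mem hx, tau_mem hy, tau_mem (by simp [hx, hxy]), tau_mem (by simp [hy, Ne.symm hxy]),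
      erase_right_comm]
  · exact tau_comm_mixed h ho hxo hyo hS hx hy
  · exact (tau_comm_mixed h ho hyo hxo hS hy hx).symm
  rcases hS.lt_or_eq with h1 | h1
  · rw [tau_lt hx h1, tau_lt hy h1, tau, tau, if_neg (by simp [hx, hxy]),
      if_neg (show y ∉ insert x S by simp [hy, Ne.symm hxy]), card_insert_of_notMem hx,
      card_insert_of_notMem hy, insert_comm x y]
  · exact tau_comm_top h hs ho hxo hyo h1 hx hy hxy

/-- The translations, on the type of small sets missing `o`. -/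
noncomputable def tauS (h : St (e + 2) (2 * e + 2) 𝓑) (o x : X)
    (S : {S : Finset X // o ∉ S ∧ S.card ≤ e}) : {S : Finset X // o ∉ S ∧ S.card ≤ e} :=
  if hx : x = o then S else ⟨tau 𝓑 o e x S, tau_good h S.2.1 hx S.2.2⟩

lemma tauS_val (h : St (e + 2) (2 * e + 2) 𝓑) {x : X} (hx : x ≠ o)
    (S : {S : Finset X // o ∉ S ∧ S.card ≤ e}) : (tauS h o x S).1 = tau 𝓑 o e x S := by
  rw [tauS, dif_neg hx]

theorem lev_tau [Fintype X] (h : St (e + 2) (2 * e + 2) 𝓑) (hs : Sdp (e + 1) 𝓑) (o : X)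
    (hn : e < Fintype.card X) :
    Lev (univ.erase o) (tauS h o) (fun S => S.1.card) (fun S => S.1) e where
  invol x hx S := by
    have hx' := ne_of_mem_erase hx
    apply Subtype.ext
    rw [tauS_val h hx', tauS_val h hx', tau_invol h S.2.1 hx' S.2.2]
  comm x hx y hy S := by
    have hx' := ne_of_mem_erase hx
    have hy' := ne_of_mem_erase hy
    apply Subtype.ext
    rw [tauS_val h hx', tauS_val h hy', tauS_val h hy', tauS_val h hx',
      tau_comm h hs S.2.1 hx' hy' S.2.2]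
  sub S z hz := mem_erase.mpr ⟨fun h1 => S.2.1 (h1 ▸ hz), mem_univ _⟩
  card _ := rfl
  dn S x hx := by
    have hx' : x ≠ o := fun h1 => S.2.1 (h1 ▸ hx)
    rw [tauS_val h hx', tau_mem hx, card_erase_add_one hx]
  up S x hx hx2 := by
    have hx' := ne_of_mem_erase hx
    rw [tauS_val h hx', tau_card_up h hx2 S.2.1 hx' S.2.2]
  le S := S.2.2
  surj i hi := by
    obtain ⟨S, hS, hc⟩ := exists_subset_card_eq (s := univ.erase o) (n := i)
      (by rw [card_erase_of_mem (mem_univ _), card_univ]; omega)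
    exact ⟨⟨S, fun h1 => by simpa using hS h1, by omega⟩, hc⟩
  zero := ⟨⟨∅, by simp, by simp⟩, fun S => by rw [card_eq_zero, Subtype.ext_iff]⟩

end Pool.Agent.MP_3e18ff_co.H58
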