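import Pool.Agent.MP_3e18ff_co.H58.Big

/-! The numerical inequalities for `u = 2`. -/

namespace Pool.Agent.MP_3e18ff_co.H58

open Finset

variable {X : Type} [Fintype X] [DecidableEq X]

omit [Fintype X] in
lemma inter_le_one {t k : ℕ} {𝓑 : Finset (Finset X)} (h : St t k 𝓑) {H B C A : Finset X}
    (hH : H ∈ 𝓑) (hB : B ∈ 𝓑) (hne : H ≠ B) (hCH : C ⊆ H) (hCB : C ⊆ B) (hAB : A ⊆ B)
    (hd : Disjoint C A) (hC : C.card + 2 = t) : (H ∩ A).card ≤ 1 := by
  have h1 := h.inter_lt hH hB hne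
  have h2 : C ∪ H ∩ A ⊆ H ∩ B := union_subset (subset_inter hCH hCB) (inter_subset_inter_left hAB)
  have h3 := card_le_card h2
  rw [card_union_of_disjoint (disjoint_of_subset_right inter_subset_right hd)] at h3
  omega

/-- The exact number of blocks through `C` missing the two given ones. -/
lemma count_Z {d : ℕ} {𝓑 : Finset (Finset X)} (h : St (d + 4) (2 * (d + 2)) 𝓑)
    (hn : 2 * (d + 2) < Fintype.card X) {B₁ B₂ C : Finset X} (hB₁ : B₁ ∈ 𝓑) (hB₂ : B₂ ∈ 𝓑)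
    (hM : (B₁ ∩ B₂).card = d + 3) (hC₁ : C ⊆ B₁) (hC₂ : C ⊆ B₂) (hCc : C.card = d + 2)
    {b : ℕ} (hb : Lm X (d + 4) (2 * (d + 2)) 1 = d + 3 + b) :
    (d + 2) * ((thr 𝓑 C).filter (fun H => Disjoint H ((B₁ ∪ B₂) \ C))).card
      = (d + 1) * (b + 1) * b := by
  have hk : 2 * (d + 2) = d + 4 + d := by ring
  have hc₁ := h.card _ hB₁
  have hc₂ := h.card _ hB₂
  have hne : B₁ ≠ B₂ := by
    rintro rfl
    rw [inter_self] at hM
    omega
  set W := (B₁ ∪ B₂) \ C with hW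
  have hWc : W.card = 2 * d + 3 := by
    have := card_union_add_card_inter B₁ B₂
    rw [hW, card_sdiff_of_subset (hC₁.trans subset_union_left)]
    omega
  have m0 := h.card_thr' (by omega) C 2 (by omega)
  have m1 := h.moment_one' (by omega) C W disjoint_sdiff 1 (by omega)
  have m2 := h.moment' (by omega) C W disjoint_sdiff 2 0 (by omega)
  have hrec := h.Lm_rec' hk hn 1 (by omega)
  rw [Lm_zero, hWc] at m2
  rw [hWc, hb] at m1
  rw [hb] at hrec
  have hpt : ∀ H ∈ thr 𝓑 C, 2 - 2 * ((H ∩ W).card : ℤ) + 2 * ((H ∩ W).card.choose 2 : ℤ)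
      = 2 * (if Disjoint H W then 1 else 0) + (if H = B₁ then ((d : ℤ) + 1) * d else 0)
        + (if H = B₂ then ((d : ℤ) + 1) * d else 0) := by
    intro H hH
    rw [mem_thr] at hH
    have e2 := two_mul_choose_two (H ∩ W).card
    have hnd : ∀ B, C ⊆ B → B ⊆ B₁ ∪ B₂ → B.card = 2 * (d + 2) → (B ∩ W).card = d + 2 := by
      intro B h1 h2 h3
      have : B ∩ W = B \ C := by
        ext x
        simp only [hW, mem_inter, mem_sdiff]
        exact ⟨fun hx => ⟨hx.1, hx.2.2⟩, fun hx => ⟨hx.1, h2 hx.1, hx.2⟩⟩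
      rw [this, card_sdiff_of_subset h1]; omega
    have hnd' : (H ∩ W).card = d + 2 → ¬ Disjoint H W := by
      intro h1 h2
      rw [disjoint_iff_inter_eq_empty.mp h2] at h1
      simp at h1
    by_cases h1 : H = B₁
    · have h3 : (H ∩ W).card = d + 2 := h1 ▸ hnd B₁ hC₁ subset_union_left hc₁
      rw [if_neg (hnd' h3), if_pos h1, if_neg (h1 ▸ hne), e2, h3]
      push_cast; ring
    by_cases h2 : H = B₂
    · have h3 : (H ∩ W).card = d + 2 := h2 ▸ hnd B₂ hC₂ subset_union_right hc₂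
      rw [if_neg (hnd' h3), if_neg h1, if_pos h2, e2, h3]
      push_cast; ring
    rw [if_neg h1, if_neg h2, e2]
    have h3 := inter_le_one h hH.1 hB₁ h1 hH.2 hC₁ (A := B₁ \ C) sdiff_subset disjoint_sdiff
      (by omega)
    have h4 := inter_le_one h hH.1 hB₂ h2 hH.2 hC₂ (A := B₂ \ C) sdiff_subset disjoint_sdiff
      (by omega)
    have h5 : (H ∩ W).card ≤ 2 := by
      rw [hW, union_sdiff_distrib, inter_union_distrib_left]
      exact (card_union_le _ _).trans (by omega)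
    by_cases h6 : Disjoint H W
    · rw [if_pos h6, disjoint_iff_inter_eq_empty.mp h6]; simp
    · rw [if_neg h6]
      have h7 : (H ∩ W).card ≠ 0 := by
        rw [Ne, card_eq_zero, ← disjoint_iff_inter_eq_empty]; exact h6
      have h8 : (H ∩ W).card = 1 ∨ (H ∩ W).card = 2 := by omega
      rcases h8 with h8 | h8 <;> rw [h8] <;> simp
  have hsum := sum_congr rfl hpt
  rw [sum_add_distrib, sum_add_distrib, sum_add_distrib, sum_sub_distrib, sum_ite_eq', sum_ite_eq',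
    if_pos (mem_thr.mpr ⟨hB₁, hC₁⟩), if_pos (mem_thr.mpr ⟨hB₂, hC₂⟩), ← mul_sum, ← mul_sum,
    ← mul_sum, sum_boole, sum_const, ← Nat.cast_sum, ← Nat.cast_sum, m0, m1, m2] at hsum
  have e2 := two_mul_choose_two (2 * d + 3)
  simp only [nsmul_eq_mul] at hsum
  push_cast at hsum e2
  have hrec' : (Lm X (d + 4) (2 * (d + 2)) 2 : ℤ) * (d + 1 + 1)
      = ((d + 3 + b) * (d + 1) + 1) * (d + 3 + b) := by exact_mod_cast hrec
  have : 2 * (((d : ℤ) + 2) * ((thr 𝓑 C).filter (fun H => Disjoint H W)).card)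
      = 2 * ((d + 1) * (b + 1) * b) := by
    linear_combination 2 * hrec' + (d + 2) * e2 - (d + 2) * hsum
  have h9 : ((d : ℤ) + 2) * ((thr 𝓑 C).filter (fun H => Disjoint H W)).card
      = (d + 1) * (b + 1) * b := by linarith
  exact_mod_cast h9

lemma two_small {d : ℕ} {𝓑 : Finset (Finset X)} (h : St (d + 4) (2 * (d + 2)) 𝓑)
    (hs : Sdp (d + 2) 𝓑) (hd : 1 ≤ d) (hn : 2 * (d + 2) < Fintype.card X)
    {b : ℕ} (hb : Lm X (d + 4) (2 * (d + 2)) 1 = d + 3 + b) : b + 1 ≤ d := by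
  have h' : St (d + 2 + 2) (2 * (d + 2)) 𝓑 := h
  obtain ⟨B₁, hB₁, B₂, hB₂, C, z, hM, hC₁, hC₂, hCc, hz₁, hz₂, hzC⟩ :=
    exists_config (u := 2) h le_rfl hn
  have hZ := count_Z h hn hB₁ hB₂ (by omega) hC₁ hC₂ hCc hb
  have hc₁ := h.card _ hB₁
  have hc₂ := h.card _ hB₂
  have hP : (B₂ \ B₁).card = d + 1 := by rw [card_sdiff]; omega
  have hA : (B₁ \ C).card = d + 2 := by rw [card_sdiff_of_subset hC₁]; omega
  obtain ⟨U, hU, hUc⟩ := exists_subset_card_eq (s := B₂ \ B₁) (n := 2) (by omega)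
  obtain ⟨F, hF, hF'⟩ := h.ex ((B₁ \ C) ∪ U) (by
    rw [card_union_of_disjoint, card_sdiff_of_subset hC₁]
    · omega
    · exact disjoint_of_subset_left sdiff_subset (disjoint_of_subset_right hU disjoint_sdiff))
  have hAF : B₁ \ C ⊆ F := subset_union_left.trans hF'
  have hUF : 2 ≤ (F ∩ (B₂ \ B₁)).card :=
    hUc ▸ card_le_card (subset_inter (subset_union_right.trans hF') hU)
  have hFC := path_one h' hs hB₁ hB₂ hC₁ hC₂ hCc hz₁ hz₂ hzC hF hAF hUF
  have hout := card_out (B₂ := B₂) hc₁ (h.card _ hF) hC₁ hCc hAF hFC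
  have hsub : (thr 𝓑 C).filter (fun H => Disjoint H ((B₁ ∪ B₂) \ C)) ⊆
      (F \ (B₁ ∪ B₂)).biUnion
        (fun x => (thr 𝓑 (insert x C)).filter (fun H => Disjoint H (B₁ \ C))) := by
    intro H hH
    simp only [mem_filter, mem_thr] at hH
    have key : ∀ x ∈ H, x ∈ B₁ ∪ B₂ → x ∈ C := by
      intro x hx hx'
      by_contra hc
      exact disjoint_left.mp hH.2 hx (mem_sdiff.mpr ⟨hx', hc⟩)
    obtain ⟨x, hx, hxF, hx₁, hx₂⟩ := path_two h' hs hB₁ hB₂ hC₁ hC₂ hCc hz₁ hz₂ hzC hF hAF hUF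
      hH.1.1 hH.1.2 (fun x hx hx' => key x hx (mem_union_left _ hx'))
      (fun x hx hx' => key x hx (mem_union_right _ hx'))
    rw [mem_biUnion]
    refine ⟨x, by simp [hxF, hx₁, hx₂], ?_⟩
    simp only [mem_filter, mem_thr]
    exact ⟨⟨hH.1.1, insert_subset hx hH.1.2⟩,
      disjoint_of_subset_right (sdiff_subset_sdiff subset_union_left (Subset.refl _)) hH.2⟩
  have hone : ∀ x ∈ F \ (B₁ ∪ B₂),
      ((thr 𝓑 (insert x C)).filter (fun H => Disjoint H (B₁ \ C))).card ≤ b + 1 := by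
    intro x hx
    simp only [mem_sdiff, mem_union, not_or] at hx
    have hxC : x ∉ C := fun h1 => hx.2.1 (hC₁ h1)
    have hc : (insert x C).card = d + 3 := by rw [card_insert_of_notMem hxC]; omega
    have m0 := h.card_thr' (by omega) (insert x C) 1 (by omega)
    have m1 := h.moment_one' (by omega) (insert x C) (B₁ \ C) (by
      rw [disjoint_insert_left]
      exact ⟨fun h1 => hx.2.1 (mem_sdiff.mp h1).1, disjoint_sdiff⟩) 0 (by omega)
    rw [Lm_zero, hA, mul_one] at m1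
    have hpt : ∀ H ∈ thr 𝓑 (insert x C),
        (if Disjoint H (B₁ \ C) then 1 else 0) + (H ∩ (B₁ \ C)).card ≤ 1 := by
      intro H hH
      rw [mem_thr] at hH
      by_cases h6 : Disjoint H (B₁ \ C)
      · rw [if_pos h6, disjoint_iff_inter_eq_empty.mp h6]; simp
      · rw [if_neg h6, zero_add]
        refine inter_le_one h hH.1 hB₁ ?_ ((subset_insert _ _).trans hH.2) hC₁ sdiff_subset
          disjoint_sdiff (by omega)
        rintro rfl
        exact hx.2.1 (hH.2 (mem_insert_self _ _))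
    have := sum_le_sum hpt
    rw [sum_add_distrib, m1, sum_boole, sum_const, m0, hb] at this
    simp only [Nat.cast_id, smul_eq_mul, mul_one] at this
    omega
  have h1 := (card_le_card hsub).trans (card_biUnion_le.trans (sum_le_sum hone))
  rw [sum_const, smul_eq_mul] at h1
  obtain ⟨e, rfl⟩ : ∃ e, d = e + 1 := ⟨d - 1, by omega⟩
  have h2 : (F \ (B₁ ∪ B₂)).card * (b + 1) ≤ e * (b + 1) := Nat.mul_le_mul_right _ (by omega)
  have h3 : (e + 1 + 1) * (b + 1) * b ≤ (e + 1 + 2) * (e * (b + 1)) := by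
    rw [← hZ]
    exact Nat.mul_le_mul_left _ (h1.trans h2)
  have h4 : (e + 2) * b ≤ (e + 3) * e := by
    have : (b + 1) * ((e + 2) * b) ≤ (b + 1) * ((e + 3) * e) := by nlinarith
    exact Nat.le_of_mul_le_mul_left this (by omega)
  by_contra hc
  have : e + 1 ≤ b := by omega
  nlinarith

lemma ten_ineq (f : ℕ) : 3 * (f.choose 2 : ℤ) - 2 * (f.choose 3 : ℤ)
    ≤ 10 * (if 2 ≤ f then 1 else 0) := by
  have e2 := two_mul_choose_two f
  have e3 := six_mul_choose_three f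
  by_cases h : 2 ≤ f
  · rw [if_pos h]
    have hx : (2 : ℤ) ≤ f := by exact_mod_cast h
    have h34 : (0 : ℤ) ≤ ((f : ℤ) - 4) * (f - 5) := by
      rcases le_or_gt (f : ℤ) 4 with h1 | h1
      · exact mul_nonneg_of_nonpos_of_nonpos (by linarith) (by linarith)
      · exact mul_nonneg (by linarith) (by linarith)
    have := mul_nonneg (show (0 : ℤ) ≤ 2 * f + 3 by linarith) h34
    nlinarith
  · rw [if_neg h]
    have : f = 0 ∨ f = 1 := by omega
    rcases this with rfl | rfl <;> simp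

lemma two_ineq {d : ℕ} {𝓑 : Finset (Finset X)} (h : St (d + 4) (2 * (d + 2)) 𝓑)
    (hs : Sdp (d + 2) 𝓑) (hn : 2 * (d + 2) < Fintype.card X)
    {b : ℕ} (hb : Lm X (d + 4) (2 * (d + 2)) 1 = d + 3 + b) :
    ((d : ℝ) + 1) * (b + 1) * b * ((d + 1) * d) * ((d + 1) * b) ^ 2
      ≤ 12 * (d + 2) * ((d + 2 + b) * ((d + 3 + b) * (d + 1) + 1)) ^ 2 := by
  have h' : St (d + 2 + 2) (2 * (d + 2)) 𝓑 := h
  have hk : 2 * (d + 2) = d + 4 + d := by ring
  obtain ⟨B₁, hB₁, B₂, hB₂, hM⟩ := h.exists_pair hk hn (by omega)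
  have hN := h.Lm_one hk hn (by omega)
  have hc₁ := h.card _ hB₁
  have hc₂ := h.card _ hB₂
  have hP₂ : (B₂ \ B₁).card = d + 1 := by rw [card_sdiff]; omega
  have hP₁ : (B₁ \ B₂).card = d + 1 := by rw [card_sdiff, inter_comm]; omega
  have hPP : Disjoint (B₁ \ B₂) (B₂ \ B₁) := disjoint_of_subset_left sdiff_subset disjoint_sdiff
  -- the trace lemma
  have htr : ∑ m ∈ B₁ ∩ B₂, ∑ F ∈ thr 𝓑 (insert m (B₁ \ B₂)), (F ∩ (B₂ \ B₁)).card.choose 3
      ≤ 2 * (d + 1).choose 3 := by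
    have m3 := h.moment' (by omega) (B₁ \ B₂) (B₂ \ B₁) hPP 3 0 (by omega)
    rw [Lm_zero, mul_one, hP₂] at m3
    have e1 : ∀ m ∈ B₁ ∩ B₂, ∑ F ∈ thr 𝓑 (insert m (B₁ \ B₂)), (F ∩ (B₂ \ B₁)).card.choose 3
        = ∑ F ∈ thr 𝓑 (B₁ \ B₂), if m ∈ F then (F ∩ (B₂ \ B₁)).card.choose 3 else 0 := by
      intro m _
      rw [← sum_filter]
      congr 1
      ext F
      simp only [mem_thr, mem_filter, insert_subset_iff]
      tauto
    rw [sum_congr rfl e1, sum_comm, ← m3, mul_sum]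
    refine sum_le_sum fun F hF => ?_
    rw [mem_thr] at hF
    rw [← sum_filter, sum_const, smul_eq_mul, filter_mem_eq_inter]
    by_cases hFB : F = B₁
    · have : F ∩ (B₂ \ B₁) = ∅ := by
        rw [hFB]; exact disjoint_iff_inter_eq_empty.mp disjoint_sdiff
      rw [this]; simp
    · refine Nat.mul_le_mul_right _ ?_
      have h1 := h.inter_lt hF.1 hB₁ hFB
      have h2 : (B₁ \ B₂) ∪ (B₁ ∩ B₂ ∩ F) ⊆ F ∩ B₁ :=
        union_subset (subset_inter hF.2 sdiff_subset)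
          (subset_inter inter_subset_right (inter_subset_left.trans inter_subset_left))
      have h3 := card_le_card h2
      rw [card_union_of_disjoint (disjoint_of_subset_right
        (inter_subset_left.trans inter_subset_right) sdiff_disjoint)] at h3
      omega
  obtain ⟨m, hm, hmT⟩ : ∃ m ∈ B₁ ∩ B₂, (d + 3) *
      ∑ F ∈ thr 𝓑 (insert m (B₁ \ B₂)), (F ∩ (B₂ \ B₁)).card.choose 3 ≤ 2 * (d + 1).choose 3 := by
    refine exists_le_of_sum_le (card_pos.mp (by omega)) ?_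
    rw [← mul_sum, sum_const, smul_eq_mul, show (B₁ ∩ B₂).card = d + 3 by omega]
    exact Nat.mul_le_mul_left _ htr
  set C := (B₁ ∩ B₂).erase m with hC
  have hC₁ : C ⊆ B₁ := (erase_subset _ _).trans inter_subset_left
  have hC₂ : C ⊆ B₂ := (erase_subset _ _).trans inter_subset_right
  have hCc : C.card = d + 2 := by rw [hC, card_erase_of_mem hm]; omega
  have hmC : m ∉ C := notMem_erase _ _
  rw [mem_inter] at hm
  have hAe : insert m (B₁ \ B₂) = B₁ \ C := by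
    ext x
    simp only [hC, mem_insert, mem_sdiff, mem_erase, mem_inter]
    constructor
    · rintro (rfl | h1)
      · exact ⟨hm.1, fun h2 => h2.1 rfl⟩
      · exact ⟨h1.1, fun h2 => h1.2 h2.2.2⟩
    · rintro ⟨h1, h2⟩
      by_cases h3 : x = m
      · exact Or.inl h3
      · exact Or.inr ⟨h1, fun h4 => h2 ⟨h3, h1, h4⟩⟩
  rw [hAe] at hmT
  set A := B₁ \ C with hA
  have hAc : A.card = d + 2 := by rw [hA, card_sdiff_of_subset hC₁]; omega
  have hZ := count_Z h hn hB₁ hB₂ (by omega) hC₁ hC₂ hCc hb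
  set 𝓛 := (thr 𝓑 A).filter (fun F => 2 ≤ (F ∩ (B₂ \ B₁)).card) with h𝓛
  have hσ : (d + 1) * d ≤ 12 * 𝓛.card := by
    have m2 := h.moment' (by omega) A (B₂ \ B₁)
      (disjoint_of_subset_left sdiff_subset disjoint_sdiff) 2 0 (by omega)
    rw [Lm_zero, mul_one, hP₂] at m2
    have h1 := sum_le_sum (s := thr 𝓑 A) (fun F _ => ten_ineq (F ∩ (B₂ \ B₁)).card)
    rw [sum_sub_distrib, ← mul_sum, ← mul_sum, ← mul_sum, sum_boole, ← Nat.cast_sum,
      ← Nat.cast_sum, m2, ← h𝓛] at h1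
    have e2 := two_mul_choose_two (d + 1)
    have e3 := six_mul_choose_three (d + 1)
    have h2 : ((d : ℤ) + 3) * ((∑ F ∈ thr 𝓑 A, (F ∩ (B₂ \ B₁)).card.choose 3 : ℕ) : ℤ)
        ≤ 2 * ((d + 1).choose 3 : ℕ) := by exact_mod_cast hmT
    set T : ℤ := ((∑ F ∈ thr 𝓑 A, (F ∩ (B₂ \ B₁)).card.choose 3 : ℕ) : ℤ)
    push_cast at e2 e3
    have hd0 : (0 : ℤ) ≤ d := Int.natCast_nonneg d
    have h3 : 3 * T ≤ (d + 1) * d := by
      have h4 : ((d : ℤ) + 3) * (3 * T) ≤ (d + 3) * ((d + 1) * d) := by nlinarith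
      exact le_of_mul_le_mul_left h4 (by linarith)
    have h5 : ((d : ℤ) + 1) * d ≤ 12 * 𝓛.card := by nlinarith
    exact_mod_cast h5
  set 𝓖 := (thr 𝓑 C).filter (fun H => Disjoint H ((B₁ ∪ B₂) \ C)) with h𝓖
  have hG : ∀ H ∈ 𝓖, H ∈ 𝓑 ∧ C ⊆ H ∧ (∀ x ∈ H, x ∈ B₁ → x ∈ C) ∧ (∀ x ∈ H, x ∈ B₂ → x ∈ C) := by
    intro H hH
    simp only [h𝓖, mem_filter, mem_thr] at hH
    refine ⟨hH.1.1, hH.1.2, ?_, ?_⟩
    · intro x hx h1
      by_contra hc
      exact disjoint_left.mp hH.2 hx (mem_sdiff.mpr ⟨mem_union_left _ h1, hc⟩)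
    · intro x hx h1
      by_contra hc
      exact disjoint_left.mp hH.2 hx (mem_sdiff.mpr ⟨mem_union_right _ h1, hc⟩)
  set 𝓖' := 𝓖.image (fun H => symmDiff H B₁) with h𝓖'
  have hG'c : 𝓖'.card = 𝓖.card :=
    card_image_of_injective _ (symmDiff_left_injective B₁)
  have hsub : 𝓖' ⊆ thr 𝓑 A := by
    intro G hG'
    obtain ⟨H, hH, rfl⟩ := mem_image.mp hG'
    obtain ⟨g1, g2, g4, g5⟩ := hG H hH
    have e1 : H ∩ B₁ = C := by
      ext x
      simp only [mem_inter]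
      exact ⟨fun hx => g4 x hx.1 hx.2, fun hx => ⟨g2 hx, hC₁ hx⟩⟩
    rw [mem_thr]
    refine ⟨hs H g1 B₁ hB₁ (by rw [e1, hCc]), ?_⟩
    intro x hx
    rw [mem_sdiff] at hx
    exact mem_symmDiff.mpr (Or.inr ⟨hx.1, fun h1 => hx.2 (g4 x h1 hx.1)⟩)
  let f : X → ℝ := fun x => ∑ F ∈ 𝓛, (if x ∈ F then (1 : ℝ) else 0)
  have hsum : ∑ x ∈ Aᶜ, f x = 𝓛.card * (d + 2) := by
    rw [sum_deg 𝓛 (fun F => F), sum_congr rfl (g := fun _ => ((d + 2 : ℕ) : ℝ)) (fun F hF => by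
      have h1 := mem_thr.mp (mem_filter.mp hF).1
      rw [inter_comm, ← sdiff_eq_inter_compl, card_sdiff_of_subset h1.2, h.card _ h1.1, hAc]
      congr 1
      omega), sum_const, nsmul_eq_mul]
    push_cast; ring
  have hc : ∀ G ∈ 𝓖', (𝓛.card : ℝ) ≤ ∑ x ∈ G \ A, f x := by
    intro G hG'
    obtain ⟨H, hH, rfl⟩ := mem_image.mp hG'
    obtain ⟨g1, g2, g4, g5⟩ := hG H hH
    rw [sum_deg 𝓛 (fun F => F), card_eq_sum_ones, Nat.cast_sum]
    refine sum_le_sum fun F hF => ?_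
    simp only [h𝓛, mem_filter, mem_thr] at hF
    obtain ⟨x, hx, hxF, hx₁, hx₂⟩ := path_two h' hs hB₁ hB₂ hC₁ hC₂ hCc hm.1 hm.2 hmC hF.1.1
      hF.1.2 hF.2 g1 g2 g4 g5
    have : 0 < ((symmDiff H B₁ \ A) ∩ F).card := card_pos.mpr ⟨x, mem_inter.mpr
      ⟨mem_sdiff.mpr ⟨mem_symmDiff.mpr (Or.inl ⟨hx, hx₁⟩), fun h1 => hx₁ (mem_sdiff.mp h1).1⟩, hxF⟩⟩
    exact_mod_cast this
  set M : ℝ := (d + 3 + b) * (d + 1) + 1 with hM'
  have hMpos : 0 < M := by positivity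
  have hnS : ((Fintype.card X - A.card : ℕ) : ℝ) = M := by
    have : Fintype.card X - A.card = (d + 3 + b) * (d + 1) + 1 := by rw [← hb]; omega
    rw [this]; push_cast; ring
  have hkS : ((2 * (d + 2) - A.card : ℕ) : ℝ) = d + 2 := by
    have : 2 * (d + 2) - A.card = d + 2 := by omega
    rw [this]; push_cast; ring
  have hθ := sum_centered A (by omega) f
  rw [hsum, hnS] at hθ
  set σ : ℝ := (𝓛.card : ℝ) with hσ'
  have hσ0 : 0 ≤ σ := Nat.cast_nonneg _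
  have hval : σ - ((2 * (d + 2) - A.card : ℕ) : ℝ) * (σ * (d + 2) / M)
      = σ * ((d + 1) * b) / M := by
    rw [hkS]
    field_simp
    rw [hM']
    ring
  have hsm := h.second_moment (by omega) A (by omega) 𝓖' hsub f _ σ hθ hc (by
    rw [hval]; positivity)
  have e1 : (lam (Fintype.card X) (d + 4) (2 * (d + 2)) (A.card + 1) : ℝ) = d + 3 + b := by
    have : lam (Fintype.card X) (d + 4) (2 * (d + 2)) (A.card + 1) = d + 3 + b := by
      rw [← hb, Lm]; congr 1; omega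
    rw [this]; push_cast; ring
  have e2 : (lam (Fintype.card X) (d + 4) (2 * (d + 2)) (A.card + 2) : ℝ) = 1 := by
    rw [hAc, show d + 2 + 2 = d + 4 from rfl, lam_top]; simp
  have hvar := h.lines_var (by omega) A (by omega) 𝓛 (filter_subset _ _) _ hθ (by
    rw [e1, e2]
    have : (0 : ℝ) ≤ d + b := by positivity
    linarith)
  rw [hval, hG'c, e1, e2] at hsm
  rw [e1, e2, ← hσ'] at hvar
  have hr0 : (0 : ℝ) ≤ d + 3 + b - 1 := by
    have : (0 : ℝ) ≤ d + b := by positivity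
    linarith
  have h1 : (𝓖.card : ℝ) * (σ * ((d + 1) * b) / M) ^ 2
      ≤ (d + 3 + b - 1) * ((d + 3 + b - 1) * σ) :=
    hsm.trans (mul_le_mul_of_nonneg_left hvar hr0)
  have h2 : (𝓖.card : ℝ) * σ * ((d + 1) * b) ^ 2 ≤ ((d + 2 + b) * M) ^ 2 := by
    rcases hσ0.eq_or_lt with h0 | h0
    · rw [← h0]; simp only [mul_zero, zero_mul]; positivity
    rw [div_pow, ← mul_div_assoc, div_le_iff₀ (by positivity)] at h1
    have : σ * ((𝓖.card : ℝ) * σ * ((d + 1) * b) ^ 2) ≤ σ * ((d + 2 + b) * M) ^ 2 := by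
      calc σ * ((𝓖.card : ℝ) * σ * ((d + 1) * b) ^ 2)
          = (𝓖.card : ℝ) * (σ * ((d + 1) * b)) ^ 2 := by ring
        _ ≤ _ := h1
        _ = _ := by ring
    exact le_of_mul_le_mul_left this h0
  have hZ' : ((d : ℝ) + 2) * 𝓖.card = (d + 1) * (b + 1) * b := by exact_mod_cast hZ
  have hσ'' : ((d : ℝ) + 1) * d ≤ 12 * σ := by rw [hσ']; exact_mod_cast hσ
  calc ((d : ℝ) + 1) * (b + 1) * b * ((d + 1) * d) * ((d + 1) * b) ^ 2
      = ((d : ℝ) + 2) * 𝓖.card * ((d + 1) * b) ^ 2 * ((d + 1) * d) := by rw [hZ']; ring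
    _ ≤ ((d : ℝ) + 2) * 𝓖.card * ((d + 1) * b) ^ 2 * (12 * σ) :=
        mul_le_mul_of_nonneg_left hσ'' (by positivity)
    _ = 12 * (d + 2) * ((𝓖.card : ℝ) * σ * ((d + 1) * b) ^ 2) := by ring
    _ ≤ _ := mul_le_mul_of_nonneg_left h2 (by positivity)

end Pool.Agent.MP_3e18ff_co.H58
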