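import Pool.Agent.MP_3e18ff_co.H58.W24

/-! Existence and uniqueness of `S(5, 6, 12)`. -/

namespace Pool.Agent.MP_3e18ff_co.H58

open Finset

/-- A fast digit sum. -/
def pr (m : ℕ) : ℕ := Nat.add (tb m) (tb (Nat.mod (Nat.div m 256) 16))

lemma pr_eq : pr = pc 12 := by
  funext m
  have h : ∀ y < 16, tb y = pc 4 y := by decide +kernel
  rw [pc_add 8 4, ← tb_eq, ← pc_mod le_rfl (m / 2 ^ 8),
    ← h (m / 2 ^ 8 % 2 ^ 4) (Nat.mod_lt _ (show 0 < 16 by norm_num))]
  rfl

/-- The hexads, as numbers. -/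
def hexList : List ℕ := [125, 183, 207, 250, 315, 343, 366, 414, 429, 473, 483, 500, 543, 619,
      630, 686, 697, 723, 732, 741, 807, 828, 845, 858, 881, 907, 917, 946, 966, 1000, 1086, 1115,
      1127, 1181, 1195, 1238, 1260, 1265, 1295, 1333, 1372, 1385, 1394, 1427, 1446, 1464, 1477,
      1482, 1581, 1587, 1614, 1621, 1656, 1671, 1690, 1716, 1737, 1762, 1814, 1817, 1834, 1859,
      1892, 1932, 1953, 2000, 2095, 2142, 2163, 2203, 2236, 2261, 2278, 2281, 2333, 2358, 2379,
      2405, 2424, 2439, 2474, 2481, 2508, 2514, 2613, 2618, 2631, 2649, 2668, 2701, 2710, 2723,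
      2762, 2800, 2830, 2835, 2857, 2900, 2914, 2968, 2980, 3009, 3095, 3129, 3149, 3178, 3188,
      3214, 3237, 3250, 3267, 3288, 3354, 3363, 3372, 3398, 3409, 3465, 3476, 3552, 3595, 3612,
      3622, 3666, 3681, 3729, 3752, 3780, 3845, 3888, 3912, 3970]

/-- The hexads. -/
def hexads : Finset (Finset (Fin 12)) := hexList.toFinset.image (toS 12)

lemma mem_hexads {B : Finset (Fin 12)} : B ∈ hexads ↔ ∃ m ∈ hexList, toS 12 m = B := by
  simp only [hexads, mem_image, List.mem_toFinset]

theorem st_hexads : St 5 6 hexads := by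
  have h1 : ∀ a ∈ hexList, pc 12 a = 6 ∧ a < 2 ^ 12 := by
    rw [← pr_eq]
    decide +kernel
  have h2 : ∀ a ∈ hexList, ∀ b ∈ hexList, 5 ≤ pc 12 (a &&& b) → a = b := by
    rw [← pr_eq]
    decide +kernel
  have h3 : hexList.toFinset.card = 132 :=
    List.toFinset_card_of_nodup (by decide +kernel)
  refine St.of_count (fun B hB => ?_) (fun B hB B' hB' hle => ?_) ?_
  · obtain ⟨a, ha, rfl⟩ := mem_hexads.mp hB
    rw [card_toS, (h1 a ha).1]
  · obtain ⟨a, ha, rfl⟩ := mem_hexads.mp hB
    obtain ⟨b, hb, rfl⟩ := mem_hexads.mp hB'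
    rw [← toS_and, card_toS] at hle
    rw [h2 a ha b hb hle]
  · rw [hexads, card_image_of_injOn (fun a ha b hb hab =>
      toS_inj (h1 a (List.mem_toFinset.mp ha)).2 (h1 b (List.mem_toFinset.mp hb)).2 hab), h3]
    decide +kernel

/-- The relabelling from the model to the search. -/
noncomputable def p12 : Fin 12 ≃ Fin 12 := Equiv.ofBijective
  ![0, 6, 4, 1, 2, 3, 5, 8, 7, 9, 11, 10]
  (by decide +kernel)

/-- The images of the hexads. -/
def goal12 : List ℕ := [63, 349, 371, 366, 207, 245, 250, 470, 411, 423, 489, 444, 599, 619, 636,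
      858, 783, 869, 822, 825, 729, 670, 691, 742, 685, 963, 917, 972, 1008, 938, 2142, 2151,
      2169, 2327, 2379, 2420, 2362, 2349, 2259, 2205, 2230, 2219, 2284, 2501, 2520, 2446, 2481,
      2530, 2587, 2637, 2674, 2613, 2606, 2897, 2886, 2844, 2851, 2920, 2772, 2695, 2762, 2785,
      2744, 2962, 2953, 2980, 1115, 1142, 1133, 1351, 1310, 1333, 1400, 1323, 1175, 1244, 1251,
      1209, 1198, 1489, 1482, 1421, 1458, 1508, 1565, 1614, 1649, 1575, 1594, 1811, 1876, 1865,
      1890, 1836, 1746, 1733, 1675, 1716, 1768, 1926, 1944, 1953, 3157, 3087, 3123, 3178, 3132,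
      3410, 3353, 3404, 3425, 3366, 3270, 3273, 3226, 3312, 3237, 3459, 3476, 3496, 3651, 3606,
      3672, 3684, 3625, 3845, 3850, 3888, 3729, 3724, 3746, 4032]

lemma run12 : run 12 1 (pc 12) (fun _ => false) (fun a b => a == b || pc 12 (a &&& b) == 3)
    (fun a b => if a = b then a ^^^ (2 ^ 12 - 1) else a ^^^ b)
    [(2980, 2980), (3496, 3496), (2613, 2613), (2953, 2953), (2953, 2613), (1400, 1400), (349,
      349), (349, 2613), (349, 2953), (250, 250), (250, 3496), (250, 349), (3157, 3157), (3157,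
      1400), (972, 972), (972, 3496), (972, 1400), (972, 250), (963, 963), (963, 2980), (963,
      349), (963, 250), (63, 63), (63, 1400), (63, 3157), (1115, 963), (599, 250), (599, 972),
      (1482, 2953), (1482, 349), (1142, 349), (2695, 3157), (2695, 972), (2695, 63), (3746, 250),
      (3746, 963), (2920, 250), (2920, 963), (2772, 250), (2772, 963), (3845, 972), (3845, 963),
      (3845, 2920), (3845, 2772), (3410, 349), (3410, 963), (3410, 3746), (3410, 2920), (3410,
      2772), (423, 972), (938, 63), (2349, 972), (3123, 423), (3123, 2349), (3684, 1400), (3684,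
      2695), (3684, 2349), (1716, 250), (1716, 63), (1716, 3845), (1716, 423), (822, 963), (822,
      2920), (822, 2772), (822, 2349), (3132, 2920), (3132, 2772), (3132, 3410), (3132, 822),
      (2151, 349), (2151, 250), (2151, 3746), (2151, 2920), (2151, 2772), (2151, 3845), (2151,
      3410), (2151, 822), (825, 1716), (4032, 1716), (1351, 3684), (1351, 822), (1944, 2920),
      (1944, 2772), (1944, 3410), (1944, 822), (685, 2920), (685, 2772), (411, 2349), (411, 1351),
      (1175, 822), (1323, 822), (1746, 822), (2379, 423), (2379, 825), (2744, 822), (2962, 1716),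
      (2962, 2379), (2606, 1716), (2606, 2379), (619, 2349), (619, 1351), (619, 1746), (619,
      2744), (2785, 825), (2785, 2962), (2785, 2606), (2785, 3270), (2785, 1133), (2785, 1489),
      (1614, 2151), (1614, 1944), (1675, 825), (1675, 2962), (1675, 2606), (1675, 3270), (1675,
      1133), (1675, 1489), (2587, 2151), (2587, 1944), (2205, 1675), (1890, 1675)]
    goal12
    [([], 31, 63),
    ([(63, 63)], 961, 963),
    ([(63, 63)], 964, 972),
    ([(972, 972), (963, 963)], 3093, 3157),
    ([(63, 3157)], 122, 250),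
    ([(972, 250), (822, 963)], 93, 349),
    ([(963, 250)], 376, 1400),
    ([(250, 250), (1400, 1400), (2695, 972), (963, 250)], 2825, 2953),
    ([(349, 2953), (972, 250), (963, 963)], 2612, 2613),
    ([(349, 349), (3746, 963), (972, 972), (250, 349), (3123, 423)], 3488, 3496),
    ([(349, 2613), (2920, 250)], 2976, 2980)]
    [] = true := by
  rw [← pr_eq]
  decide +kernel

theorem unique12 {𝓑 : Finset (Finset (Fin 12))} (h : St 5 6 𝓑) :
    ∃ π : Fin 12 ≃ Fin 12, tr π 𝓑 = hexads := by
  obtain ⟨π, hπ⟩ := run_sound (r := 1) (fun _ _ _ _ _ _ => rfl)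
    (fun 𝓑 hs a b ha hb hab => by
      split_ifs with h1
      · rw [toS_compl]
        exact hexad_compl hs (Fintype.card_fin _) ha
      · rw [toS_xor]
        exact hexad_sdp hs (Fintype.card_fin _) _ ha _ hb (by
          rw [← toS_and, card_toS]; simpa [h1] using hab)) _ _ run12 𝓑 h (by simp)
  refine ⟨π.trans p12.symm,
    (st_hexads.eq_of_sub (h.tr (π.trans p12.symm)) (by norm_num) fun B hB => ?_).symm⟩
  obtain ⟨m, hm, rfl⟩ := mem_hexads.mp hB
  have h3 : ∀ x ∈ hexList.zip goal12, ∀ i : Fin 12, x.1.testBit i = x.2.testBit (p12 i) := by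
    decide +kernel
  rw [← List.map_fst_zip (l₁ := hexList) (l₂ := goal12) (by decide +kernel), List.mem_map] at hm
  obtain ⟨⟨m, g⟩, hmg, rfl⟩ := hm
  have hgj := h3 _ hmg
  have h4 := hπ g (List.of_mem_zip hmg).2
  rw [← map_toS hgj, mem_tr, map_map] at h4
  exact mem_tr.mpr h4

end Pool.Agent.MP_3e18ff_co.H58
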