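import Pool.Agent.MP_3e18ff_co.H58.Tau

/-! Every `S(5, 8, 24)` and every `S(5, 6, 12)` has the symmetric difference property. -/

namespace Pool.Agent.MP_3e18ff_co.H58

open Finset

variable {X : Type} [Fintype X] [DecidableEq X] {𝓑 : Finset (Finset X)}

lemma octad_meet (h : St 5 8 𝓑) (hn : Fintype.card X = 24) {B C : Finset X} (hB : B ∈ 𝓑)
    (hC : C ∈ 𝓑) (hne : C ≠ B) {p : X} (hpB : p ∈ B) (hpC : p ∈ C) :
    (C ∩ B).card = 2 ∨ (C ∩ B).card = 4 := by
  have hW : (B.erase p).card = 7 := by rw [card_erase_of_mem hpB, h.card B hB]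
  have hm := fun j hj => h.moment (by norm_num) {p} (B.erase p) (by simp) j hj
  have m0 := hm 0 (by simp)
  have m1 := hm 1 (by simp)
  have m2 := hm 2 (by simp)
  have m3 := hm 3 (by simp)
  rw [hW, hn, card_singleton] at m0 m1 m2 m3
  have hBt : B ∈ thr 𝓑 {p} := by simp [hB, hpB]
  have hi : ∀ D ∈ thr 𝓑 {p}, (D ∩ B).card = (D ∩ B.erase p).card + 1 := fun D hD => by
    rw [inter_erase, card_erase_add_one]
    simp only [mem_thr, singleton_subset_iff] at hD
    exact mem_inter.mpr ⟨hD.2, hpB⟩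
  rw [← add_sum_erase _ _ hBt, inter_eq_right.mpr (erase_subset _ _), hW] at m0 m1 m2 m3
  have key : ∑ D ∈ (thr 𝓑 {p}).erase B, ((D ∩ B.erase p).card + 4 * (D ∩ B.erase p).card.choose 3)
      = ∑ D ∈ (thr 𝓑 {p}).erase B, (1 + 2 * (D ∩ B.erase p).card.choose 2) := by
    simp only [sum_add_distrib, ← mul_sum]
    simp only [Nat.choose_zero_right, Nat.choose_one_right] at m0 m1
    norm_num [lam, Nat.choose] at m0 m1 m2 m3 ⊢
    omega
  have hle : ∀ D ∈ (thr 𝓑 {p}).erase B, (D ∩ B.erase p).card ≤ 3 := fun D hD => by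
    have h1 := mem_erase.mp hD
    have h2 := h.inter_lt (mem_thr.mp h1.2).1 hB h1.1
    have h3 := hi D h1.2
    omega
  have hCt : C ∈ (thr 𝓑 {p}).erase B := by simp [hC, hpC, hne]
  have h4 := (sum_eq_sum_iff_of_le (fun D hD => by
    have := hle D hD
    generalize (D ∩ B.erase p).card = i at this ⊢
    interval_cases i <;> decide)).mp key C hCt
  have h5 := hle C hCt
  rw [hi C (mem_of_mem_erase hCt)]
  generalize (C ∩ B.erase p).card = i at h4 h5 ⊢
  interval_cases i <;> simp_all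

theorem octad_sdp (h : St 5 8 𝓑) (hn : Fintype.card X = 24) : Sdp 4 𝓑 := by
  intro B hB B' hB' hI
  have cU : (B \ B').card = 4 := by
    have := card_sdiff_add_card_inter B B'
    have := h.card B hB
    omega
  have cV : (B' \ B).card = 4 := by
    have := card_sdiff_add_card_inter B' B
    have := h.card B' hB'
    rw [inter_comm] at hI
    omega
  -- blocks through `B \ B'` and a point of `B' \ B`
  have hblk : ∀ a ∈ B' \ B, ∃ C ∈ 𝓑, a ∈ C ∧ C ∩ B = B \ B' ∧
      (C = symmDiff B B' ∨ (C ∩ (B' \ B)).card = 2) := by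
    intro a ha
    have ha' := mem_sdiff.mp ha
    obtain ⟨C, hC, hsub⟩ := h.ex (insert a (B \ B'))
      (by rw [card_insert_of_notMem (by simp [ha'.2]), cU])
    rw [insert_subset_iff] at hsub
    have h1 : C ∩ B = B \ B' :=
      h.inter_eq hC hB (fun h1 => ha'.2 (h1 ▸ hsub.1)) cU hsub.2 sdiff_subset
    have h2 : C ∩ B' = C ∩ (B' \ B) := by
      ext z
      have : z ∈ C ∩ B ↔ z ∈ B \ B' := by rw [h1]
      simp only [mem_inter, mem_sdiff] at this ⊢
      tauto
    have h3 : C ≠ B' := by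
      rintro rfl
      rw [inter_comm] at h1
      obtain ⟨z, hz⟩ : (B \ C).Nonempty := by rw [← card_pos, cU]; norm_num
      exact (mem_sdiff.mp hz).2 (hsub.2 hz)
    refine ⟨C, hC, hsub.1, h1, ?_⟩
    rcases octad_meet h hn hB' hC h3 ha'.1 hsub.1 with h4 | h4
    · right; rw [← h2, h4]
    · left
      have h5 : C ∩ (B' \ B) = B' \ B :=
        eq_of_subset_of_card_le inter_subset_right (by rw [← h2, h4, cV])
      symm
      apply eq_of_subset_of_card_le
      · rw [symmDiff_def, sup_eq_union]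
        exact union_subset hsub.2 (inter_eq_right.mp h5)
      · rw [symmDiff_def, sup_eq_union, card_union_of_disjoint disjoint_sdiff_sdiff, cU, cV,
          h.card C hC]
  by_contra hcon
  obtain ⟨a, ha⟩ : (B' \ B).Nonempty := by rw [← card_pos, cV]; norm_num
  obtain ⟨C, hC, haC, hCB, hC2⟩ := hblk a ha
  replace hC2 := hC2.resolve_left (fun h1 => hcon (h1 ▸ hC))
  obtain ⟨c, hc, hcC⟩ : ∃ c ∈ B' \ B, c ∉ C := by
    by_contra h1
    push Not at h1
    rw [inter_eq_right.mpr h1] at hC2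
    omega
  obtain ⟨D, hD, hcD, hDB, hD2⟩ := hblk c hc
  replace hD2 := hD2.resolve_left (fun h1 => hcon (h1 ▸ hD))
  have hUC : B \ B' ⊆ C := hCB ▸ inter_subset_left
  have hUD : B \ B' ⊆ D := hDB ▸ inter_subset_left
  have hCD : C ∩ D = B \ B' := h.inter_eq hC hD (fun h1 => hcC (h1 ▸ hcD)) cU hUC hUD
  have hCD' : ∀ z, z ∈ C ∧ z ∈ D ↔ z ∈ B ∧ z ∉ B' := fun z => by
    rw [← mem_inter, hCD, mem_sdiff]
  have ha' := mem_sdiff.mp ha
  have hc' := mem_sdiff.mp hc
  have haD : a ∉ D := fun h1 => ha'.2 ((hCD' a).mp ⟨haC, h1⟩).1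
  have hcover : C ∩ (B' \ B) ∪ D ∩ (B' \ B) = B' \ B := by
    apply eq_of_subset_of_card_le (union_subset inter_subset_right inter_subset_right)
    rw [card_union_of_disjoint, hC2, hD2, cV]
    rw [disjoint_left]
    intro z h1 h2
    have := hCD' z
    simp only [mem_inter, mem_sdiff] at h1 h2
    tauto
  obtain ⟨T, hT, hTc⟩ := exists_subset_card_eq (s := B \ B') (n := 3) (by omega)
  have hT' : ∀ z ∈ T, z ∈ B ∧ z ∉ B' := fun z hz => mem_sdiff.mp (hT hz)
  have haT : a ∉ T := fun h1 => ha'.2 (hT' a h1).1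
  have hcT : c ∉ T := fun h1 => hc'.2 (hT' c h1).1
  have hac : a ≠ c := fun h1 => hcC (h1 ▸ haC)
  obtain ⟨E, hE, hsub⟩ := h.ex (insert a (insert c T))
    (by rw [card_insert_of_notMem (by simp [hac, haT]), card_insert_of_notMem hcT, hTc])
  simp only [insert_subset_iff] at hsub
  have hEC : E ∩ C = insert a T := h.inter_eq hE hC (fun h1 => hcC (h1 ▸ hsub.2.1))
    (by rw [card_insert_of_notMem haT, hTc]) (insert_subset hsub.1 hsub.2.2)
    (insert_subset haC (hT.trans hUC))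
  have hED : E ∩ D = insert c T := h.inter_eq hE hD (fun h1 => haD (h1 ▸ hsub.1))
    (by rw [card_insert_of_notMem hcT, hTc]) (insert_subset hsub.2.1 hsub.2.2)
    (insert_subset hcD (hT.trans hUD))
  have e1 : E ∩ B = T ∪ E ∩ (B ∩ B') := by
    ext z
    have : z ∈ E ∩ C ↔ z ∈ insert a T := by rw [hEC]
    have := hCD' z
    have := hT' z
    have := @hsub.2.2 z
    simp only [mem_inter, mem_union, mem_insert] at *
    grind
  have e2 : E ∩ B' = insert a (insert c (E ∩ (B ∩ B'))) := by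
    ext z
    have : z ∈ E ∩ C ↔ z ∈ insert a T := by rw [hEC]
    have : z ∈ E ∩ D ↔ z ∈ insert c T := by rw [hED]
    have : z ∈ C ∩ (B' \ B) ∪ D ∩ (B' \ B) ↔ z ∈ B' \ B := by rw [hcover]
    have := hT' z
    simp only [mem_inter, mem_union, mem_insert, mem_sdiff] at *
    grind
  obtain ⟨p, hp⟩ : T.Nonempty := by rw [← card_pos, hTc]; norm_num
  have f1 := octad_meet h hn hB hE (fun h1 => ha'.2 (h1 ▸ hsub.1)) (hT' p hp).1 (hsub.2.2 hp)
  have f2 := octad_meet h hn hB' hE (fun h1 => (hT' p hp).2 (h1 ▸ hsub.2.2 hp)) ha'.1 hsub.1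
  rw [e1, card_union_of_disjoint (by
    rw [disjoint_left]
    intro z h1 h2
    exact (hT' z h1).2 (mem_inter.mp (mem_inter.mp h2).2).2), hTc] at f1
  rw [e2, card_insert_of_notMem (by simp [hac, ha'.2]),
    card_insert_of_notMem (by simp [hc'.2])] at f2
  omega

lemma hexad_compl (h : St 5 6 𝓑) (hn : Fintype.card X = 12) {B : Finset X} (hB : B ∈ 𝓑) :
    Bᶜ ∈ 𝓑 := by
  by_contra hcon
  have hm := fun j hj => h.moment (by norm_num) ∅ B (by simp) j hj
  have m0 := hm 0 (by simp)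
  have m1 := hm 1 (by simp)
  have m2 := hm 2 (by simp)
  have m3 := hm 3 (by simp)
  have m4 := hm 4 (by simp)
  have m5 := hm 5 (by simp)
  have hBt : B ∈ thr 𝓑 ∅ := by simp [hB]
  rw [h.card B hB, hn, card_empty, ← add_sum_erase _ _ hBt, inter_self, h.card B hB]
    at m0 m1 m2 m3 m4 m5
  have key : ∑ D ∈ (thr 𝓑 ∅).erase B, ((D ∩ B).card.choose 1 + (D ∩ B).card.choose 3
        + (D ∩ B).card.choose 5)
      = ∑ D ∈ (thr 𝓑 ∅).erase B, ((D ∩ B).card.choose 0 + (D ∩ B).card.choose 2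
        + (D ∩ B).card.choose 4) := by
    refine sum_congr rfl fun D hD => ?_
    have h1 := mem_erase.mp hD
    have hD' := (mem_thr.mp h1.2).1
    have h2 := h.inter_lt hD' hB h1.1
    have h3 : (D ∩ B).card ≠ 0 := by
      intro h4
      rw [card_eq_zero, ← disjoint_iff_inter_eq_empty] at h4
      have : D = Bᶜ := eq_of_subset_of_card_le (le_compl_iff_disjoint_right.mpr h4)
        (by rw [card_compl, hn, h.card B hB, h.card D hD'])
      exact hcon (this ▸ hD')
    generalize (D ∩ B).card = i at h2 h3 ⊢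
    interval_cases i <;> first | decide | omega
  simp only [sum_add_distrib] at key
  generalize ∑ D ∈ (thr 𝓑 ∅).erase B, (D ∩ B).card.choose 0 = a0 at *
  generalize ∑ D ∈ (thr 𝓑 ∅).erase B, (D ∩ B).card.choose 1 = a1 at *
  generalize ∑ D ∈ (thr 𝓑 ∅).erase B, (D ∩ B).card.choose 2 = a2 at *
  generalize ∑ D ∈ (thr 𝓑 ∅).erase B, (D ∩ B).card.choose 3 = a3 at *
  generalize ∑ D ∈ (thr 𝓑 ∅).erase B, (D ∩ B).card.choose 4 = a4 at *
  generalize ∑ D ∈ (thr 𝓑 ∅).erase B, (D ∩ B).card.choose 5 = a5 at *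
  norm_num [lam, Nat.choose] at m0 m1 m2 m3 m4 m5
  omega

lemma hexad_parallel (h : St 5 6 𝓑) (hn : Fintype.card X = 12) {B T : Finset X} (hB : B ∈ 𝓑)
    (hT : T ⊆ B) (hTc : T.card = 3) {p : X} (hp : p ∉ B) :
    ∃! C, C ∈ 𝓑 ∧ p ∈ C ∧ C ∩ B = T := by
  have hpT : p ∉ T := fun h1 => hp (hT h1)
  have hS : (insert p T).card = 4 := by rw [card_insert_of_notMem hpT, hTc]
  have hW : (B \ T).card = 3 := by rw [card_sdiff_of_subset hT, h.card B hB, hTc]
  have m0 := h.card_thr (by norm_num) (insert p T) (by omega)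
  have m1 := h.moment_one (by norm_num) (insert p T) (B \ T)
    (by simp [disjoint_sdiff, hp]) (by omega)
  rw [hS, hn] at m0 m1
  rw [hW] at m1
  have hi : ∀ C ∈ thr 𝓑 (insert p T), C ∩ B = T ∪ C ∩ (B \ T) := fun C hC => by
    have h1 := (insert_subset_iff.mp (mem_thr.mp hC).2).2
    ext z
    have := @h1 z
    have := @hT z
    simp only [mem_inter, mem_union, mem_sdiff]
    tauto
  have key : ∑ C ∈ thr 𝓑 (insert p T), (C ∩ (B \ T)).card
      = ∑ C ∈ thr 𝓑 (insert p T), if C ∩ B = T then 0 else 1 := by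
    refine sum_congr rfl fun C hC => ?_
    have h1 := mem_thr.mp hC
    have h2 := h.inter_lt h1.1 hB (fun h3 => hp (h3 ▸ h1.2 (mem_insert_self _ _)))
    have h3 : (C ∩ B).card = 3 + (C ∩ (B \ T)).card := by
      rw [hi C hC, card_union_of_disjoint (disjoint_sdiff.mono_right inter_subset_right), hTc]
    split_ifs with h4
    · rw [h4] at h3
      omega
    · have : (C ∩ (B \ T)).card ≠ 0 := fun h5 => h4 (by
        rw [hi C hC, card_eq_zero.mp h5, union_empty])
      omega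
  rw [m1, sum_ite, sum_const_zero, zero_add, sum_const, smul_eq_mul, mul_one] at key
  have h6 := card_filter_add_card_filter_not (s := thr 𝓑 (insert p T)) (fun C => C ∩ B = T)
  rw [m0, ← key] at h6
  norm_num [lam, Nat.choose] at h6
  obtain ⟨C, hC⟩ := card_eq_one.mp (show ((thr 𝓑 (insert p T)).filter
    (fun C => C ∩ B = T)).card = 1 by omega)
  have h7 : ∀ D, D ∈ 𝓑 ∧ p ∈ D ∧ D ∩ B = T ↔ D = C := fun D => by
    rw [← mem_singleton (b := D), ← hC, mem_filter, mem_thr, insert_subset_iff]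
    constructor
    · rintro ⟨h1, h2, h3⟩
      exact ⟨⟨h1, h2, h3 ▸ inter_subset_left⟩, h3⟩
    · rintro ⟨⟨h1, h2, -⟩, h3⟩
      exact ⟨h1, h2, h3⟩
  exact ⟨C, (h7 C).mpr rfl, fun D hD => (h7 D).mp hD⟩

theorem hexad_sdp (h : St 5 6 𝓑) (hn : Fintype.card X = 12) : Sdp 3 𝓑 := by
  intro B hB B' hB' hI
  have c1 := card_union_add_card_inter B B'
  rw [h.card B hB, h.card B' hB', hI] at c1
  obtain ⟨v, hv⟩ : (B ∪ B')ᶜ.Nonempty := by rw [← card_pos, card_compl]; omega
  rw [mem_compl, mem_union, not_or] at hv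
  obtain ⟨C, ⟨hC, hvC, hCB⟩, -⟩ := hexad_parallel h hn hB inter_subset_left hI hv.1
  have h1 : ∀ q ∈ C, q ∈ B' → q ∈ B := by
    intro q hqC hqB'
    by_contra hqB
    have := (hexad_parallel h hn hB inter_subset_left hI hqB).unique ⟨hC, hqC, hCB⟩
      ⟨hB', hqB', inter_comm _ _⟩
    exact hv.2 (this ▸ hvC)
  have h2 : symmDiff B B' = Cᶜ := by
    apply eq_of_subset_of_card_le
    · intro z hz
      have : z ∈ C ∩ B ↔ z ∈ B ∩ B' := by rw [hCB]
      have := h1 z
      simp only [mem_symmDiff, mem_compl, mem_inter] at *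
      tauto
    · have e1 := card_sdiff_add_card_inter B B'
      have e2 := card_sdiff_add_card_inter B' B
      rw [inter_comm] at e2
      rw [card_compl, symmDiff_def, sup_eq_union, card_union_of_disjoint disjoint_sdiff_sdiff,
        h.card C hC]
      have := h.card B hB
      have := h.card B' hB'
      omega
  rw [h2]
  exact hexad_compl h hn hC

end Pool.Agent.MP_3e18ff_co.H58
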