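import Pool.Agent.MP_3e18ff_co.H58.Search
import Pool.Agent.MP_3e18ff_co.H58.Witt

/-! Existence and uniqueness of `S(5, 8, 24)`. -/

namespace Pool.Agent.MP_3e18ff_co.H58

open Finset

lemma St.of_count {X : Type} [Fintype X] [DecidableEq X] {t k : ℕ} {𝓑 : Finset (Finset X)}
    (h1 : ∀ B ∈ 𝓑, B.card = k) (h2 : ∀ B ∈ 𝓑, ∀ B' ∈ 𝓑, t ≤ (B ∩ B').card → B = B')
    (h3 : (Fintype.card X).choose t ≤ 𝓑.card * k.choose t) : St t k 𝓑 where
  card := h1
  uniq := h2
  ex T hT := by
    have e : 𝓑.biUnion (powersetCard t) = powersetCard t univ := by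
      apply eq_of_subset_of_card_le
      · intro S hS
        obtain ⟨B, -, hB⟩ := mem_biUnion.mp hS
        exact mem_powersetCard.mpr ⟨subset_univ _, (mem_powersetCard.mp hB).2⟩
      · rw [card_biUnion, card_powersetCard, card_univ,
          sum_congr rfl (g := fun _ => k.choose t) (fun B hB => by rw [card_powersetCard, h1 B
      hB]),
          sum_const, smul_eq_mul]
        · exact h3
        · intro B hB B' hB' hne
          rw [Function.onFun, disjoint_left]
          intro S hS hS'
          rw [mem_powersetCard] at hS hS'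
          exact hne (h2 B hB B' hB' (hS.2 ▸ card_le_card (subset_inter hS.1 hS'.1)))
    have : T ∈ 𝓑.biUnion (powersetCard t) := by
      rw [e]; exact mem_powersetCard.mpr ⟨subset_univ _, hT⟩
    obtain ⟨B, hB, hTB⟩ := mem_biUnion.mp this
    exact ⟨B, hB, (mem_powersetCard.mp hTB).1⟩

lemma card_symmDiff_add {X : Type} [DecidableEq X] (A B : Finset X) :
    (symmDiff A B).card + 2 * (A ∩ B).card = A.card + B.card := by
  have h1 := card_sdiff_add_card_inter A B
  have h2 := card_sdiff_add_card_inter B A
  rw [inter_comm] at h2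
  rw [symmDiff_def, sup_eq_union, card_union_of_disjoint disjoint_sdiff_sdiff]
  omega

lemma toS_inj {n a b : ℕ} (ha : a < 2 ^ n) (hb : b < 2 ^ n) (h : toS n a = toS n b) : a = b := by
  apply Nat.eq_of_testBit_eq
  intro i
  by_cases hi : i < n
  · have : (⟨i, hi⟩ : Fin n) ∈ toS n a ↔ (⟨i, hi⟩ : Fin n) ∈ toS n b := by rw [h]
    simpa using this
  · have := Nat.pow_le_pow_right (show 0 < 2 by norm_num) (not_lt.mp hi)
    rw [Nat.testBit_lt_two_pow (by omega), Nat.testBit_lt_two_pow (by omega)]

lemma map_toS {n a b : ℕ} {p : Fin n ≃ Fin n} (h : ∀ i : Fin n, a.testBit i = b.testBit (p i)) :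
    (toS n a).map p.toEmbedding = toS n b := by
  ext i
  simp [h]

/-- The rows of the generator matrix of the extended binary Golay code. -/
def gen (j : ℕ) : ℕ := 2787 * 2 ^ j + 2 ^ 23

/-- Orthogonality to the rows. -/
def Ker (A : Finset (Fin 24)) : Prop := ∀ j < 12, Even (A ∩ toS 24 (gen j)).card

lemma Ker.xor {a b : ℕ} (ha : Ker (toS 24 a)) (hb : Ker (toS 24 b)) : Ker (toS 24 (a ^^^ b)) := by
  intro j hj
  have h1 := card_symmDiff_add (toS 24 a ∩ toS 24 (gen j)) (toS 24 b ∩ toS 24 (gen j))
  have h2 : toS 24 (a ^^^ b) ∩ toS 24 (gen j)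
      = symmDiff (toS 24 a ∩ toS 24 (gen j)) (toS 24 b ∩ toS 24 (gen j)) := by
    rw [toS_xor]
    exact inf_symmDiff_distrib_right _ _ _
  obtain ⟨x, hx⟩ := ha j hj
  obtain ⟨y, hy⟩ := hb j hj
  rw [h2, Nat.even_iff]
  omega

lemma ker_iff (a : ℕ) : Ker (toS 24 a) ↔ ∀ j < 12, pc 24 (a &&& gen j) % 2 = 0 := by
  simp only [Ker, ← toS_and, card_toS, Nat.even_iff]

/-- Systematic encoding. -/
def enc : List ℕ → ℕ → ℕ
  | [], _ => 0
  | a :: r, v => (if v % 2 = 1 then a else 0) ^^^ enc r (v / 2)

/-- The systematic generators. -/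
def sys : List ℕ := [11415553, 14442498, 1503236, 3006472, 6012944, 10072096, 11755584, 15122560,
      6533376, 15290880, 8164352, 14096384]

lemma ker_enc (l : List ℕ) (hl : ∀ a ∈ l, Ker (toS 24 a)) (v : ℕ) : Ker (toS 24 (enc l v)) := by
  have h0 : Ker (toS 24 0) := fun j _ => by simp [toS]
  induction l generalizing v with
  | nil => exact h0
  | cons a r ih =>
    refine Ker.xor ?_ (ih (fun b hb => hl b (List.mem_cons_of_mem _ hb)) _)
    split_ifs
    · exact hl a List.mem_cons_self
    · exact h0

lemma ker_sys (v : ℕ) : Ker (toS 24 (enc sys v)) :=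
  ker_enc _ (by simp only [ker_iff]; decide +kernel) v

lemma enc_check' : (List.range 4096).all (fun v => enc sys v % 2 ^ 12 == v
    && decide (enc sys v < 2 ^ 24) && (enc sys v == 0 || decide (8 ≤ pc 24 (enc sys v)))) = true := by
  rw [← pq_eq]
  decide +kernel

lemma enc_check : ∀ v < 4096, enc sys v % 2 ^ 12 = v ∧ enc sys v < 2 ^ 24 ∧
    (enc sys v = 0 ∨ 8 ≤ pc 24 (enc sys v)) := by
  intro v hv
  have := List.all_eq_true.mp enc_check' v (List.mem_range.mpr hv)
  simpa only [Bool.and_eq_true, beq_iff_eq, decide_eq_true_eq, Bool.or_eq_true, and_assoc]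
    using this

lemma high_check' : (List.range 4096).all (fun u => u == 0
    || (List.range 12).any (fun j => pc 24 (2 ^ 12 * u &&& gen j) % 2 == 1)) = true := by
  rw [← pq_eq]
  decide +kernel

lemma high_check : ∀ u < 4096, (∀ j < 12, pc 24 (2 ^ 12 * u &&& gen j) % 2 = 0) → u = 0 := by
  intro u hu h
  have := List.all_eq_true.mp high_check' u (List.mem_range.mpr hu)
  simp only [Bool.or_eq_true, beq_iff_eq, List.any_eq_true, List.mem_range] at this
  rcases this with h1 | ⟨j, hj, h1⟩
  · exact h1
  · rw [h j hj] at h1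
    exact absurd h1 (by norm_num)

lemma count_check : ((range 4096).filter (fun v => pc 24 (enc sys v) = 8)).card = 759 := by
  rw [← pq_eq]
  decide +kernel

lemma Ker.weight {A : Finset (Fin 24)} (h : Ker A) : A = ∅ ∨ 8 ≤ A.card := by
  obtain ⟨w, hw, rfl⟩ := exists_toS A
  obtain ⟨h1, h2, h3⟩ := enc_check (w % 2 ^ 12) (Nat.mod_lt _ (by norm_num))
  have h4 := h.xor (ker_sys (w % 2 ^ 12))
  have h5 : (w ^^^ enc sys (w % 2 ^ 12)) % 2 ^ 12 = 0 := by
    rw [Nat.xor_mod_two_pow, h1, Nat.xor_self]
  have h6 := Nat.xor_lt_two_pow hw h2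
  obtain ⟨u, hu⟩ := Nat.dvd_of_mod_eq_zero h5
  rw [hu, ker_iff] at h4
  have h7 := high_check u (by omega) h4
  rw [h7, mul_zero, Nat.xor_eq_zero_iff] at hu
  rw [← hu] at h3
  rcases h3 with rfl | h3
  · left; simp [toS]
  · right; rwa [card_toS]

open Classical in
/-- The octads. -/
noncomputable def octads : Finset (Finset (Fin 24)) := univ.filter (fun B => B.card = 8 ∧ Ker B)

lemma mem_octads {B : Finset (Fin 24)} : B ∈ octads ↔ B.card = 8 ∧ Ker B := by simp [octads]

theorem st_octads : St 5 8 octads := by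
  refine St.of_count (fun B hB => (mem_octads.mp hB).1) (fun B hB B' hB' hle => ?_) ?_
  · obtain ⟨a, -, rfl⟩ := exists_toS B
    obtain ⟨b, -, rfl⟩ := exists_toS B'
    rw [mem_octads] at hB hB'
    have h1 := (hB.2.xor hB'.2).weight
    have h2 := card_symmDiff_add (toS 24 a) (toS 24 b)
    rw [toS_xor] at h1
    exact symmDiff_eq_bot.mp (h1.resolve_right (by omega))
  · have : 759 ≤ octads.card := by
      rw [← count_check]
      refine card_le_card_of_injOn (fun v => toS 24 (enc sys v)) (fun v hv => ?_)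
        (fun v hv w hw hvw => ?_)
      · exact mem_coe.mpr (mem_octads.mpr ⟨by rw [card_toS, (mem_filter.mp hv).2], ker_sys v⟩)
      · have h1 := enc_check v (mem_range.mp (mem_filter.mp hv).1)
        have h2 := enc_check w (mem_range.mp (mem_filter.mp hw).1)
        rw [← h1.1, ← h2.1, toS_inj h1.2.1 h2.2.1 hvw]
    rw [Fintype.card_fin, show Nat.choose 24 5 = 759 * Nat.choose 8 5 by decide +kernel]
    exact Nat.mul_le_mul_right _ this

lemma octad_even {X : Type} [Fintype X] [DecidableEq X] {𝓑 : Finset (Finset X)} (h : St 5 8 𝓑)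
    (hn : Fintype.card X = 24) {B C : Finset X} (hB : B ∈ 𝓑) (hC : C ∈ 𝓑) :
    (B ∩ C).card % 2 = 0 := by
  by_cases hne : B = C
  · rw [hne, inter_self, h.card C hC]
  rcases (B ∩ C).eq_empty_or_nonempty with h1 | ⟨p, hp⟩
  · rw [h1]; rfl
  · have := octad_meet h hn hC hB hne (mem_inter.mp hp).2 (mem_inter.mp hp).1
    omega

/-- The relabelling from the cyclic model to the search. -/
noncomputable def p24 : Fin 24 ≃ Fin 24 := Equiv.ofBijective
  ![6, 2, 8, 13, 20, 7, 3, 0, 9, 4, 11, 5, 10, 12, 18, 16, 19, 17, 14, 22, 23, 15, 21, 1]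
  (by decide +kernel)

/-- The images of the rows. -/
def goal24 : List ℕ := [255, 3855, 13107, 1322514, 1120434, 789674, 201771, 808451, 4657682,
      9259026, 4950050, 11158562]

lemma run24 : run 24 3 (pc 24) (fun i => i % 2 == 1) (fun a b => pc 24 (a &&& b) == 4) (· ^^^ ·)
    [(13107, 52275), (65280, 1217804), (201940, 348213), (410849, 255), (1206796, 410654), (52275,
      21849), (201940, 1217804), (39274, 1147352), (21849, 348213), (329068, 201940), (13107,
      667169), (397752, 662802), (255, 201940), (662802, 3855), (659997, 410654), (667169,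
      4746246), (4342311, 348213), (21849, 1217804), (1228885, 52275), (667169, 10102914),
      (9438883, 255), (1182822, 9438812), (3855, 667169), (13107, 348213), (663854, 353030),
      (8522298, 999976), (3855, 4746246), (4743945, 65280), (4758537, 201771), (3855, 13107),
      (3544194, 10102914), (15420, 11287552), (11272252, 410654)]
    goal24
    [([], 31, 255),
    ([], 271, 3855),
    ([(255, 3855)], 817, 13107),
    ([], 1075, 52275),
    ([(255, 13107), (255, 52275), (3855, 13107), (52428, 15420)], 4308, 201940),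
    ([(255, 201940), (3855, 13107)], 5145, 21849),
    ([(52275, 21849), (39274, 255), (3855, 13107)], 4149, 348213),
    ([(201940, 21849), (213389, 3855), (201940, 348213), (410849, 52275), (255, 3855), (428242,
      4080), (255, 201940), (201771, 3855), (255, 21849), (13107, 52275), (21926, 65280), (21849,
      348213), (329068, 201940), (397752, 4080)], 134688, 667169),
    ([(255, 201940), (201771, 3855), (255, 13107), (201940, 21849), (3855, 667169), (21849,
      348213), (329068, 201940)], 135436, 1217804),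
    ([(52275, 21849), (39274, 3855), (201940, 1217804), (1147352, 255), (38501, 1147175), (3855,
      1217804), (13107, 52275), (1219075, 65280), (1219075, 52275), (13107, 667169)], 1184770,
      3544194),
    ([(13107, 667169), (662802, 201940), (52275, 667169), (21849, 1217804), (713234, 1228885),
      (201940, 3544194), (21849, 348213), (3473494, 329068), (3855, 13107), (3147066, 15420),
      (3855, 667169), (329068, 201940), (397752, 663854), (662802, 1217804)], 534534, 4746246),
    ([(13107, 348213), (353030, 3855), (201940, 3544194), (3473494, 255), (355337, 3473577),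
      (21849, 1217804), (1228885, 201940), (13107, 52275), (1168513, 65280), (201940, 1217804),
      (21849, 348213), (1147352, 329068), (3855, 13107), (1344692, 15420), (13107, 667169),
      (662802, 1217804), (52275, 4746246), (4759605, 255), (1607710, 4759754)], 1058946,
      10102914)]
    [] = true := by
  rw [← pq_eq]
  decide +kernel

theorem unique24 {𝓑 : Finset (Finset (Fin 24))} (h : St 5 8 𝓑) :
    ∃ π : Fin 24 ≃ Fin 24, tr π 𝓑 = octads := by
  obtain ⟨π, hπ⟩ := run_sound (r := 3)
    (fun 𝓑 hs B hB C hC => by simp [octad_even hs (Fintype.card_fin _) hB hC])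
    (fun 𝓑 hs a b ha hb hab => by
      rw [toS_xor]
      exact octad_sdp hs (Fintype.card_fin _) _ ha _ hb (by
        rw [← toS_and, card_toS]; simpa using hab)) _ _ run24 𝓑 h (by simp)
  have h2 := h.tr (π.trans p24.symm)
  refine ⟨π.trans p24.symm, h2.eq_of_sub st_octads (by norm_num) fun B hB => ?_⟩
  refine mem_octads.mpr ⟨h2.card B hB, fun j hj => ?_⟩
  have h3 : ∀ j < 12, ∃ g ∈ goal24, ∀ i : Fin 24, (gen j).testBit i = g.testBit (p24 i) := by
    decide +kernel
  obtain ⟨g, hg, hgj⟩ := h3 j hj
  have h4 := hπ g hg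
  rw [← map_toS hgj, mem_tr, map_map] at h4
  exact Nat.even_iff.mpr (octad_even h2 (Fintype.card_fin _) hB (mem_tr.mpr h4))

end Pool.Agent.MP_3e18ff_co.H58
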